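import Pool.Agent.Work.MP_dd0d16_nt.L.Form

/-!
Reduced forms with small leading coefficient are few.

PLAN. Use `Red.bounds`; write `Y = T ^ 4`. For fixed `(a, b, c)` the value `A` is fixed and `e` lies both in an interval of
length `A / a` (from `0 ≤ b c - a e ≤ A`) and in `|e| ≤ Y / A ^ (3/2)` (from `M e^2 ≤ 4 C^3`, `3 A C ≤ M ≤ Y`). For
fixed `(a, b)`: `|c| ≤ √(Y / A)` and `0 < b^2 - a c ≤ A0` confines `c` to an interval of length `A0 / a`. `|b| ≤ 2 √A`.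
All these lengths are at least a constant (`a ≥ 1`, `3 a^2 ≤ 4 A`, `A ≤ T^2`), so the `+ 1` of each count is absorbed.
Split by `j` with `T^2 / 4^(j+1) < A ≤ T^2 / 4^j`, `y = 4^j`: ranges `b : T / 2^j`, `c : T 2^j`, `e : T 8^j`.
(i) `a ≤ T / 16^j`: count `≤ K (T / 16^j) (T / 2^j) (T 2^j) (T 8^j) = K T^4 / 2^j`;
(ii) `a > T / 16^j`: count `≤ K ∑_a (T / 2^j) (T^2 / (4^j a))^2 ≤ K T^4 / 2^j` (`∑_{a > a1} 1 / a^2 ≤ 2 / a1`);
(iii) for `j < J` use instead `a ≤ η T`: count `≤ K η 8^j T^4`. Choose `J` with `K 2^(-J)` small and then `η`.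
A variant without dyadic pieces: `min (u, v) ≤ u^(1/4) v^(3/4)` for the range of `e`, then sum `A^(3/8)` over `b`, over
`c` (with `A ≤ min (T^2) (Y / c^2)`) and `a^(-3/4)` over `a ≤ η T`.
-/

set_option autoImplicit false

namespace Pool.Agent.Work.MP_dd0d16_nt.LC

open Filter

theorem YCusp_card {x y : ℝ} (h : 0 ≤ y - x + 1) :
    ((Finset.Icc ⌈x⌉ ⌊y⌋).card : ℝ) ≤ y - x + 1 := by
  rw [Int.card_Icc]
  rcases le_total 0 (⌊y⌋ + 1 - ⌈x⌉) with h1 | h1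
  · have e : ((⌊y⌋ + 1 - ⌈x⌉).toNat : ℝ) = ((⌊y⌋ + 1 - ⌈x⌉ : ℤ) : ℝ) := by
      exact_mod_cast Int.toNat_of_nonneg h1
    rw [e]; push_cast
    linarith [Int.floor_le y, Int.le_ceil x]
  · rw [Int.toNat_of_nonpos h1]; simpa using h

theorem YCusp_mem {x y : ℝ} {n : ℤ} (h1 : x ≤ n) (h2 : (n : ℝ) ≤ y) : n ∈ Finset.Icc ⌈x⌉ ⌊y⌋ :=
  Finset.mem_Icc.2 ⟨Int.ceil_le.2 h1, Int.le_floor.2 h2⟩

theorem YCusp_real {f : Fin 4 → ℤ} (h : Red f) : ∃ A B C M : ℝ, A = (hA f : ℤ) ∧ M = (hM f : ℤ) ∧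
    A = (f 1 : ℝ) ^ 2 - f 0 * f 2 ∧ B = (f 1 : ℝ) * f 2 - f 0 * f 3 ∧ (1 : ℝ) ≤ f 0 ∧ 1 ≤ A ∧ 0 ≤ B ∧
    B ≤ A ∧ A ≤ C ∧ 3 * A ^ 2 ≤ M ∧ 3 * A * C ≤ M ∧ 3 * (f 0 : ℝ) ^ 2 ≤ 4 * A ∧
    3 * (f 1 : ℝ) ^ 2 ≤ 4 * A ∧ 3 * (f 2 : ℝ) ^ 2 ≤ 4 * C ∧ M * (f 3 : ℝ) ^ 2 ≤ 4 * C ^ 3 := by
  obtain ⟨b1, b2, b3, b4, b5, b6⟩ := h.bounds
  obtain ⟨r1, r2, r3, r4, r5⟩ := h
  have r2' : 1 ≤ hA f := r2
  refine ⟨(hA f : ℤ), (hB f : ℤ), (hC f : ℤ), (hM f : ℤ), rfl, rfl, ?_, ?_, ?_, ?_, ?_, ?_, ?_, ?_,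
    ?_, ?_, ?_, ?_, ?_⟩
  · unfold hA; push_cast; ring
  · unfold hB; push_cast; ring
  all_goals assumption_mod_cast

theorem YCusp_box {T l u a₁ : ℝ} (hT : 1 ≤ T) (l0 : 0 < l) (lT : l ≤ T) (u0 : 0 ≤ u) (a0 : 0 ≤ a₁)
    (s : Finset (Fin 4 → ℤ)) (hs : ∀ f ∈ s, Red f ∧ ((hM f : ℤ) : ℝ) ≤ T ^ 4 ∧ (f 0 : ℝ) ≤ a₁ ∧
      l ^ 2 ≤ ((hA f : ℤ) : ℝ) ∧ ((hA f : ℤ) : ℝ) ≤ u ^ 2) :
    (s.card : ℝ) ≤ 45 * a₁ * u * T ^ 6 / l ^ 4 := by
  have T0 : 0 < T := by linarith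
  rcases s.eq_empty_or_nonempty with rfl | ⟨g, hg⟩
  · simp only [Finset.card_empty, Nat.cast_zero]; positivity
  have u1 : 1 ≤ u := by
    obtain ⟨A, B, C, M, eA, -, -, -, -, h1, -⟩ := YCusp_real (hs g hg).1
    have := (hs g hg).2.2.2.2
    rw [← eA] at this
    nlinarith
  have c1 : 1 ≤ T ^ 2 / l := by
    rw [le_div_iff₀ l0]; nlinarith
  have e1 : 1 ≤ T ^ 4 / l ^ 3 := by
    rw [le_div_iff₀ (by positivity), one_mul]
    calc l ^ 3 ≤ T ^ 3 := by gcongr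
      _ ≤ T ^ 4 := pow_le_pow_right₀ hT (by norm_num)
  have hc : s.card ≤ (Finset.Icc ⌈(1 : ℝ)⌉ ⌊a₁⌋ ×ˢ Finset.Icc ⌈-(2 * u)⌉ ⌊2 * u⌋ ×ˢ
      Finset.Icc ⌈-(T ^ 2 / l)⌉ ⌊T ^ 2 / l⌋ ×ˢ Finset.Icc ⌈-(T ^ 4 / l ^ 3)⌉ ⌊T ^ 4 / l ^ 3⌋).card := by
    refine Finset.card_le_card_of_injOn (fun f => (f 0, f 1, f 2, f 3)) (fun f hf => ?_)
      fun f _ g _ h => ?_
    · obtain ⟨h1, h2, h3, h4, h5⟩ := hs f hf
      obtain ⟨A, B, C, M, eA, eM, -, -, r1, r2, -, -, r5, -, b2, -, b4, b5, b6⟩ := YCusp_real h1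
      rw [← eA] at h4 h5
      rw [← eM] at h2
      have C0 : 0 < C := by linarith
      have l2 : 0 < l ^ 2 := by positivity
      have hC : 3 * l ^ 2 * C ≤ T ^ 4 := by nlinarith
      have k1 : |(f 1 : ℝ)| ≤ 2 * u := abs_le_of_sq_le_sq (by nlinarith) (by positivity)
      have k2 : |(f 2 : ℝ)| ≤ T ^ 2 / l := by
        refine abs_le_of_sq_le_sq ?_ (by positivity)
        rw [div_pow, le_div_iff₀ l2]
        nlinarith [sq_nonneg (f 2 : ℝ)]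
      have k3 : |(f 3 : ℝ)| ≤ T ^ 4 / l ^ 3 := by
        refine abs_le_of_sq_le_sq ?_ (by positivity)
        rw [div_pow, le_div_iff₀ (by positivity)]
        have m1 : 3 * l ^ 2 * C ≤ M := by nlinarith
        have m2 : 3 * l ^ 2 * C * (f 3 : ℝ) ^ 2 ≤ 4 * C ^ 3 :=
          (mul_le_mul_of_nonneg_right m1 (sq_nonneg _)).trans b6
        have m3 : 3 * l ^ 2 * (f 3 : ℝ) ^ 2 ≤ 4 * C ^ 2 := by
          refine le_of_mul_le_mul_right ?_ C0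
          nlinarith
        have m4 : (3 * l ^ 2 * C) ^ 2 ≤ (T ^ 4) ^ 2 := by gcongr
        have m5 := mul_le_mul_of_nonneg_right m3 (show 0 ≤ l ^ 4 by positivity)
        have m6 : 0 ≤ l ^ 4 * C ^ 2 := by positivity
        nlinarith
      simp only [Finset.coe_product, Set.mem_prod, Finset.mem_coe]
      exact ⟨YCusp_mem r1 h3, YCusp_mem (abs_le.1 k1).1 (abs_le.1 k1).2,
        YCusp_mem (abs_le.1 k2).1 (abs_le.1 k2).2, YCusp_mem (abs_le.1 k3).1 (abs_le.1 k3).2⟩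
    · simp only [Prod.mk.injEq] at h
      funext i
      fin_cases i
      exacts [h.1, h.2.1, h.2.2.1, h.2.2.2]
  rw [Finset.card_product, Finset.card_product, Finset.card_product] at hc
  have hc' := (Nat.cast_le (α := ℝ)).2 hc
  push_cast at hc'
  have d0 := YCusp_card (x := 1) (y := a₁) (by linarith)
  have d1 := YCusp_card (x := -(2 * u)) (y := 2 * u) (by linarith)
  have d2 := YCusp_card (x := -(T ^ 2 / l)) (y := T ^ 2 / l) (by linarith)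
  have d3 := YCusp_card (x := -(T ^ 4 / l ^ 3)) (y := T ^ 4 / l ^ 3) (by linarith)
  refine hc'.trans ?_
  calc _ ≤ a₁ * (5 * u * (3 * (T ^ 2 / l) * (3 * (T ^ 4 / l ^ 3)))) := by
        gcongr <;> linarith
    _ = _ := by field_simp; ring

theorem YCusp_fib {u : ℝ} (u0 : 0 ≤ u) {a : ℤ} (s : Finset (Fin 4 → ℤ))
    (hs : ∀ f ∈ s, Red f ∧ f 0 = a ∧ ((hA f : ℤ) : ℝ) ≤ u ^ 2) :
    (s.card : ℝ) ≤ 45 * u ^ 5 * ((a : ℝ) ^ 2)⁻¹ := by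
  rcases s.eq_empty_or_nonempty with rfl | ⟨g, hg⟩
  · simp only [Finset.card_empty, Nat.cast_zero]; positivity
  obtain ⟨u1, a1, ua⟩ : 1 ≤ u ∧ (1 : ℝ) ≤ a ∧ 3 * (a : ℝ) ^ 2 ≤ 4 * u ^ 2 := by
    obtain ⟨A, B, C, M, eA, -, -, -, h0, h1, -, -, -, -, -, h2, -⟩ := YCusp_real (hs g hg).1
    have := (hs g hg).2.2
    rw [← eA] at this
    rw [(hs g hg).2.1] at h0 h2
    exact ⟨by nlinarith, h0, by linarith⟩
  have a0 : (0 : ℝ) < a := by linarith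
  have q : 1 ≤ 2 * (u ^ 2 / a) := by
    rw [← mul_div_assoc, le_div_iff₀ a0]; nlinarith
  have key : ∀ (x : ℝ) (n : ℤ), 0 ≤ x - a * n → x - a * n ≤ u ^ 2 →
      n - ⌈(x - u ^ 2) / a⌉ ∈ Finset.Icc ⌈(0 : ℝ)⌉ ⌊u ^ 2 / a⌋ := by
    intro x n h1 h2
    refine YCusp_mem ?_ ?_
    · have : ⌈(x - u ^ 2) / a⌉ ≤ n := Int.ceil_le.2 (by rw [div_le_iff₀ a0]; linarith)
      exact_mod_cast sub_nonneg.2 this
    · have h3 := Int.le_ceil ((x - u ^ 2) / a)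
      have h4 : (n : ℝ) ≤ x / a := by rw [le_div_iff₀ a0]; linarith
      rw [sub_div] at h3
      push_cast
      rw [sub_div]
      linarith
  have hc : s.card ≤ (Finset.Icc ⌈-(2 * u)⌉ ⌊2 * u⌋ ×ˢ Finset.Icc ⌈(0 : ℝ)⌉ ⌊u ^ 2 / a⌋ ×ˢ
      Finset.Icc ⌈(0 : ℝ)⌉ ⌊u ^ 2 / a⌋).card := by
    refine Finset.card_le_card_of_injOn (fun f => (f 1, f 2 - ⌈((f 1 : ℝ) ^ 2 - u ^ 2) / a⌉,
      f 3 - ⌈((f 1 : ℝ) * f 2 - u ^ 2) / a⌉)) (fun f hf => ?_) fun f hf g hg h => ?_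
    · obtain ⟨h1, h2, h5⟩ := hs f hf
      obtain ⟨A, B, C, M, eA, -, eA', eB, -, r2, r3, r4, -, -, -, -, b4, -⟩ := YCusp_real h1
      rw [← eA] at h5
      rw [h2] at eA' eB
      have k1 : |(f 1 : ℝ)| ≤ 2 * u := abs_le_of_sq_le_sq (by nlinarith) (by positivity)
      simp only [Finset.coe_product, Set.mem_prod, Finset.mem_coe]
      exact ⟨YCusp_mem (abs_le.1 k1).1 (abs_le.1 k1).2, key _ _ (by linarith) (by linarith),
        key _ _ (by linarith) (by linarith)⟩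
    · simp only [Prod.mk.injEq] at h
      obtain ⟨h1, h2, h3⟩ := h
      rw [h1] at h2 h3
      have h2' : f 2 = g 2 := sub_left_injective h2
      rw [h2'] at h3
      have h3' : f 3 = g 3 := sub_left_injective h3
      funext i
      fin_cases i
      exacts [(hs f hf).2.1.trans (hs g hg).2.1.symm, h1, h2', h3']
  rw [Finset.card_product, Finset.card_product] at hc
  have hc' := (Nat.cast_le (α := ℝ)).2 hc
  push_cast at hc'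
  have d1 := YCusp_card (x := -(2 * u)) (y := 2 * u) (by linarith)
  have d2 := YCusp_card (x := 0) (y := u ^ 2 / a) (by linarith)
  refine hc'.trans ?_
  calc _ ≤ 5 * u * (3 * (u ^ 2 / a) * (3 * (u ^ 2 / a))) := by
        gcongr <;> linarith
    _ = _ := by field_simp; ring

theorem YCusp_tail {u a₁ : ℝ} (u0 : 0 ≤ u) (a0 : 0 < a₁) (s : Finset (Fin 4 → ℤ))
    (hs : ∀ f ∈ s, Red f ∧ a₁ < (f 0 : ℝ) ∧ ((hA f : ℤ) : ℝ) ≤ u ^ 2) :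
    (s.card : ℝ) ≤ 90 * u ^ 5 / a₁ := by
  have hm : Set.MapsTo (fun f : Fin 4 → ℤ => (f 0).toNat) s
      (Finset.Ioo ⌊a₁⌋₊ (s.sup (fun f => (f 0).toNat) + 1)) := by
    intro f hf
    refine Finset.mem_coe.2 (Finset.mem_Ioo.2 ⟨?_, Nat.lt_succ_of_le ?_⟩)
    · have e : (((f 0).toNat : ℕ) : ℝ) = (f 0 : ℝ) := by
        have : 0 ≤ f 0 := le_trans zero_le_one (hs f hf).1.1
        exact_mod_cast Int.toNat_of_nonneg this
      rw [Nat.floor_lt a0.le]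
      simpa only [e] using (hs f hf).2.1
    · exact Finset.le_sup (f := fun f : Fin 4 → ℤ => (f 0).toNat) hf
  rw [Finset.card_eq_sum_card_fiberwise hm]
  push_cast
  calc _ ≤ ∑ i ∈ Finset.Ioo ⌊a₁⌋₊ (s.sup (fun f => (f 0).toNat) + 1),
        45 * u ^ 5 * ((i : ℝ) ^ 2)⁻¹ := by
        refine Finset.sum_le_sum fun i _ => ?_
        have := YCusp_fib u0 (a := (i : ℤ)) (s.filter fun f => (f 0).toNat = i) fun f hf => by
          obtain ⟨h1, h2⟩ := Finset.mem_filter.1 hf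
          refine ⟨(hs f h1).1, ?_, (hs f h1).2.2⟩
          rw [← h2, Int.toNat_of_nonneg (le_trans zero_le_one (hs f h1).1.1)]
        simpa using this
    _ ≤ 45 * u ^ 5 * (2 / ((⌊a₁⌋₊ : ℝ) + 1)) := by
        rw [← Finset.mul_sum]
        gcongr
        exact sum_Ioo_inv_sq_le _ _
    _ ≤ 45 * u ^ 5 * (2 / a₁) := by
        gcongr
        exact (Nat.lt_floor_add_one a₁).le
    _ = _ := by ring

theorem YCusp_split (s : Finset (Fin 4 → ℤ)) (p : (Fin 4 → ℤ) → Prop) [DecidablePred p] :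
    (s.card : ℝ) = (s.filter p).card + (s.filter fun f => ¬ p f).card := by
  exact_mod_cast (Finset.card_filter_add_card_filter_not p).symm

theorem YCusp_shell {T u : ℝ} (hT : 1 ≤ T) (u0 : 0 < u) (uT : u ≤ T) (s : Finset (Fin 4 → ℤ))
    (hs : ∀ f ∈ s, Red f ∧ ((hM f : ℤ) : ℝ) ≤ T ^ 4 ∧ (u / 2) ^ 2 ≤ ((hA f : ℤ) : ℝ) ∧
      ((hA f : ℤ) : ℝ) ≤ u ^ 2) : (s.card : ℝ) ≤ 810 * u * T ^ 3 := by
  classical
  have T0 : 0 < T := by linarith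
  rw [YCusp_split s fun f => (f 0 : ℝ) ≤ u ^ 4 / T ^ 3]
  have h1 := YCusp_box hT (l := u / 2) (u := u) (a₁ := u ^ 4 / T ^ 3) (by positivity) (by linarith)
    u0.le (by positivity) (s.filter fun f => (f 0 : ℝ) ≤ u ^ 4 / T ^ 3) fun f hf => by
      obtain ⟨h1, h2⟩ := Finset.mem_filter.1 hf
      exact ⟨(hs f h1).1, (hs f h1).2.1, h2, (hs f h1).2.2⟩
  have h2 := YCusp_tail u0.le (a₁ := u ^ 4 / T ^ 3) (by positivity)
    (s.filter fun f => ¬ (f 0 : ℝ) ≤ u ^ 4 / T ^ 3) fun f hf => by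
      obtain ⟨h1, h2⟩ := Finset.mem_filter.1 hf
      exact ⟨(hs f h1).1, not_le.1 h2, (hs f h1).2.2.2⟩
  have e1 : 45 * (u ^ 4 / T ^ 3) * u * T ^ 6 / (u / 2) ^ 4 = 720 * u * T ^ 3 := by
    field_simp; ring
  have e2 : 90 * u ^ 5 / (u ^ 4 / T ^ 3) = 90 * u * T ^ 3 := by field_simp
  linarith

theorem YCusp_low {T : ℝ} (hT : 1 ≤ T) (n : ℕ) : ∀ u : ℝ, 0 < u → u ≤ T → u < 2 ^ n →
    ∀ s : Finset (Fin 4 → ℤ), (∀ f ∈ s, Red f ∧ ((hM f : ℤ) : ℝ) ≤ T ^ 4 ∧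
      ((hA f : ℤ) : ℝ) ≤ u ^ 2) → (s.card : ℝ) ≤ 1620 * u * T ^ 3 := by
  classical
  have T0 : 0 < T := by linarith
  induction n with
  | zero =>
    intro u u0 _ u1 s hs
    rcases s.eq_empty_or_nonempty with rfl | ⟨g, hg⟩
    · simp only [Finset.card_empty, Nat.cast_zero]; positivity
    exfalso
    obtain ⟨A, B, C, M, eA, -, -, -, -, h1, -⟩ := YCusp_real (hs g hg).1
    have := (hs g hg).2.2
    rw [← eA] at this
    rw [pow_zero] at u1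
    nlinarith
  | succ n ih =>
    intro u u0 uT u1 s hs
    rw [YCusp_split s fun f => ((hA f : ℤ) : ℝ) ≤ (u / 2) ^ 2]
    have h1 := ih (u / 2) (by positivity) (by linarith) (by rw [pow_succ] at u1; linarith)
      (s.filter fun f => ((hA f : ℤ) : ℝ) ≤ (u / 2) ^ 2) fun f hf => by
        obtain ⟨h1, h2⟩ := Finset.mem_filter.1 hf
        exact ⟨(hs f h1).1, (hs f h1).2.1, h2⟩
    have h2 := YCusp_shell hT u0 uT (s.filter fun f => ¬ ((hA f : ℤ) : ℝ) ≤ (u / 2) ^ 2)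
      fun f hf => by
        obtain ⟨h1, h2⟩ := Finset.mem_filter.1 hf
        exact ⟨(hs f h1).1, (hs f h1).2.1, (not_le.1 h2).le, (hs f h1).2.2⟩
    linarith

theorem cusp {ε : ℝ} (hε : 0 < ε) : ∃ η : ℝ, 0 < η ∧ ∀ᶠ T : ℝ in atTop,
    ∀ s : Finset (Fin 4 → ℤ), (∀ f ∈ s, Red f ∧ ((hM f : ℤ) : ℝ) ≤ T ^ 4 ∧ (f 0 : ℝ) ≤ η * T) →
      (s.card : ℝ) ≤ ε * T ^ 4 := by
  classical
  obtain ⟨δ, δ0, δ1, δ2⟩ : ∃ δ : ℝ, 0 < δ ∧ δ ≤ 1 ∧ 3240 * δ ≤ ε :=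
    ⟨min 1 (ε / 3240), by positivity, min_le_left _ _, by
      have := min_le_right 1 (ε / 3240)
      linarith⟩
  refine ⟨ε * δ ^ 4 / 90, by positivity, ?_⟩
  filter_upwards [eventually_ge_atTop (1 : ℝ)] with T hT s hs
  have T0 : 0 < T := by linarith
  have dT : δ * T ≤ T := by nlinarith
  obtain ⟨n, hn⟩ := pow_unbounded_of_one_lt (δ * T) (show (1 : ℝ) < 2 by norm_num)
  rw [YCusp_split s fun f => ((hA f : ℤ) : ℝ) ≤ (δ * T) ^ 2]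
  have h1 := YCusp_low hT n (δ * T) (by positivity) dT hn
    (s.filter fun f => ((hA f : ℤ) : ℝ) ≤ (δ * T) ^ 2) fun f hf => by
      obtain ⟨h1, h2⟩ := Finset.mem_filter.1 hf
      exact ⟨(hs f h1).1, (hs f h1).2.1, h2⟩
  have h2 := YCusp_box hT (l := δ * T) (u := T) (a₁ := ε * δ ^ 4 / 90 * T) (by positivity) dT
    T0.le (by positivity) (s.filter fun f => ¬ ((hA f : ℤ) : ℝ) ≤ (δ * T) ^ 2) fun f hf => by
      obtain ⟨h1, h2⟩ := Finset.mem_filter.1 hf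
      refine ⟨(hs f h1).1, (hs f h1).2.1, (hs f h1).2.2, (not_le.1 h2).le, ?_⟩
      obtain ⟨A, B, C, M, eA, eM, -, -, -, r1, -, -, -, b1, -⟩ := YCusp_real (hs f h1).1
      have := (hs f h1).2.1
      rw [← eM] at this
      rw [← eA]
      exact (abs_le.1 (abs_le_of_sq_le_sq (by nlinarith) (by positivity))).2
  have e1 : 45 * (ε * δ ^ 4 / 90 * T) * T * T ^ 6 / (δ * T) ^ 4 = ε / 2 * T ^ 4 := by
    field_simp; ring
  have e2 : 1620 * (δ * T) * T ^ 3 ≤ ε / 2 * T ^ 4 := by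
    have : 0 < T ^ 4 := by positivity
    nlinarith
  linarith

end Pool.Agent.Work.MP_dd0d16_nt.LC
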