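import Mathlib

/-!
Upper bound for lattice points of one congruence class in a dilated compact set.

PLAN. `tendsto_measure_cthickening_of_isCompact` gives `δ > 0` with `volume (cthickening δ R) < ofReal V`.
For `T ≥ q / δ` the half-open boxes `Set.pi univ fun i => Ico (f i / T) ((f i + q) / T)`, `f ∈ s`, are pairwise
disjoint (the `f i` are congruent mod `q`), have volume `(q / T) ^ 4` (`Real.volume_pi_Ico`) and lie in the
thickening (sup norm); `measure_biUnion_finset`.
-/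

set_option autoImplicit false

namespace Pool.Agent.Work.MP_dd0d16_nt.LC

open MeasureTheory Filter

theorem YLatt_eq {q : ℕ} {a b r : ℤ} {T x : ℝ} (hT : 0 < T) (ha : a ≡ r [ZMOD q])
    (hb : b ≡ r [ZMOD q]) (h1 : x ∈ Set.Ico ((a : ℝ) / T) (((a : ℝ) + q) / T))
    (h2 : x ∈ Set.Ico ((b : ℝ) / T) (((b : ℝ) + q) / T)) : a = b := by
  have k1 : (a : ℝ) < b + q := (div_lt_div_iff_of_pos_right hT).1 (h1.1.trans_lt h2.2)
  have k2 : (b : ℝ) < a + q := (div_lt_div_iff_of_pos_right hT).1 (h2.1.trans_lt h1.2)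
  have k3 : a < b + q := by exact_mod_cast k1
  have k4 : b < a + q := by exact_mod_cast k2
  have hd : (q : ℤ) ∣ b - a := (ha.trans hb.symm).dvd
  have := Int.eq_zero_of_abs_lt_dvd hd (abs_lt.2 ⟨by omega, by omega⟩)
  omega

theorem latt_le {R : Set (Fin 4 → ℝ)} (hR : IsCompact R) {q : ℕ} (hq : 0 < q) {V : ℝ}
    (hV : volume R < ENNReal.ofReal V) :
    ∀ᶠ T : ℝ in atTop, ∀ (r : Fin 4 → ℤ) (s : Finset (Fin 4 → ℤ)),
      (∀ f ∈ s, (∀ i, f i ≡ r i [ZMOD q]) ∧ (fun i => (f i : ℝ) / T) ∈ R) →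
        (s.card : ℝ) ≤ V * T ^ 4 / (q : ℝ) ^ 4 := by
  have hV0 : 0 < V := ENNReal.ofReal_pos.1 (lt_of_le_of_lt zero_le hV)
  have h0 := (tendsto_measure_cthickening_of_isCompact (μ := volume) hR).eventually
    (gt_mem_nhds hV)
  obtain ⟨δ, h1, hδ⟩ := ((h0.filter_mono (nhdsWithin_le_nhds (s := Set.Ioi 0))).and
    self_mem_nhdsWithin).exists
  have hδ' : (0 : ℝ) < δ := hδ
  have hq' : (0 : ℝ) < q := by exact_mod_cast hq
  filter_upwards [eventually_ge_atTop ((q : ℝ) / δ), eventually_gt_atTop 0] with T hT hT0 r s hs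
  have hqT : (q : ℝ) / T ≤ δ := by
    rw [div_le_iff₀ hT0]
    rw [div_le_iff₀ hδ'] at hT
    linarith
  set B : (Fin 4 → ℤ) → Set (Fin 4 → ℝ) := fun f =>
    Set.pi Set.univ fun i => Set.Ico ((f i : ℝ) / T) (((f i : ℝ) + q) / T) with hB
  have hd : Set.PairwiseDisjoint (↑s : Set (Fin 4 → ℤ)) B := by
    intro f hf g hg hne
    refine Set.disjoint_left.2 fun x hx hy => hne (funext fun i => ?_)
    exact YLatt_eq hT0 ((hs f hf).1 i) ((hs g hg).1 i) (hx i trivial) (hy i trivial)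
  have hm : ∀ f ∈ s, MeasurableSet (B f) := fun f _ =>
    MeasurableSet.univ_pi fun i => measurableSet_Ico
  have hv : ∀ f, volume (B f) = ENNReal.ofReal (((q : ℝ) / T) ^ 4) := by
    intro f
    have e : ∀ i, ((f i : ℝ) + q) / T - (f i : ℝ) / T = q / T := fun i => by ring
    simp only [hB, Real.volume_pi_Ico, e, Finset.prod_const, Finset.card_univ, Fintype.card_fin]
    rw [ENNReal.ofReal_pow (by positivity)]
  have hsub : (⋃ f ∈ s, B f) ⊆ Metric.cthickening δ R := by
    refine Set.iUnion₂_subset fun f hf x hx => ?_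
    refine Metric.mem_cthickening_of_dist_le x _ δ R (hs f hf).2 ?_
    refine (dist_pi_le_iff hδ'.le).2 fun i => ?_
    obtain ⟨a1, a2⟩ := hx i trivial
    rw [add_div] at a2
    rw [Real.dist_eq, abs_le]
    constructor <;> linarith
  have h2 := (measure_mono (μ := volume) hsub).trans h1.le
  rw [measure_biUnion_finset hd hm] at h2
  simp only [hv, Finset.sum_const, nsmul_eq_mul] at h2
  rw [← ENNReal.ofReal_natCast, ← ENNReal.ofReal_mul (Nat.cast_nonneg _),
    ENNReal.ofReal_le_ofReal_iff hV0.le, div_pow, ← mul_div_assoc,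
    div_le_iff₀ (by positivity)] at h2
  rwa [le_div_iff₀ (by positivity)]

end Pool.Agent.Work.MP_dd0d16_nt.LC
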