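import Pool.Agent.Work.MP_dd0d16_nt.L.Vol
import Pool.Agent.Work.MP_dd0d16_nt.L.Latt
import Pool.Agent.Work.MP_dd0d16_nt.L.Cusp

/-!
Counting reduced forms (the upper bound half of Davenport's theorem).

PLAN. `T = Y ^ (1/4)`. Split the finite set (`red_finite`) by `f 0 ≤ η T` (`cusp`) and `η T < f 0`, where
`f / T ∈ Reg η` (homogeneity, `Red.bounds`). `count_all`: `latt_le` with `q = 1`. `count_seven`: `q = 6`; if
`hM f % 24 = 7` then `a e + b c` is odd, `a c + b e + b c` is even (because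
`-M = (a e - 3 b c)^2 + 4 (a c^3 + b^3 e - 3 b^2 c^2)`) and `a^2 e^2 + a c + b e ≡ 2 mod 3`; exactly 72 of the 1296
residue classes mod 6 satisfy this (`decide`), and `72 / 1296 * (1 / 2) = 1 / 36 < 3 / 100`.
-/

set_option autoImplicit false

namespace Pool.Agent.Work.MP_dd0d16_nt.LC

open Filter

theorem YCount_reg {f : Fin 4 → ℤ} (h : Red f) {T η : ℝ} (hT : 0 < T)
    (hY : ((hM f : ℤ) : ℝ) ≤ T ^ 4) (h0 : η * T ≤ f 0) : (fun i => (f i : ℝ) / T) ∈ Reg η := by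
  have a : hA (fun i => (f i : ℝ) / T) = (hA f : ℤ) / T ^ 2 := by simp only [hA]; push_cast; ring
  have b : hB (fun i => (f i : ℝ) / T) = (hB f : ℤ) / T ^ 2 := by simp only [hB]; push_cast; ring
  have c : hC (fun i => (f i : ℝ) / T) = (hC f : ℤ) / T ^ 2 := by simp only [hC]; push_cast; ring
  have m : hM (fun i => (f i : ℝ) / T) = (hM f : ℤ) / T ^ 4 := by
    simp only [hM, a, b, c]; push_cast; ring
  have k : (3 * (f 0 : ℝ) ^ 2) / T ^ 2 ≤ (4 * (hA f : ℤ)) / T ^ 2 := by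
    gcongr ?_ / _
    exact_mod_cast h.bounds.2.2.1
  obtain ⟨-, -, h1, h2, h3⟩ := h
  refine ⟨(le_div_iff₀ hT).2 h0, ?_, ?_, ?_, ?_, ?_⟩
  · rwa [a, div_pow, ← mul_div_assoc, ← mul_div_assoc]
  · rw [b]; positivity
  · rw [a, b]; gcongr
  · rw [a, c]; gcongr
  · rwa [m, div_le_one (by positivity)]

theorem YCount_gen (q : ℕ) [NeZero q] (S : Finset (Fin 4 → ZMod q)) {ε : ℝ} (hε : 0 < ε) :
    ∀ᶠ Y : ℝ in atTop, ∀ s : Set (Fin 4 → ℤ),
      (∀ f ∈ s, Red f ∧ ((hM f : ℤ) : ℝ) ≤ Y ∧ (fun i => (f i : ZMod q)) ∈ S) →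
        (s.ncard : ℝ) ≤ (ε + S.card / (2 * q ^ 4)) * Y := by
  classical
  obtain ⟨η, hη, hc⟩ := cusp hε
  have t := tendsto_rpow_atTop (y := ((4 : ℕ) : ℝ)⁻¹) (by norm_num)
  filter_upwards [t.eventually hc, t.eventually (latt_le (isCompact_Reg hη) (NeZero.pos q)
    (vol_Reg hη)), eventually_gt_atTop 0] with Y h1 h2 h3 s hs
  have hT := Real.rpow_pos_of_pos h3 ((4 : ℕ) : ℝ)⁻¹
  have e := Real.rpow_inv_natCast_pow h3.le (n := 4) (by norm_num)
  generalize Y ^ ((4 : ℕ) : ℝ)⁻¹ = T at h1 h2 hT e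
  subst e
  lift s to Finset (Fin 4 → ℤ) using (red_finite (T ^ 4)).subset fun f k => ⟨(hs f k).1, (hs f k).2.1⟩
  rw [Set.ncard_coe_finset, ← s.card_filter_add_card_filter_not fun f => (f 0 : ℝ) ≤ η * T,
    Nat.cast_add, add_mul]
  refine add_le_add (h1 _ fun f k => ?_) ?_
  · rw [Finset.mem_filter] at k
    exact ⟨(hs f k.1).1, (hs f k.1).2.1, k.2⟩
  rw [Finset.card_eq_sum_card_fiberwise (t := S) (f := fun f i => (f i : ZMod q))
    fun f k => (hs f (Finset.mem_filter.1 k).1).2.2, Nat.cast_sum]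
  refine (Finset.sum_le_card_nsmul _ _ _ fun r _ => h2 (fun i => (r i).val) _ fun f k => ?_).trans_eq
    (by rw [nsmul_eq_mul]; ring)
  simp only [Finset.mem_filter] at k
  obtain ⟨⟨k1, k2⟩, rfl⟩ := k
  exact ⟨fun i => by rw [ZMod.val_intCast]; exact (Int.mod_modEq _ _).symm,
    YCount_reg (hs f k1).1 hT (hs f k1).2.1 (not_le.1 k2).le⟩

theorem count_all : ∀ᶠ Y : ℝ in atTop,
    ({f : Fin 4 → ℤ | Red f ∧ ((hM f : ℤ) : ℝ) ≤ Y}.ncard : ℝ) ≤ Y := by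
  filter_upwards [YCount_gen 1 Finset.univ one_half_pos] with Y h
  refine (h _ fun f k => ⟨k.1, k.2, Finset.mem_univ _⟩).trans_eq ?_
  norm_num

theorem count_seven : ∀ᶠ Y : ℝ in atTop,
    ({f : Fin 4 → ℤ | Red f ∧ ((hM f : ℤ) : ℝ) ≤ Y ∧ hM f % 24 = 7}.ncard : ℝ) ≤ 3 / 100 * Y := by
  have e : (Finset.univ.filter fun r : Fin 4 → ZMod 6 =>
      3 * hB r = 3 ∧ 3 * (hA r * hC r) = 0 ∧ 2 * hM r = 2).card = 72 := by decide +kernel
  filter_upwards [YCount_gen 6 _ (ε := 1 / 450) (by norm_num)] with Y h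
  refine (h _ fun f k => ⟨k.1, k.2.1, ?_⟩).trans_eq (by rw [e]; norm_num)
  have h1 := k.2.2
  have h2 : hM f = 4 * (hA f * hC f) - hB f * hB f := by rw [hM]; ring
  obtain ⟨n, hn⟩ : Odd (hB f) := by
    by_contra l
    obtain ⟨n, hn⟩ := Int.not_odd_iff_even.1 l
    rw [hn, show (n + n) * (n + n) = 4 * (n * n) by ring] at h2
    omega
  obtain ⟨j, hj⟩ := Int.even_mul_succ_self n
  rw [hn, show (2 * n + 1) * (2 * n + 1) = 4 * (n * (n + 1)) + 1 by ring, hj] at h2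
  have c : ∀ x y : ℤ, x % 6 = y % 6 → (x : ZMod 6) = y := fun x y l =>
    (ZMod.intCast_eq_intCast_iff x y 6).2 l
  exact Finset.mem_filter.2 ⟨Finset.mem_univ _, by simpa [hB] using c (3 * hB f) 3 (by omega),
    by simpa [hA, hC] using c (3 * (hA f * hC f)) 0 (by omega),
    by simpa [hA, hB, hC, hM] using c (2 * hM f) 2 (by omega)⟩

end Pool.Agent.Work.MP_dd0d16_nt.LC
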