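import Pool.Agent.Work.MP_dd0d16_nt.L.Form

/-!
Galois theory inside the algebraic closure `Qb` of the rationals; Kummer data.

PLAN. `mem_adjoin_iff`: `InfiniteGalois.fixedField_fixingSubgroup`, `IntermediateField.mem_fixingSubgroup_iff`,
`IntermediateField.adjoin_induction`. `rat_of_fixed`: `InfiniteGalois.mem_bot_iff_fixed`. `quad_repr`: the elements
`p + q b` form a subfield (if `p^2 - q^2 b^2 = 0` and `p + q b ≠ 0` then `p + q b = 2 p`). `exists_signs`: if every `g`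
fixing `s` fixes `r` then `r = p + q s`, so `-3 = p^2 - m q^2 + 2 p q s`; `s` is irrational (`s^2 < 0`), so `p q = 0`, and
`-3 = p^2` or `3 = m q^2` is impossible (`padicValRat 3`); the same with the roles exchanged. `exists_KD`: take `θ` with
`θ^3 = u + v s` (`IsAlgClosed.exists_pow_nat_eq`). Since `θ ∉ ℚ⟮s, r⟯` some `g` fixes `s, r` and moves `θ`, so
`g θ = ω θ` or `ω^2 θ` (then take `g * g`). For `τ`: `g2 θ` is a cube root of `u - v s = (n / θ)^3`, so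
`g2 θ = ω^k n / θ`; compose with a power of `σ`. The same for `ρ` with `g1 * g2`.
-/

set_option autoImplicit false

namespace Pool.Agent.Work.MP_dd0d16_nt.LC

open IntermediateField

abbrev Gal : Type := Qb ≃ₐ[ℚ] Qb

theorem mem_adjoin_iff {S : Set Qb} {x : Qb} :
    x ∈ adjoin ℚ S ↔ ∀ g : Gal, (∀ y ∈ S, g y = y) → g x = x := by
  constructor
  · intro hx g hg
    induction hx using adjoin_induction with
    | mem y hy => exact hg y hy
    | algebraMap q => exact g.commutes q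
    | add y z _ _ hy hz => rw [map_add, hy, hz]
    | inv y _ hy => rw [map_inv₀, hy]
    | mul y z _ _ hy hz => rw [map_mul, hy, hz]
  · intro h
    have : IsAlgClosure ℚ Qb := AlgebraicClosure.instIsAlgClosure ℚ
    have : IsGalois ℚ Qb := IsAlgClosure.isGalois ℚ Qb
    rw [← InfiniteGalois.fixedField_fixingSubgroup (adjoin ℚ S), mem_fixedField_iff]
    intro g hg
    rw [IntermediateField.mem_fixingSubgroup_iff] at hg
    exact h g fun y hy => hg y (subset_adjoin ℚ S hy)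

theorem rat_of_fixed {x : Qb} (h : ∀ g : Gal, g x = x) : ∃ q : ℚ, x = q := by
  have h1 : x ∈ adjoin ℚ (∅ : Set Qb) := mem_adjoin_iff.2 fun g _ => h g
  rw [adjoin_empty, mem_bot] at h1
  obtain ⟨q, hq⟩ := h1
  exact ⟨q, by rw [← hq, eq_ratCast]⟩

theorem quad_repr {a b z : Qb} (hb : b ^ 2 ∈ ℚ⟮a⟯) (hz : z ∈ ℚ⟮a, b⟯) :
    ∃ p ∈ ℚ⟮a⟯, ∃ q ∈ ℚ⟮a⟯, z = p + q * b := by
  induction hz using adjoin_induction with
  | mem y hy =>
    rcases hy with rfl | rfl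
    · exact ⟨y, mem_adjoin_simple_self ℚ y, 0, zero_mem _, by ring⟩
    · exact ⟨0, zero_mem _, 1, one_mem _, by ring⟩
  | algebraMap q => exact ⟨_, IntermediateField.algebraMap_mem _ q, 0, zero_mem _, by ring⟩
  | add y z _ _ hy hz =>
    obtain ⟨p, hp, q, hq, rfl⟩ := hy
    obtain ⟨p', hp', q', hq', rfl⟩ := hz
    exact ⟨p + p', add_mem hp hp', q + q', add_mem hq hq', by ring⟩
  | inv y _ hy =>
    obtain ⟨p, hp, q, hq, rfl⟩ := hy
    by_cases h0 : p + q * b = 0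
    · exact ⟨0, zero_mem _, 0, zero_mem _, by rw [h0]; simp⟩
    by_cases h1 : p - q * b = 0
    · refine ⟨(p + p)⁻¹, inv_mem (add_mem hp hp), 0, zero_mem _, ?_⟩
      rw [← sub_eq_zero.1 h1]; ring
    have hN : p ^ 2 - q ^ 2 * b ^ 2 ∈ ℚ⟮a⟯ := sub_mem (pow_mem hp 2) (mul_mem (pow_mem hq 2) hb)
    refine ⟨p / (p ^ 2 - q ^ 2 * b ^ 2), div_mem hp hN, -q / (p ^ 2 - q ^ 2 * b ^ 2),
      div_mem (neg_mem hq) hN, ?_⟩
    have e : p ^ 2 - q ^ 2 * b ^ 2 = (p + q * b) * (p - q * b) := by ring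
    rw [e]
    field_simp
    ring
  | mul y z _ _ hy hz =>
    obtain ⟨p, hp, q, hq, rfl⟩ := hy
    obtain ⟨p', hp', q', hq', rfl⟩ := hz
    exact ⟨p * p' + q * q' * b ^ 2, add_mem (mul_mem hp hp') (mul_mem (mul_mem hq hq') hb),
      p * q' + q * p', add_mem (mul_mem hp hq') (mul_mem hq hp'), by ring⟩

theorem mem_quad {s z : Qb} {D : ℚ} (hs : s ^ 2 = D) (hz : z ∈ ℚ⟮s⟯) :
    ∃ p q : ℚ, z = p + q * s := by
  have h0 : ∀ x ∈ ℚ⟮(0 : Qb)⟯, ∃ q : ℚ, x = q := fun x hx =>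
    rat_of_fixed fun g => mem_adjoin_iff.1 hx g fun y hy => by
      rw [Set.mem_singleton_iff.1 hy, map_zero]
  have hb : s ^ 2 ∈ ℚ⟮(0 : Qb)⟯ := by
    rw [hs]
    exact mem_adjoin_iff.2 fun g _ => map_ratCast g D
  have hz' : z ∈ ℚ⟮(0 : Qb), s⟯ := adjoin.mono ℚ _ _ (Set.subset_insert _ _) hz
  obtain ⟨p, hp, q, hq, e⟩ := quad_repr hb hz'
  obtain ⟨p', rfl⟩ := h0 p hp
  obtain ⟨q', rfl⟩ := h0 q hq
  exact ⟨p', q', e⟩

theorem cube_one {r x : Qb} (hr : r ^ 2 = -3) (h : x ^ 3 = 1) :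
    x = 1 ∨ x = (-1 + r) / 2 ∨ x = ((-1 + r) / 2) ^ 2 := by
  have e : (x - 1) * ((x - (-1 + r) / 2) * (x - ((-1 + r) / 2) ^ 2)) = 0 := by
    linear_combination h + ((x - 1) * ((r - 3) / 8 - x / 4)) * hr
  rcases mul_eq_zero.1 e with e | e
  · exact Or.inl (sub_eq_zero.1 e)
  · rcases mul_eq_zero.1 e with e | e
    · exact Or.inr (Or.inl (sub_eq_zero.1 e))
    · exact Or.inr (Or.inr (sub_eq_zero.1 e))

theorem YGal_sign {s r : Qb} {A B : ℚ} (hs : s ^ 2 = A) (hr : r ^ 2 = B) (hA : ∀ x : ℚ, x ^ 2 ≠ A)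
    (hB : ∀ x : ℚ, x ^ 2 ≠ B) (hC : ∀ x : ℚ, x ^ 2 * A ≠ B) : ∃ g : Gal, g s = s ∧ g r = -r := by
  by_contra hn
  have h1 : r ∈ ℚ⟮s⟯ := mem_adjoin_iff.2 fun g hg => by
    have e : g r ^ 2 = r ^ 2 := by rw [← map_pow, hr, map_ratCast]
    rcases sq_eq_sq_iff_eq_or_eq_neg.1 e with e | e
    · exact e
    · exact absurd ⟨g, hg s rfl, e⟩ hn
  obtain ⟨p, q, e⟩ := mem_quad hs h1
  by_cases hq : q = 0
  · refine hB p ?_
    rw [e, hq] at hr
    simp only [Rat.cast_zero, zero_mul, add_zero] at hr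
    exact_mod_cast hr
  by_cases hp : p = 0
  · refine hC q ?_
    rw [e, hp, Rat.cast_zero, zero_add, mul_pow, hs] at hr
    exact_mod_cast hr
  refine hA ((B - p ^ 2 - q ^ 2 * A) / (2 * p * q)) ?_
  have hp' : (p : Qb) ≠ 0 := by exact_mod_cast hp
  have hq' : (q : Qb) ≠ 0 := by exact_mod_cast hq
  have e2 : s = (((B - p ^ 2 - q ^ 2 * A) / (2 * p * q) : ℚ) : Qb) := by
    push_cast
    rw [eq_div_iff (mul_ne_zero (mul_ne_zero two_ne_zero hp') hq'), ← hr, ← hs, e]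
    ring
  rw [e2] at hs
  exact_mod_cast hs

theorem YGal_nsq {m : ℕ} (hm : m % 3 = 1) (x : ℚ) : x ^ 2 ≠ 3 * m := by
  intro h
  have h1 : IsSquare ((3 * m : ℕ) : ℚ) := ⟨x, by push_cast; rw [← h, sq]⟩
  obtain ⟨k, hk⟩ := Rat.isSquare_natCast_iff.1 h1
  obtain ⟨j, rfl⟩ : 3 ∣ k := by
    have : 3 ∣ k * k := ⟨m, hk.symm⟩
    exact (Nat.prime_three.dvd_mul.1 this).elim id id
  have : m = 3 * (j * j) := by nlinarith
  omega

theorem exists_signs {m : ℕ} (hm : m % 3 = 1) {s r : Qb} (hs : s ^ 2 = -(m : Qb))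
    (hr : r ^ 2 = -3) :
    (∃ g : Gal, g s = s ∧ g r = -r) ∧ ∃ g : Gal, g s = -s ∧ g r = r := by
  have hm1 : (1 : ℚ) ≤ m := by exact_mod_cast (by omega : 1 ≤ m)
  have hs' : s ^ 2 = ((-(m : ℚ) : ℚ) : Qb) := by rw [hs]; push_cast; rfl
  have hr' : r ^ 2 = ((-3 : ℚ) : Qb) := by rw [hr]; push_cast; rfl
  have a1 : ∀ x : ℚ, x ^ 2 ≠ -(m : ℚ) := fun x h => by nlinarith [sq_nonneg x]
  have a2 : ∀ x : ℚ, x ^ 2 ≠ -3 := fun x h => by nlinarith [sq_nonneg x]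
  refine ⟨YGal_sign hs' hr' a1 a2 fun x h => YGal_nsq hm (x * m) ?_, ?_⟩
  · linear_combination (-(m : ℚ)) * h
  · obtain ⟨g, h1, h2⟩ := YGal_sign hr' hs' a2 a1 fun x h =>
      YGal_nsq hm (3 * x) (by linear_combination (-3) * h)
    exact ⟨g, h2, h1⟩

/-- A cube root `θ` of an element `u + v s` of a quadratic field whose norm is the cube `n ^ 3`,
with three automorphisms that generate the Galois group of `ℚ⟮s, r, θ⟯`. -/
structure KD where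
  s : Qb
  r : Qb
  θ : Qb
  D : ℚ
  u : ℚ
  v : ℚ
  n : ℚ
  σ : Gal
  τ : Gal
  ρ : Gal
  hs : s ^ 2 = D
  s0 : s ≠ 0
  hr : r ^ 2 = -3
  hθ : θ ^ 3 = u + v * s
  hn : u ^ 2 - D * v ^ 2 = n ^ 3
  n0 : n ≠ 0
  σs : σ s = s
  σr : σ r = r
  σθ : σ θ = (-1 + r) / 2 * θ
  τs : τ s = -s
  τr : τ r = r
  τθ : τ θ = n / θ
  ρs : ρ s = -s
  ρr : ρ r = -r
  ρθ : ρ θ = n / θ

theorem YGal_fix {s r θ : Qb} {D u v n : ℚ} (hs : s ^ 2 = D) (hr : r ^ 2 = -3)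
    (hθ : θ ^ 3 = u + v * s) (hn : u ^ 2 - D * v ^ 2 = n ^ 3) (n0 : n ≠ 0) {σ g : Gal}
    (σs : σ s = s) (σr : σ r = r) (σθ : σ θ = (-1 + r) / 2 * θ) (gs : g s = -s)
    (gr : g r = r ∨ g r = -r) : ∃ g' : Gal, g' s = -s ∧ g' r = g r ∧ g' θ = n / θ := by
  have n0' : (n : Qb) ≠ 0 := by exact_mod_cast n0
  have hn' : (u : Qb) ^ 2 - D * v ^ 2 = n ^ 3 := by exact_mod_cast hn
  have e1 : g θ ^ 3 = u - v * s := by
    rw [← map_pow, hθ, map_add, map_mul, map_ratCast, map_ratCast, gs]; ring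
  have e2 : (g θ * θ) ^ 3 = n ^ 3 := by
    rw [mul_pow, e1, hθ]; linear_combination hn' - (v : Qb) ^ 2 * hs
  have θ0 : θ ≠ 0 := by
    rintro rfl
    rw [mul_zero, zero_pow three_ne_zero] at e2
    exact pow_ne_zero 3 n0' e2.symm
  have e3 : (g θ * θ / n) ^ 3 = 1 := by rw [div_pow, e2, div_self (pow_ne_zero 3 n0')]
  obtain ⟨ω, hω⟩ : ∃ ω : Qb, ω = (-1 + r) / 2 := ⟨_, rfl⟩
  have σω : σ ω = ω := by rw [hω, map_div₀, map_add, map_neg, map_one, σr, map_ofNat]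
  have ω0 : ω ≠ 0 := by
    intro h
    have : ω ^ 2 + ω + 1 = 0 := by rw [hω]; linear_combination (1 / 4) * hr
    rw [h] at this
    simp at this
  have σg : σ (g r) = g r := by
    rcases gr with h | h
    · rw [h, σr]
    · rw [h, map_neg, σr]
  have key : ∀ c : Qb, g θ * θ / n = c → g θ = c * (n / θ) := fun c h => by
    rw [← h]; field_simp
  have h3 := cube_one hr e3
  rw [← hω] at h3 σθ
  rcases h3 with h | h | h
  · exact ⟨g, gs, rfl, by rw [key _ h, one_mul]⟩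
  · refine ⟨σ * g, ?_, σg, ?_⟩
    · rw [AlgEquiv.mul_apply, gs, map_neg, σs]
    · rw [AlgEquiv.mul_apply, key _ h, map_mul, map_div₀, σω, map_ratCast, σθ]
      field_simp
  · refine ⟨σ * (σ * g), ?_, ?_, ?_⟩
    · rw [AlgEquiv.mul_apply, AlgEquiv.mul_apply, gs, map_neg, σs, map_neg, σs]
    · rw [AlgEquiv.mul_apply, AlgEquiv.mul_apply, σg, σg]
    · rw [AlgEquiv.mul_apply, AlgEquiv.mul_apply, key _ h]
      simp only [map_mul, map_div₀, map_pow, σω, map_ratCast, σθ]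
      field_simp

theorem exists_KD {s r : Qb} {D u v n : ℚ} (hs : s ^ 2 = D) (s0 : s ≠ 0) (hr : r ^ 2 = -3)
    (hn : u ^ 2 - D * v ^ 2 = n ^ 3) (n0 : n ≠ 0) (h1 : ∃ g : Gal, g s = s ∧ g r = -r)
    (h2 : ∃ g : Gal, g s = -s ∧ g r = r) (hc : ∀ z ∈ ℚ⟮s, r⟯, z ^ 3 ≠ u + v * s) :
    ∃ d : KD, d.s = s ∧ d.r = r ∧ d.D = D ∧ d.u = u ∧ d.v = v ∧ d.n = n := by
  obtain ⟨θ, hθ⟩ := IsAlgClosed.exists_pow_nat_eq ((u : Qb) + v * s) (n := 3) (by norm_num)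
  have hm : θ ∉ ℚ⟮s, r⟯ := fun h => hc θ h hθ
  rw [mem_adjoin_iff] at hm
  push Not at hm
  obtain ⟨g, hg, gθ⟩ := hm
  have gs : g s = s := hg s (by simp)
  have gr : g r = r := hg r (by simp)
  have θ0 : θ ≠ 0 := by
    rintro rfl
    exact gθ (map_zero g)
  have e1 : g θ ^ 3 = θ ^ 3 := by
    rw [← map_pow, hθ, map_add, map_mul, map_ratCast, map_ratCast, gs]
  have e2 : (g θ / θ) ^ 3 = 1 := by rw [div_pow, e1, div_self (pow_ne_zero 3 θ0)]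
  obtain ⟨σ, σs, σr, σθ⟩ : ∃ σ : Gal, σ s = s ∧ σ r = r ∧ σ θ = (-1 + r) / 2 * θ := by
    rcases cube_one hr e2 with h | h | h
    · exact absurd ((div_eq_iff θ0).1 h) (by rwa [one_mul])
    · exact ⟨g, gs, gr, (div_eq_iff θ0).1 h⟩
    · have h' := (div_eq_iff θ0).1 h
      refine ⟨g * g, by rw [AlgEquiv.mul_apply, gs, gs], by rw [AlgEquiv.mul_apply, gr, gr], ?_⟩
      rw [AlgEquiv.mul_apply, h', map_mul, h', map_pow, map_div₀, map_add, map_neg, map_one, gr,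
        map_ofNat]
      linear_combination (θ * (r - 1) * (r - 3) / 16) * hr
  obtain ⟨g1, a1, b1⟩ := h1
  obtain ⟨g2, a2, b2⟩ := h2
  obtain ⟨τ, τs, τr, τθ⟩ := YGal_fix hs hr hθ hn n0 σs σr σθ a2 (Or.inl b2)
  have b3 : (g1 * g2) r = -r := by rw [AlgEquiv.mul_apply, b2, b1]
  obtain ⟨ρ, ρs, ρr, ρθ⟩ := YGal_fix hs hr hθ hn n0 σs σr σθ (g := g1 * g2)
    (by rw [AlgEquiv.mul_apply, a2, map_neg, a1]) (Or.inr b3)
  exact ⟨⟨s, r, θ, D, u, v, n, σ, τ, ρ, hs, s0, hr, hθ, hn, n0, σs, σr, σθ, τs, τr.trans b2, τθ,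
    ρs, ρr.trans b3, ρθ⟩, rfl, rfl, rfl, rfl, rfl, rfl⟩

namespace KD

variable (d : KD)

noncomputable def ω : Qb := (-1 + d.r) / 2
noncomputable def t : Qb := d.θ + d.n / d.θ
noncomputable def δ : Qb := d.s * d.r
/-- the cubic field -/
noncomputable def K : IntermediateField ℚ Qb := ℚ⟮d.t⟯
/-- its quadratic resolvent -/
noncomputable def k : IntermediateField ℚ Qb := ℚ⟮d.δ⟯
noncomputable def L : IntermediateField ℚ Qb := ℚ⟮d.s, d.r⟯
/-- the Galois closure of `K` -/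
noncomputable def N : IntermediateField ℚ Qb := ℚ⟮d.t, d.δ⟯
noncomputable def M : IntermediateField ℚ Qb := ℚ⟮d.s, d.r, d.θ⟯

end KD

end Pool.Agent.Work.MP_dd0d16_nt.LC
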