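import Pool.Agent.Work.MP_dd0d16_nt.L.Defs
import Pool.Agent.Work.MP_dd0d16_nt.L.Count
import Pool.Agent.Work.MP_dd0d16_nt.L.Gal

/-!
There are at most linearly many totally real cubic fields.

PLAN. `form_of_field`: `𝓞 K` has a basis `1, w₁, w₂` (the quotient by `ℤ 1` is torsion free of rank two; or complete
the primitive vector `1` to a basis; it is enough that `1, w₁, w₂` span, then `Algebra.discr ℚ (1, w₁, w₂) = discr K`).
The index form `F (x, y) = det (1, ξ, ξ^2)` in this basis, `ξ = x w₁ + y w₂`, has integer coefficients `a₀, b₀, c₀, e₀`.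
With the three embeddings `σ₀ = inclusion, σ₁, σ₂` in `Qb` and `Δ = det (σ_i (1, w₁, w₂))`, `Δ^2 = discr K`
(`Algebra.discr_eq_det_embeddingsMatrixReindex_pow_two`), one has `Δ F (x, y) = ∏_{i<j} (σ_j ξ - σ_i ξ)`, a product of three
linear forms whose pairwise determinants are `± Δ`; so the discriminant of `F` is `discr K`, and
`f = (3 a₀, b₀, c₀, 3 e₀)` has `ev f = 3 F`, `hM f = 3 discr K`. An explicit way: with multiplication table
`w₁^2 = . + a₁ w₁ + a₂ w₂`, `w₁ w₂ = . + b₁ w₁ + b₂ w₂`, `w₂^2 = . + c₁ w₁ + c₂ w₂`,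
`F = a₂ x^3 + (2 b₂ - a₁) x^2 y + (c₂ - 2 b₁) x y^2 - c₁ y^3`. `NoRoot`: if `σ_i ξ = σ_j ξ` then `ξ` does not generate `K`,
so it is rational (degree 3 is prime), against independence. The root
`ρ = -(σ₁ w₂ - σ₂ w₂) / (σ₁ w₁ - σ₂ w₁)` is fixed by every automorphism of `Qb` that fixes `K` (it permutes `σ₁, σ₂`), so
`ρ ∈ K` (`InfiniteGalois.fixedField_fixingSubgroup`). `discr K > 0` by `NumberField.sign_discr`. Then `reduce`; `ρ` is
irrational by `NoRoot`, so `K = ℚ⟮ρ⟯`. `all_le`: a form with `f 0 ≠ 0` has at most three roots; `count_all` with `Y = 3 X`.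
-/

set_option autoImplicit false

namespace Pool.Agent.Work.MP_dd0d16_nt.LC

open IntermediateField NumberField Module Filter

theorem YAll_basis (R : Type) [CommRing R] [IsDomain R] [CharZero R] [Module.Finite ℤ R]
    (h : finrank ℤ R = 3) : ∃ β : Basis (Fin 3) ℤ R, β 0 = 1 := by
  set N : Submodule ℤ R := Submodule.span ℤ {1} with hN
  have tf : Module.IsTorsionFree ℤ (R ⧸ N) := by
    refine Module.IsTorsionFree.of_smul_eq_zero fun n x hx => ?_
    obtain ⟨x, rfl⟩ := N.mkQ_surjective x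
    rw [or_iff_not_imp_left]
    intro hn
    rw [← map_smul, Submodule.mkQ_apply, Submodule.Quotient.mk_eq_zero,
      Submodule.mem_span_singleton] at hx
    obtain ⟨m, hm⟩ := hx
    rw [Submodule.mkQ_apply, Submodule.Quotient.mk_eq_zero, Submodule.mem_span_singleton]
    have hg : 0 < Int.gcd m n := Int.gcd_pos_of_ne_zero_right m hn
    obtain ⟨m', n', h1, h2, h3⟩ := Int.exists_gcd_one hg
    obtain ⟨u, v, h4⟩ := Int.isCoprime_iff_gcd_eq_one.2 h1
    generalize Int.gcd m n = g at hg h2 h3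
    have hg' : (g : R) ≠ 0 := Nat.cast_ne_zero.2 hg.ne'
    have h5 : (m' : R) = n' * x := by
      refine mul_right_cancel₀ hg' ?_
      rw [h2, h3] at hm
      simp only [zsmul_eq_mul] at hm
      push_cast at hm
      linear_combination hm
    have h6 : (u : R) * m' + v * n' = 1 := by exact_mod_cast h4
    have h7 : IsUnit (algebraMap ℤ R n') :=
      IsUnit.of_mul_eq_one ((u : R) * x + v) (by
        rw [eq_intCast]
        linear_combination h6 - (u : R) * h5)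
    have h8 : n' * n' = 1 := Int.isUnit_mul_self (IsUnit.of_map _ _ h7)
    have h9 : (n' : R) * n' = 1 := by exact_mod_cast h8
    refine ⟨n' * m', ?_⟩
    simp only [zsmul_eq_mul]
    push_cast
    linear_combination (n' : R) * h5 + x * h9
  have h1 : finrank ℤ N = 1 := by
    rw [← (LinearEquiv.toSpanNonzeroSingleton ℤ R 1 one_ne_zero).finrank_eq, Module.finrank_self]
  have h2 : finrank ℤ (R ⧸ N) = 2 := by
    have h3 := N.finrank_quotient_add_finrank
    omega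
  let b := Module.finBasisOfFinrankEq ℤ (R ⧸ N) h2
  obtain ⟨w1, e1⟩ := N.mkQ_surjective (b 0)
  obtain ⟨w2, e2⟩ := N.mkQ_surjective (b 1)
  refine ⟨basisOfTopLeSpanOfCardEqFinrank ![1, w1, w2] (fun x _ => ?_) (by simp [h]), by simp⟩
  have h3 := b.sum_repr (N.mkQ x)
  rw [Fin.sum_univ_two, ← e1, ← e2, ← map_smul, ← map_smul, ← map_add, Submodule.mkQ_apply,
    Submodule.mkQ_apply, Submodule.Quotient.eq, Submodule.mem_span_singleton] at h3
  obtain ⟨m, hm⟩ := h3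
  rw [Submodule.mem_span_range_iff_exists_fun]
  refine ⟨![-m, b.repr (N.mkQ x) 0, b.repr (N.mkQ x) 1], ?_⟩
  rw [Fin.sum_univ_three]
  simp only [Matrix.cons_val, neg_smul, Submodule.mkQ_apply]
  rw [hm]
  abel

theorem YAll_noroot {R : Type} [CommRing R] [IsDomain R] {w z : R} {a b c e : ℤ}
    (ind : ∀ p q r : ℤ, (p : R) + q * w + r * z = 0 → q = 0 ∧ r = 0)
    (h1 : w * w = -(a * c) - b * w + a * z) (h2 : w * z = -(a * e))
    (h3 : z * z = -(b * e) - e * w + c * z) : NoRoot ![3 * a, b, c, 3 * e] := by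
  intro x y h
  have hF : a * x ^ 3 + b * x ^ 2 * y + c * x * y ^ 2 + e * y ^ 3 = 0 := by
    simp only [ev, Matrix.cons_val, Int.cast_id] at h
    linarith
  have hF' : (a : R) * x ^ 3 + b * x ^ 2 * y + c * x * y ^ 2 + e * y ^ 3 = 0 := by
    exact_mod_cast congrArg (Int.cast : ℤ → R) hF
  have key : (((-(y * (c * x + e * y)) : ℤ) : R) + (x * x : ℤ) * w + (x * y : ℤ) * z) *
      (((b * x ^ 2 + c * x * y + 2 * e * y ^ 2 : ℤ) : R) + (x * x : ℤ) * w + (x * y : ℤ) * z) =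
        0 := by
    push_cast
    linear_combination (x : R) ^ 4 * h1 + 2 * (x : R) ^ 3 * y * h2 + (x : R) ^ 2 * y ^ 2 * h3 +
      (x * z - c * x - 2 * e * y) * hF'
  have hx : x = 0 := by
    rcases mul_eq_zero.1 key with k | k
    · exact mul_self_eq_zero.1 (ind _ _ _ k).1
    · exact mul_self_eq_zero.1 (ind _ _ _ k).1
  refine ⟨hx, by_contra fun hy => ?_⟩
  have he : e = 0 := by
    rw [hx] at hF
    have h4 : e * y ^ 3 = 0 := by linarith
    exact (mul_eq_zero.1 h4).resolve_right (pow_ne_zero 3 hy)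
  rw [he, Int.cast_zero, mul_zero, neg_zero] at h2
  rcases mul_eq_zero.1 h2 with k | k
  · exact one_ne_zero (ind 0 1 0 (by simp [k])).1
  · exact one_ne_zero (ind 0 0 1 (by simp [k])).2

theorem YAll_form {R : Type} [CommRing R] [IsDomain R] (β : Basis (Fin 3) ℤ R) (h0 : β 0 = 1) :
    ∃ (a b c e : ℤ) (w : R), hM ![3 * a, b, c, 3 * e] = 3 * Algebra.discr ℤ β ∧
      NoRoot ![3 * a, b, c, 3 * e] ∧ w ^ 3 + b * w ^ 2 + a * c * w + a ^ 2 * e = 0 := by
  have ind : ∀ p q r : ℤ, (p : R) + q * β 1 + r * β 2 = 0 → q = 0 ∧ r = 0 := fun p q r h => by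
    have h1 := Fintype.linearIndependent_iff.1 β.linearIndependent ![p, q, r] (by
      rw [Fin.sum_univ_three, h0]
      simpa [zsmul_eq_mul] using h)
    exact ⟨h1 1, h1 2⟩
  have rep : ∀ x : R, x = (β.repr x 0 : ℤ) + (β.repr x 1 : ℤ) * β 1 + (β.repr x 2 : ℤ) * β 2 :=
    fun x => by
      have h1 := β.sum_repr x
      rw [Fin.sum_univ_three, h0] at h1
      simpa [zsmul_eq_mul] using h1.symm
  have tr : ∀ x : R, Algebra.trace ℤ R x =
      β.repr x 0 + β.repr (x * β 1) 1 + β.repr (x * β 2) 2 := fun x => by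
    rw [Algebra.trace_eq_matrix_trace β, Matrix.trace_fin_three]
    simp only [Algebra.leftMulMatrix_eq_repr_mul, h0, mul_one]
  have t0 : Algebra.trace ℤ R 1 = 3 := by
    rw [tr, one_mul, one_mul, ← h0]
    simp
  have t1 : Algebra.trace ℤ R (β 1) = β.repr (β 1 * β 1) 1 + β.repr (β 1 * β 2) 2 := by
    rw [tr]
    simp
  have t2 : Algebra.trace ℤ R (β 2) = β.repr (β 1 * β 2) 1 + β.repr (β 2 * β 2) 2 := by
    rw [tr, mul_comm (β 2) (β 1)]
    simp
  have tl : ∀ x : R, Algebra.trace ℤ R x = β.repr x 0 * 3 +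
      β.repr x 1 * Algebra.trace ℤ R (β 1) + β.repr x 2 * Algebra.trace ℤ R (β 2) := fun x => by
    have h1 := congrArg (Algebra.trace ℤ R) (β.sum_repr x)
    rw [Fin.sum_univ_three, h0] at h1
    simp only [map_add, map_smul, smul_eq_mul, t0] at h1
    exact h1.symm
  have t11 := tl (β 1 * β 1)
  have t12 := tl (β 1 * β 2)
  have t22 := tl (β 2 * β 2)
  have hA' := rep (β 1 * β 1)
  have hB' := rep (β 1 * β 2)
  have hC' := rep (β 2 * β 2)
  have hd : Algebra.discr ℤ β = Matrix.det !![3, Algebra.trace ℤ R (β 1), Algebra.trace ℤ R (β 2);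
      Algebra.trace ℤ R (β 1), Algebra.trace ℤ R (β 1 * β 1), Algebra.trace ℤ R (β 1 * β 2);
      Algebra.trace ℤ R (β 2), Algebra.trace ℤ R (β 1 * β 2), Algebra.trace ℤ R (β 2 * β 2)] := by
    rw [Algebra.discr_def, Matrix.det_fin_three, Matrix.det_fin_three]
    simp only [Algebra.traceMatrix_apply, Algebra.traceForm_apply, h0, one_mul, mul_one, t0,
      mul_comm (β 2) (β 1), Matrix.of_apply, Matrix.cons_val]
  rw [t11, t12, t22, t1, t2] at hd
  generalize β.repr (β 1 * β 1) 0 = a0, β.repr (β 1 * β 1) 1 = a1, β.repr (β 1 * β 1) 2 = a2,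
    β.repr (β 1 * β 2) 0 = b0, β.repr (β 1 * β 2) 1 = b1, β.repr (β 1 * β 2) 2 = b2,
    β.repr (β 2 * β 2) 0 = c0, β.repr (β 2 * β 2) 1 = c1, β.repr (β 2 * β 2) 2 = c2
    at hA' hB' hC' hd
  generalize β 1 = w, β 2 = z at ind hA' hB' hC'
  obtain ⟨r1, r2⟩ := ind (b1 * a0 + b2 * b0 - a1 * b0 - a2 * c0) (b0 + b2 * b1 - a2 * c1)
    (b1 * a2 + b2 ^ 2 - a0 - a1 * b2 - a2 * c2) (by
      push_cast
      linear_combination (z - b1) * hA' + (a1 - b2 - w) * hB' + (a2 : R) * hC')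
  obtain ⟨r3, -⟩ := ind (b1 * b0 + b2 * c0 - c1 * a0 - c2 * b0)
    (b1 ^ 2 + b2 * c1 - c0 - c1 * a1 - c2 * b1) (b0 + b1 * b2 - c1 * a2) (by
      push_cast
      linear_combination (c1 : R) * hA' + (c2 - b1 - z) * hB' + (w - b2) * hC')
  obtain rfl : b0 = a2 * c1 - b2 * b1 := by linarith
  obtain rfl : a0 = b1 * a2 + b2 ^ 2 - a1 * b2 - a2 * c2 := by linarith
  obtain rfl : c0 = b1 ^ 2 + b2 * c1 - c1 * a1 - c2 * b1 := by linarith
  push_cast at hA' hB' hC'
  refine ⟨a2, 2 * b2 - a1, c2 - 2 * b1, -c1, w - b2, ?_, ?_, ?_⟩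
  · rw [hd, Matrix.det_fin_three]
    simp only [hM, hA, hB, hC, Matrix.of_apply, Matrix.cons_val]
    ring
  · refine YAll_noroot (w := w - b2) (z := z - b1) (fun p q r h => ?_) ?_ ?_ ?_
    · exact ind (p - q * b2 - r * b1) q r (by push_cast; linear_combination h)
    · push_cast
      linear_combination hA'
    · push_cast
      linear_combination hB'
    · push_cast
      linear_combination hC'
  · push_cast
    linear_combination (w - b2) * hA' + (a2 : R) * hB'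

theorem YAll_irr {g : Fin 4 → ℤ} (h : NoRoot g) {ρ : Qb} (e : ev g ρ 1 = 0) :
    ρ ∉ (⊥ : IntermediateField ℚ Qb) := by
  intro hρ
  obtain ⟨q, rfl⟩ := IntermediateField.mem_bot.1 hρ
  have hd : ((q.den : ℤ) : Qb) ≠ 0 := by exact_mod_cast q.den_ne_zero
  have h1 : algebraMap ℚ Qb q * ((q.den : ℤ) : Qb) = ((q.num : ℤ) : Qb) := by
    rw [eq_ratCast]
    exact_mod_cast Rat.mul_den_eq_num q
  have h2 : ((ev g q.num (q.den : ℤ) : ℤ) : Qb) = 0 := by
    simp only [ev] at e ⊢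
    simp only [Int.cast_id, Int.cast_add, Int.cast_mul, Int.cast_pow, Int.cast_ofNat, ← h1]
    linear_combination ((q.den : ℤ) : Qb) ^ 3 * e
  have h3 : ev g q.num (q.den : ℤ) = 0 := Int.cast_eq_zero.1 h2
  exact hd (by rw [(h _ _ h3).2, Int.cast_zero])

theorem form_of_field (K : IntermediateField ℚ Qb) [NumberField K] (h3 : finrank ℚ K = 3)
    (hr : IsTotallyReal K) : ∃ f : Fin 4 → ℤ, Red f ∧ hM f = 3 * |discr K| ∧
      ∃ ρ : Qb, ev f ρ 1 = 0 ∧ K = ℚ⟮ρ⟯ := by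
  obtain ⟨β, h0⟩ := YAll_basis (𝓞 K) ((RingOfIntegers.rank K).trans h3)
  obtain ⟨a, b, c, e, w, h1, h2, h4⟩ := YAll_form β h0
  rw [discr_eq_discr K β] at h1
  have hp : 0 < discr K := by
    rw [← Int.sign_eq_one_iff_pos, sign_discr, IsTotallyReal.nrComplexPlaces_eq_zero, pow_zero]
  obtain ⟨g, g1, g2, g3, g4⟩ := reduce _ h2 (by rw [h1]; positivity)
  have ha : (a : Qb) ≠ 0 := by
    have h5 := YForm_a h2
    simp only [Matrix.cons_val] at h5
    exact_mod_cast right_ne_zero_of_mul h5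
  have h5 : (((w : K) : Qb)) ^ 3 + b * ((w : K) : Qb) ^ 2 + a * c * ((w : K) : Qb) +
      a ^ 2 * e = 0 := by
    have h6 := congrArg (fun x : 𝓞 K => K.val (algebraMap (𝓞 K) K x)) h4
    simp only [map_add, map_mul, map_pow, map_intCast, map_zero] at h6
    exact h6
  obtain ⟨ρ, hρ, h6⟩ := g4 K ⟨((w : K) : Qb) / a, div_mem (w : K).2 (intCast_mem K a), by
    simp only [ev, Matrix.cons_val]
    push_cast
    field_simp
    linear_combination 3 * h5⟩
  refine ⟨g, g1, by rw [g2, h1, abs_of_pos hp], ρ, h6, ?_⟩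
  have hle : ℚ⟮ρ⟯ ≤ K := adjoin_simple_le_iff.2 hρ
  have h7 : finrank ℚ ℚ⟮ρ⟯ ∣ 3 := h3 ▸ finrank_dvd_of_le_right hle
  have h8 : finrank ℚ ℚ⟮ρ⟯ = 3 :=
    ((Nat.dvd_prime Nat.prime_three).1 h7).resolve_left fun k =>
      YAll_irr g3 h6 (finrank_adjoin_simple_eq_one_iff.1 k)
  exact (eq_of_le_of_finrank_eq hle (h8.trans h3.symm)).symm

theorem YAll_roots {f : Fin 4 → ℤ} (h : Red f) :
    ∃ s : Finset Qb, s.card ≤ 3 ∧ ∀ ρ : Qb, ev f ρ 1 = 0 → ρ ∈ s := by
  classical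
  have h0 : ((f 0 : ℤ) : Qb) ≠ 0 := by
    have h1 := h.1
    exact_mod_cast (by omega : f 0 ≠ 0)
  let P : _root_.Cubic Qb := ⟨f 0, 3 * f 1, 3 * f 2, f 3⟩
  refine ⟨P.roots.toFinset, P.card_roots_le, fun ρ e => ?_⟩
  rw [Multiset.mem_toFinset, _root_.Cubic.mem_roots_iff (_root_.Cubic.ne_zero_of_a_ne_zero h0)]
  simp only [ev] at e
  linear_combination e

theorem YAll_cover (X : ℝ) : ∃ T : Finset (IntermediateField ℚ Qb), Cubic X ⊆ T ∧
    T.card ≤ {f : Fin 4 → ℤ | Red f ∧ ((hM f : ℤ) : ℝ) ≤ 3 * X}.ncard * 3 := by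
  classical
  have h1 : ∀ f : Fin 4 → ℤ, ∃ s : Finset Qb,
      s.card ≤ 3 ∧ (Red f → ∀ ρ : Qb, ev f ρ 1 = 0 → ρ ∈ s) := fun f => by
    by_cases h : Red f
    · obtain ⟨s, h2, h3⟩ := YAll_roots h
      exact ⟨s, h2, fun _ => h3⟩
    · exact ⟨∅, by simp, fun k => absurd k h⟩
  choose s h2 h3 using h1
  refine ⟨(red_finite (3 * X)).toFinset.biUnion fun f => (s f).image fun ρ => ℚ⟮ρ⟯, ?_, ?_⟩
  · rintro K ⟨nf, k3, kr, -, kd⟩
    obtain ⟨f, f1, f2, ρ, f3, f4⟩ := form_of_field K k3 kr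
    rw [Finset.mem_coe, Finset.mem_biUnion]
    refine ⟨f, ?_, Finset.mem_image.2 ⟨ρ, h3 f f1 ρ f3, f4.symm⟩⟩
    rw [Set.Finite.mem_toFinset]
    refine ⟨f1, ?_⟩
    rw [f2]
    push_cast
    linarith
  · rw [Set.ncard_eq_toFinset_card _ (red_finite (3 * X))]
    exact Finset.card_biUnion_le_card_mul _ _ _ fun f _ => Finset.card_image_le.trans (h2 f)

theorem cubic_finite (X : ℝ) : (Cubic X).Finite := by
  obtain ⟨T, h, -⟩ := YAll_cover X
  exact T.finite_toSet.subset h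

theorem all_le : ∀ᶠ X : ℝ in atTop, ((Cubic X).ncard : ℝ) ≤ 9 * X := by
  filter_upwards [(tendsto_id.const_mul_atTop (show (0 : ℝ) < 3 by norm_num)).eventually count_all]
    with X hX
  obtain ⟨T, h1, h2⟩ := YAll_cover X
  have h3 : (Cubic X).ncard ≤ T.card := by
    rw [← Set.ncard_coe_finset]
    exact Set.ncard_le_ncard h1 T.finite_toSet
  have h4 : ((Cubic X).ncard : ℝ) ≤
      ({f : Fin 4 → ℤ | Red f ∧ ((hM f : ℤ) : ℝ) ≤ 3 * X}.ncard : ℝ) * 3 := by
    exact_mod_cast h3.trans h2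
  simp only [id] at hX
  linarith

end Pool.Agent.Work.MP_dd0d16_nt.LC
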