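import Pool.Agent.Work.MP_dd0d16_nt.L.Mult

/-!
No reduced form of invariant `m` means no 3-torsion in the class group of `ℚ⟮s⟯`; two consequences.

PLAN. `no_torsion`: let `I^3 = span {δ}`, `n0 = absNorm I`, `x₁, x₂` from `ideal_basis`; `N δ = n0^3`
(`absNorm_span`). For `μ ∈ I^3`, `μ / δ` is an integer of the field, `μ / δ = a + b (1 + s) / 2`; put `φ μ = b`. The form
`f = (φ (x₁^3), φ (x₁^2 x₂), φ (x₁ x₂^2), φ (x₂^3))` has `hA = N x₁ / n0`, `hB = Tr (x₁ x₂') / n0`, `hC = N x₂ / n0`, so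
`hM f = m` (write `δ = d₁ + d₂ s` and compute in rationals). If `ev f x y = 0` with `(x, y) ≠ 0` then
`λ = x x₁ + y x₂ ≠ 0` has `λ^3 = a δ` with an integer `a`; write `span {λ} = I J`; then `J^3 = span {a}`,
`absNorm J ^ 3 = a^2`, so `|a| = w^3` and `J^3 = span {w}^3`, `J = span {w}` (unique factorisation of ideals), and `I`
is principal (`λ / w`). Otherwise `reduce` contradicts `NoForm`.
`cube_of_val`: multiply `α` by the cube of an integer to make it integral. For a nonzero prime `P` take `l, j` from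
`prime_emb` and `ϖ ∈ P` not in `P^2`; every nonzero integral `x` satisfies `a x = b ϖ^k` with `a, b ∉ P`, `k` the
multiplicity of `P` in `span {x}` (localisation at `P` is a discrete valuation ring, or use
`IsDedekindDomain.HeightOneSpectrum.intValuation`), so `‖j x‖ = ‖j ϖ‖^k` with `0 < ‖j ϖ‖ < 1`; hence `3 ∣ k`. So
`span {α} = I^3`, `I = span {y}`, `α = ± y^3` (`unit_quad`).
`exists_beta`: `ϖ = (1 + s) / 2`, `ϖ (1 - ϖ) = (m + 1) / 4` is even. `P = span {2, ϖ}`, `P' = span {2, 1 - ϖ}`,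
`P P' = span {2}`, `P + P' = ⊤`, both proper, so both have absolute norm 2 (product 4, neither is 1). The order `h` of the
class of `P` is prime to 3 by `no_torsion`, so `P^(3 k + 1) = span {π}` for some `k` (use `h` or `2 h`). With
`π = p + q s`, `π' = p - q s`, `N π = 2^(3 k + 1) = n`, `β = π^2 π' = n π`. `π' ∈ P'^(3 k + 1)` (from
`P^h span {π'} = span {2^h} = P^h P'^h`). Take `x₁, x₂` from `ideal_basis` for `P'^k` and `λ_i = x_i / 4^k`; then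
`λ^3 β = (x^3 π) 2 / 2^(3 k)` with `x^3 π ∈ P'^(3k) P^(3k+1) ≤ span {2^(3k)}`; the conjugate is integral too.
At `l ≠ 2`: `π π' = 2^h`. At 2: `j` from `prime_emb` for `P`; if `‖j β‖ = ‖j z‖^3` use the multiplicity lemma above
(`β` has multiplicity `2 (3 k + 1)` at `P`), or apply it directly with `ϖ = 2`: all norms of nonzero elements of the field
are integral powers of `‖2‖`.
-/

set_option autoImplicit false

namespace Pool.Agent.Work.MP_dd0d16_nt.LC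

open IntermediateField NumberField

variable {m : ℕ} {s : Qb}

theorem YCls_two (l : ℕ) [hp : Fact l.Prime] (hl : l ≠ 2) : ‖(2 : PadicAlgCl l)‖ = 1 := by
  have e : (2 : PadicAlgCl l) = algebraMap ℚ_[l] (PadicAlgCl l) ((2 : ℕ) : ℚ_[l]) := by
    rw [map_natCast]
    rfl
  rw [e, norm_algebraMap', Padic.norm_natCast_eq_one_iff]
  exact (Nat.coprime_primes hp.out Nat.prime_two).2 hl

theorem YCls_int (x : 𝓞 ℚ⟮s⟯) : IsIntegral ℤ ((x : ℚ⟮s⟯) : Qb) :=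
  (RingOfIntegers.isIntegral_coe x).algebraMap

theorem YCls_mk {y : Qb} (hy : y ∈ ℚ⟮s⟯) (hi : IsIntegral ℤ y) :
    ∃ x : 𝓞 ℚ⟮s⟯, ((x : ℚ⟮s⟯) : Qb) = y :=
  ⟨⟨⟨y, hy⟩, (isIntegral_algebraMap_iff (algebraMap ℚ⟮s⟯ Qb).injective).1 hi⟩, rfl⟩

theorem YCls_phi (s : Qb) : ∃ φ : 𝓞 ℚ⟮s⟯ →+* Qb, Function.Injective φ ∧
    ∀ x : 𝓞 ℚ⟮s⟯, ((x : ℚ⟮s⟯) : Qb) = φ x :=
  ⟨(algebraMap ℚ⟮s⟯ Qb).comp (algebraMap (𝓞 ℚ⟮s⟯) ℚ⟮s⟯),
    (algebraMap ℚ⟮s⟯ Qb).injective.comp RingOfIntegers.coe_injective, fun _ => rfl⟩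

theorem YCls_half {g : Gal} {y : Qb} (hy : IsIntegral ℤ y) : 2 * (g y + y) ≠ 1 := by
  intro h
  have h1 : IsIntegral ℤ (g y + y) := (hy.map g).add hy
  have h2 : g y + y = algebraMap ℚ Qb (1 / 2) := by
    rw [map_div₀, map_one, map_ofNat, eq_div_iff two_ne_zero, mul_comm, h]
  rw [h2, isIntegral_algebraMap_iff (algebraMap ℚ Qb).injective] at h1
  obtain ⟨n, hn⟩ := IsIntegrallyClosed.isIntegral_iff.1 h1
  have h3 : ((2 * n : ℤ) : ℚ) = ((1 : ℤ) : ℚ) := by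
    rw [eq_intCast] at hn
    push_cast
    rw [hn]
    norm_num
  have h4 := Int.cast_injective h3
  omega

theorem YCls_primes (hm : m % 8 = 7) (hq : Squarefree m) (hs : s ^ 2 = -(m : Qb))
    [NumberField ℚ⟮s⟯] : ∃ P P' : Ideal (𝓞 ℚ⟮s⟯), P * P' = Ideal.span {2} ∧ P ⊔ P' = ⊤ ∧
      Ideal.absNorm P = 2 ∧ Ideal.absNorm P' = 2 := by
  have hm4 : m % 4 = 3 := by omega
  obtain ⟨g, hg⟩ := exists_conj (by omega) hs
  obtain ⟨φ, hφ, eφ⟩ := YCls_phi s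
  obtain ⟨b, -, hb⟩ := exists_basis hm4 hq hs
  generalize b 1 = ϖ at hb
  rw [eφ] at hb
  obtain ⟨t, ht⟩ : ∃ t : ℕ, m + 1 = 8 * t := ⟨(m + 1) / 8, by omega⟩
  have ht' : (m : Qb) + 1 = 8 * t := by exact_mod_cast ht
  have h1 : ϖ * (1 - ϖ) = 2 * t := hφ (by
    rw [map_mul, map_mul, map_sub, map_one, map_natCast, map_ofNat, hb]
    linear_combination (-1 / 4 : Qb) * hs + (1 / 4 : Qb) * ht')
  have hPP : Ideal.span {2, ϖ} * Ideal.span {2, 1 - ϖ} = Ideal.span {(2 : 𝓞 ℚ⟮s⟯)} := by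
    rw [Ideal.span_pair_mul_span_pair]
    refine le_antisymm (Ideal.span_le.2 ?_) (Ideal.span_le.2 ?_)
    · rintro _ (rfl | rfl | rfl | rfl)
      · exact Ideal.mem_span_singleton.2 (dvd_mul_right _ _)
      · exact Ideal.mem_span_singleton.2 (dvd_mul_right _ _)
      · exact Ideal.mem_span_singleton.2 (dvd_mul_left _ _)
      · exact Ideal.mem_span_singleton.2 (h1 ▸ dvd_mul_right _ _)
    · rintro _ rfl
      have e : (2 : 𝓞 ℚ⟮s⟯) = 2 * (1 - ϖ) + ϖ * 2 := by ring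
      have k := Ideal.add_mem (Ideal.span {2 * 2, 2 * (1 - ϖ), ϖ * 2, ϖ * (1 - ϖ)})
        (a := 2 * (1 - ϖ)) (b := ϖ * 2) (Ideal.subset_span (by simp)) (Ideal.subset_span (by simp))
      rwa [← e] at k
  have m1 : ϖ ∈ Ideal.span {2, ϖ} := Ideal.subset_span (by simp)
  have m2 : 1 - ϖ ∈ Ideal.span {2, 1 - ϖ} := Ideal.subset_span (by simp)
  generalize Ideal.span {2, ϖ} = P at hPP m1
  generalize Ideal.span {2, 1 - ϖ} = P' at hPP m2
  have n4 : Ideal.absNorm P * Ideal.absNorm P' = 4 := by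
    have k := absNorm_span hm4 hq hs (2 : 𝓞 ℚ⟮s⟯) (p := 2) (q := 0) (by
      rw [eφ, map_ofNat]
      norm_num)
    rw [← map_mul, hPP]
    have k' : (Ideal.absNorm (Ideal.span {(2 : 𝓞 ℚ⟮s⟯)}) : ℚ) = ((4 : ℕ) : ℚ) := by
      rw [k]
      norm_num
    exact_mod_cast k'
  have n1 : Ideal.absNorm P ≠ 1 := by
    rw [Ne, Ideal.absNorm_eq_one_iff]
    rintro rfl
    rw [Ideal.top_mul] at hPP
    rw [hPP] at m2
    obtain ⟨y, hy⟩ := Ideal.mem_span_singleton.1 m2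
    have k := congrArg φ hy
    rw [map_mul, map_sub, map_one, map_ofNat, hb] at k
    have k' := congrArg g k
    simp only [map_mul, map_sub, map_one, map_ofNat, map_div₀, map_add, hg] at k'
    exact YCls_half (g := g) (eφ y ▸ YCls_int y) (by linear_combination -k - k')
  have n2 : Ideal.absNorm P' ≠ 1 := by
    rw [Ne, Ideal.absNorm_eq_one_iff]
    rintro rfl
    rw [Ideal.mul_top] at hPP
    rw [hPP] at m1
    obtain ⟨y, hy⟩ := Ideal.mem_span_singleton.1 m1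
    have k := congrArg φ hy
    rw [map_mul, map_ofNat, hb] at k
    have k' := congrArg g k
    simp only [map_mul, map_one, map_ofNat, map_div₀, map_add, hg] at k'
    exact YCls_half (g := g) (eφ y ▸ YCls_int y) (by linear_combination -k - k')
  have n3 : Ideal.absNorm P = 2 ∧ Ideal.absNorm P' = 2 := by
    generalize Ideal.absNorm P = a at n1 n4
    generalize Ideal.absNorm P' = c at n2 n4
    have ha : a ≤ 4 := Nat.le_of_dvd (by norm_num) ⟨c, n4.symm⟩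
    interval_cases a <;> omega
  refine ⟨P, P', hPP, ?_, n3⟩
  rw [Ideal.eq_top_iff_one]
  have k := Ideal.add_mem _ (Ideal.mem_sup_left (T := P') m1) (Ideal.mem_sup_right (S := P) m2)
  rwa [add_sub_cancel] at k

theorem YCls_pow (hm : m % 4 = 3) (hq : Squarefree m) (hs : s ^ 2 = -(m : Qb)) (hN : NoForm m)
    [NumberField ℚ⟮s⟯] {P : Ideal (𝓞 ℚ⟮s⟯)} (h0 : P ≠ ⊥) :
    ∃ (k : ℕ) (π : 𝓞 ℚ⟮s⟯), P ^ (3 * k + 1) = Ideal.span {π} := by
  have key : ∀ h : ℕ, 0 < h → (P ^ h).IsPrincipal →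
      ∃ (k : ℕ) (π : 𝓞 ℚ⟮s⟯), P ^ (3 * k + 1) = Ideal.span {π} := by
    intro h
    induction h using Nat.strong_induction_on with
    | _ h ih =>
      intro hp hh
      obtain ⟨t, rfl | rfl | rfl⟩ : ∃ t, h = 3 * t ∨ h = 3 * t + 1 ∨ h = 3 * t + 2 :=
        ⟨h / 3, by omega⟩
      · refine ih t (by omega) (by omega) (no_torsion hm hq hs hN (pow_ne_zero _ h0) ?_)
        rwa [← pow_mul, mul_comm]
      · obtain ⟨π, hπ⟩ := hh
        exact ⟨t, π, hπ⟩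
      · obtain ⟨π, hπ⟩ := hh
        refine ⟨2 * t + 1, π ^ 2, ?_⟩
        rw [← Ideal.span_singleton_pow, ← show P ^ (3 * t + 2) = Ideal.span {π} from hπ, ← pow_mul]
        congr 1
        ring
  have hP : P ∈ nonZeroDivisors (Ideal (𝓞 ℚ⟮s⟯)) := mem_nonZeroDivisors_of_ne_zero h0
  refine key (Fintype.card (ClassGroup (𝓞 ℚ⟮s⟯))) Fintype.card_pos ?_
  have k : ClassGroup.mk0 ((⟨P, hP⟩ : nonZeroDivisors (Ideal (𝓞 ℚ⟮s⟯))) ^
      Fintype.card (ClassGroup (𝓞 ℚ⟮s⟯))) = 1 := by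
    rw [map_pow, pow_card_eq_one]
  exact (ClassGroup.mk0_eq_one_iff (pow_mem hP _)).1 k

theorem YCls_mult {R : Type} [CommRing R] [IsDomain R] [IsNoetherianRing R] {P : Ideal R}
    (hP : P ≠ ⊤) {x : R} (hx : x ≠ 0) : ∃ k : ℕ, x ∈ P ^ k ∧ x ∉ P ^ (k + 1) := by
  by_contra h
  push Not at h
  have h1 : ∀ k : ℕ, x ∈ P ^ k := fun k => by
    induction k with
    | zero => simp
    | succ k ih => exact h k ih
  have h2 : x ∈ ⨅ k : ℕ, P ^ k := Ideal.mem_iInf.2 h1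
  rw [Ideal.iInf_pow_eq_bot_of_isDomain P hP] at h2
  exact hx h2

theorem exists_beta (hm : m % 8 = 7) (hq : Squarefree m) (hs : s ^ 2 = -(m : Qb))
    (hN : NoForm m) : ∃ u v n p₁ q₁ p₂ q₂ : ℚ, u ^ 2 + m * v ^ 2 = n ^ 3 ∧ n ≠ 0 ∧
      IsIntegral ℤ (((p₁ : Qb) + q₁ * s) ^ 3 * (u + v * s)) ∧
      IsIntegral ℤ (((p₁ : Qb) - q₁ * s) ^ 3 * (u - v * s)) ∧
      IsIntegral ℤ (((p₂ : Qb) + q₂ * s) ^ 3 * (u + v * s)) ∧
      IsIntegral ℤ (((p₂ : Qb) - q₂ * s) ^ 3 * (u - v * s)) ∧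
      (n * (p₁ * q₂ - p₂ * q₁)) ^ 2 = 1 ∧
      (∀ (l : ℕ) [Fact l.Prime] (j : Qb →+* PadicAlgCl l), l ≠ 2 → ‖j (u + v * s)‖ = 1) ∧
      ∃ j : Qb →+* PadicAlgCl 2, ∀ z ∈ ℚ⟮s⟯, ‖j (u + v * s)‖ ≠ ‖j z‖ ^ 3 := by
  have := nf_adjoin s
  have hm4 : m % 4 = 3 := by omega
  have hm0 : 0 < m := by omega
  obtain ⟨g, hg⟩ := exists_conj hm0 hs
  obtain ⟨φ, hφ, eφ⟩ := YCls_phi s
  obtain ⟨P, P', hPP, hsup, nP, nP'⟩ := YCls_primes hm hq hs
  have hP0 : P ≠ ⊥ := fun h => by simp [h] at nP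
  have hP0' : P' ≠ ⊥ := fun h => by simp [h] at nP'
  have hP : P.IsPrime := Ideal.isPrime_of_irreducible_absNorm (nP ▸ Nat.prime_two)
  obtain ⟨k, π, hπ⟩ := YCls_pow hm4 hq hs hN hP0
  have hs' : s ^ 2 = ((-(m : ℚ) : ℚ) : Qb) := by rw [hs]; push_cast; rfl
  obtain ⟨p, q, hpq⟩ := mem_quad hs' (π : ℚ⟮s⟯).2
  have hn : p ^ 2 + m * q ^ 2 = 2 ^ (3 * k + 1) := by
    rw [← absNorm_span hm4 hq hs π hpq, ← hπ, map_pow, nP]
    norm_num
  obtain ⟨x₁, m₁, x₂, m₂, p₁, q₁, p₂, q₂, e₁, e₂, hd⟩ :=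
    ideal_basis hm4 hq hs (pow_ne_zero k hP0')
  rw [map_pow, nP'] at hd
  have hβ : (((2 ^ (3 * k + 1) * p : ℚ) : Qb) + ((2 ^ (3 * k + 1) * q : ℚ) : Qb) * s) =
      2 ^ (3 * k + 1) * φ π := by
    rw [← eφ, hpq]
    push_cast
    ring
  have hmem : π ∈ P ^ (3 * k + 1) := hπ ▸ Ideal.mem_span_singleton_self π
  have hI : ∀ (x : 𝓞 ℚ⟮s⟯) (a b : ℚ), x ∈ P' ^ k → ((x : ℚ⟮s⟯) : Qb) = a + b * s →
      IsIntegral ℤ ((((a / 4 ^ k : ℚ) : Qb) + ((b / 4 ^ k : ℚ) : Qb) * s) ^ 3 *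
        (((2 ^ (3 * k + 1) * p : ℚ) : Qb) + ((2 ^ (3 * k + 1) * q : ℚ) : Qb) * s)) := by
    intro x a b hx e
    have h1 : π * x ^ 3 ∈ Ideal.span {(2 : 𝓞 ℚ⟮s⟯) ^ (3 * k)} := by
      rw [← Ideal.span_singleton_pow, ← hPP, mul_pow]
      refine Ideal.mul_mem_mul (Ideal.pow_le_pow_right (Nat.le_succ _) hmem) ?_
      rw [mul_comm, pow_mul]
      exact Ideal.pow_mem_pow hx 3
    obtain ⟨y, hy⟩ := Ideal.mem_span_singleton.1 h1
    have h2 := congrArg φ hy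
    rw [map_mul, map_mul, map_pow, map_pow, map_ofNat, ← eφ x, e] at h2
    have h3 : (((a / 4 ^ k : ℚ) : Qb) + ((b / 4 ^ k : ℚ) : Qb) * s) = (a + b * s) / (2 ^ k) ^ 2 := by
      rw [← pow_mul, mul_comm k 2, pow_mul]
      push_cast
      norm_num
      ring
    have h4 : (((a / 4 ^ k : ℚ) : Qb) + ((b / 4 ^ k : ℚ) : Qb) * s) ^ 3 *
        (((2 ^ (3 * k + 1) * p : ℚ) : Qb) + ((2 ^ (3 * k + 1) * q : ℚ) : Qb) * s) = φ (2 * y) := by
      rw [hβ, h3, map_mul, map_ofNat, pow_succ _ (3 * k), mul_comm 3 k, pow_mul]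
      rw [mul_comm 3 k, pow_mul] at h2
      have h5 : (2 : Qb) ^ k ≠ 0 := pow_ne_zero _ two_ne_zero
      generalize (2 : Qb) ^ k = w at h2 h5
      field_simp
      linear_combination h2
    rw [h4, ← eφ]
    exact YCls_int _
  have hC : ∀ a b u v : ℚ, IsIntegral ℤ (((a : Qb) + b * s) ^ 3 * (u + v * s)) →
      IsIntegral ℤ (((a : Qb) - b * s) ^ 3 * (u - v * s)) := by
    intro a b u v h
    have h1 := h.map g
    simp only [map_mul, map_pow, map_add, map_ratCast, hg, mul_neg, ← sub_eq_add_neg] at h1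
    exact h1
  refine ⟨2 ^ (3 * k + 1) * p, 2 ^ (3 * k + 1) * q, 2 ^ (3 * k + 1), p₁ / 4 ^ k, q₁ / 4 ^ k,
    p₂ / 4 ^ k, q₂ / 4 ^ k, ?_, by positivity, hI _ _ _ m₁ e₁, hC _ _ _ _ (hI _ _ _ m₁ e₁),
    hI _ _ _ m₂ e₂, hC _ _ _ _ (hI _ _ _ m₂ e₂), ?_, fun l _ j hl => ?_, ?_⟩
  · generalize (2 : ℚ) ^ (3 * k + 1) = n at hn
    linear_combination n ^ 2 * hn
  · have h1 : (2 * (p₁ * q₂ - p₂ * q₁)) ^ 2 = (2 ^ k) ^ 2 := by
      rw [mul_pow, ← sq_abs (p₁ * q₂ - p₂ * q₁), ← mul_pow, hd]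
      push_cast
      rfl
    have h2 : (4 : ℚ) ^ k = (2 ^ k) ^ 2 := by
      rw [← pow_mul, mul_comm k 2, pow_mul]
      norm_num
    rw [h2, pow_succ _ (3 * k), mul_comm 3 k, pow_mul]
    have h5 : (2 : ℚ) ^ k ≠ 0 := pow_ne_zero _ two_ne_zero
    generalize (2 : ℚ) ^ k = w at h1 h5
    field_simp
    linear_combination h1
  · have h2 : ‖j (2 ^ (3 * k + 1))‖ = 1 := by
      rw [map_pow, map_ofNat, norm_pow, YCls_two l hl, one_pow]
    have i1 : IsIntegral ℤ (φ π) := eφ π ▸ YCls_int π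
    have a1 := norm_int j i1
    have a2 := norm_int j (i1.map g)
    have a3 : φ π * g (φ π) = 2 ^ (3 * k + 1) := by
      have hn' : (p : Qb) ^ 2 + m * q ^ 2 = 2 ^ (3 * k + 1) := by exact_mod_cast hn
      rw [← eφ, hpq, ← hn']
      simp only [map_mul, map_add, map_ratCast, hg]
      linear_combination (-(q : Qb) ^ 2) * hs
    have a4 : ‖j (φ π)‖ * ‖j (g (φ π))‖ = 1 := by rw [← norm_mul, ← map_mul, a3, h2]
    rw [hβ, map_mul, norm_mul, h2, one_mul]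
    nlinarith [norm_nonneg (j (φ π)), norm_nonneg (j (g (φ π)))]
  · obtain ⟨l, hl, j, hj⟩ := prime_emb hm0 hs hP hP0
    have t0 : (2 : 𝓞 ℚ⟮s⟯) ∈ P * P' := by
      rw [hPP]
      exact Ideal.mem_span_singleton_self _
    have t1 : (2 : 𝓞 ℚ⟮s⟯) ∈ P := Ideal.mul_le_left t0
    obtain rfl : l = 2 := by
      by_contra h
      have h1 := (hj 2).1 t1
      rw [eφ, map_ofNat, map_ofNat, YCls_two l h] at h1
      exact lt_irrefl _ h1
    obtain ⟨c, c0, c1, hc⟩ := norm_mult hm0 hs hP hP0 hj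
    have v2 : ‖j 2‖ = c := by
      have h1 := hc 2 1 (by rwa [pow_one]) fun h => by
        have h2 : P * P' ≤ P * P := by
          rw [hPP, ← pow_two]
          exact (Ideal.span_singleton_le_iff_mem _).2 h
        have h3 : P' ≤ P := Ideal.dvd_iff_le.1 ((mul_dvd_mul_iff_left hP0).1 (Ideal.dvd_iff_le.2 h2))
        exact hP.ne_top (by rw [← hsup, sup_eq_left.2 h3])
      rwa [eφ, map_ofNat, pow_one] at h1
    have vπ : ‖j (φ π)‖ = c ^ (3 * k + 1) := by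
      rw [← eφ]
      refine hc π _ hmem fun h => ?_
      have h1 := Ideal.pow_right_strictAnti P hP0 hP.ne_top (Nat.lt_succ_self (3 * k + 1))
      refine h1.not_ge ?_
      change P ^ (3 * k + 1) ≤ _
      rw [hπ]
      exact (Ideal.span_singleton_le_iff_mem _).2 h
    refine ⟨j, fun z hz h => ?_⟩
    rw [hβ, map_mul, norm_mul, vπ, map_pow, norm_pow, v2] at h
    obtain ⟨a, b, hb, e⟩ := IsFractionRing.div_surjective (A := 𝓞 ℚ⟮s⟯) (⟨z, hz⟩ : ℚ⟮s⟯)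
    have hb0 : b ≠ 0 := nonZeroDivisors.ne_zero hb
    have ez : z = φ a / φ b := by
      have e' := congrArg (algebraMap ℚ⟮s⟯ Qb) e
      rw [map_div₀] at e'
      rw [← eφ, ← eφ]
      exact e'.symm
    have ha0 : a ≠ 0 := by
      rintro rfl
      rw [ez, map_zero, zero_div, map_zero, norm_zero, zero_pow three_ne_zero] at h
      exact (by positivity : 0 < c ^ (3 * k + 1) * c ^ (3 * k + 1)).ne' h
    obtain ⟨i, i1, i2⟩ := YCls_mult hP.ne_top ha0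
    obtain ⟨i', i1', i2'⟩ := YCls_mult hP.ne_top hb0
    have va := hc a i i1 i2
    have vb := hc b i' i1' i2'
    rw [eφ] at va vb
    rw [ez, map_div₀, norm_div, va, vb, div_pow, eq_div_iff (by positivity), ← pow_mul, ← pow_mul,
      ← pow_add, ← pow_add] at h
    have h1 := pow_right_injective₀ c0 c1.ne h
    omega

end Pool.Agent.Work.MP_dd0d16_nt.LC
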