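import Pool.Agent.Work.MP_dd0d16_nt.Defs

/-!
Definitions used in the statement on Leopoldt's conjecture at 3 for cubic fields.
-/

set_option autoImplicit false

namespace Pool.Agent.Work.MP_dd0d16_nt.LC

open NumberField

/-- The totally real cubic subfields of the algebraic closure of the rationals that are not Galois
over the rationals and whose discriminant has absolute value at most `X`. -/
def Cubic (X : ℝ) : Set (IntermediateField ℚ (AlgebraicClosure ℚ)) :=
  {K | ∃ _ : NumberField K, Module.finrank ℚ K = 3 ∧ IsTotallyReal K ∧ ¬ IsGalois ℚ K ∧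
    (|discr K| : ℝ) ≤ X}

/-- For any two multiplicatively independent units of `K` and any two distinct embeddings of `K`
in the algebraic closure of the 3-adic numbers, the two by two matrix of logarithms has nonzero
determinant. -/
def Leop (L : PadicAlgCl 3 → PadicAlgCl 3) (K : IntermediateField ℚ (AlgebraicClosure ℚ)) : Prop :=
  ∀ u v : (𝓞 K)ˣ, (∀ a b : ℤ, u ^ a * v ^ b = 1 → a = 0 ∧ b = 0) →
    ∀ σ τ : K →+* PadicAlgCl 3, σ ≠ τ →
      Matrix.det !![L (σ (u : 𝓞 K)), L (σ (v : 𝓞 K)); L (τ (u : 𝓞 K)), L (τ (v : 𝓞 K))] ≠ 0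

end Pool.Agent.Work.MP_dd0d16_nt.LC
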