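import Pool.Agent.Work.MP_dd0d16_nt.L.Kd

/-!
Devissage of elements of norm one of the cubic field modulo cubes.
-/

set_option autoImplicit false

namespace Pool.Agent.Work.MP_dd0d16_nt.LC

namespace KD

variable (d : KD) {ε : Qb}

theorem YDev_fix {a : Qb} (ha : a ∈ d.N) (h : d.σ a = a) : d.σ (d.τ a) = d.τ a :=
  (congrArg d.σ ((congrArg d.τ h).symm.trans (d.τσ (d.N_le_M ha)))).trans
    (d.σ3 (d.N_le_M (d.N_stab d.τ ha)))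

theorem YDev_tau (hε : ε ∈ d.K) :
    d.τ (d.σ ε) = d.σ (d.σ ε) ∧ d.τ (d.σ (d.σ ε)) = d.σ ε := by
  have h := d.N_le_M (d.K_le_N hε)
  have e : d.τ (d.σ ε) = d.σ (d.σ ε) := by rw [d.τσ h, d.τ_K hε]
  exact ⟨e, by rw [d.τσ (d.M_stab _ h), e, d.σ3 (d.M_stab _ h)]⟩

theorem YDev_int {q : ℚ} (h : IsIntegral ℤ (q : Qb)) : ∃ a : ℤ, (a : ℚ) = q :=
  IsIntegrallyClosed.isIntegral_iff.1
    ((isIntegral_algebraMap_iff (algebraMap ℚ Qb).injective).1 h)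

theorem h90 {x : Qb} (hx : x ∈ d.N) (h : x * d.σ x * d.σ (d.σ x) = 1) :
    ∃ γ ∈ d.N, γ ≠ 0 ∧ x * d.σ γ = γ := by
  have ht : d.t ∈ d.N := d.K_le_N (IntermediateField.mem_adjoin_simple_self ℚ _)
  by_contra! H
  have H' (k : ℕ) : d.t ^ k + x * d.σ d.t ^ k + x * d.σ x * d.σ (d.σ d.t) ^ k = 0 :=
    not_not.1 fun e => H _ (add_mem (add_mem (pow_mem ht k) (mul_mem hx (pow_mem (d.N_stab _ ht) k)))
      (mul_mem (mul_mem hx (d.N_stab _ hx)) (pow_mem (d.N_stab _ (d.N_stab _ ht)) k))) e (by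
        simp only [map_add, map_mul, map_pow, d.σ3 (d.N_le_M ht)]
        linear_combination d.t ^ k * h)
  exact mul_ne_zero (sub_ne_zero.2 d.t_ne.1) (sub_ne_zero.2 d.t_ne.2.1) (by
    linear_combination H' 2 - (d.σ d.t + d.σ (d.σ d.t)) * H' 1 + d.σ d.t * d.σ (d.σ d.t) * H' 0)

theorem dev1 (hε : ε ∈ d.K) (h : ε * d.σ ε * d.σ (d.σ ε) = 1) :
    ∃ α ∈ d.k, ∃ y ∈ d.N, ∃ x : ℚ, α ≠ 0 ∧ y ≠ 0 ∧ d.σ (d.σ ε) = d.σ ε * α * y ^ 3 ∧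
      α * d.τ α = (x : Qb) ^ 3 := by
  have h0 : ε ≠ 0 := fun e => by simp [e] at h
  have hN := d.K_le_N hε
  obtain ⟨γ, g1, g2, g3⟩ := d.h90 (inv_mem hN) (by
    rw [map_inv₀, map_inv₀, ← mul_inv, ← mul_inv, h, inv_one])
  rw [inv_mul_eq_iff_eq_mul₀ h0] at g3
  have g4 := d.σ3 (d.N_le_M g1)
  have z1 := d.N_stab d.σ (d.N_stab d.σ g1)
  have z0 : d.σ (d.σ γ) ≠ 0 := by simpa using g2
  have a1 := mul_mem (mul_mem g1 (d.N_stab d.σ g1)) z1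
  have a0 : γ * d.σ γ * d.σ (d.σ γ) ≠ 0 := by simpa using g2
  have a2 : d.σ (γ * d.σ γ * d.σ (d.σ γ)) = γ * d.σ γ * d.σ (d.σ γ) := by
    rw [map_mul, map_mul, g4]
    ring
  have e1 := congrArg d.σ g3
  have e2 := congrArg d.σ e1
  rw [map_mul] at e1
  rw [g4, map_mul, map_mul] at e2
  have e3 : d.σ (d.σ ε) * d.σ (d.σ γ) ^ 3 = d.σ ε * (γ * d.σ γ * d.σ (d.σ γ)) := by
    linear_combination γ * d.σ (d.σ γ) * e1 - d.σ (d.σ γ) ^ 2 * e2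
  generalize γ * d.σ γ * d.σ (d.σ γ) = α at a1 a0 a2 e3
  generalize d.σ (d.σ γ) = z at z1 z0 e3
  have e4 := congrArg d.τ e3
  rw [map_mul, map_mul, map_pow, (d.YDev_tau hε).1, (d.YDev_tau hε).2] at e4
  have e5 : α * d.τ α = (z * d.τ z) ^ 3 :=
    mul_left_cancel₀ (show d.σ ε * d.σ (d.σ ε) ≠ 0 by simpa using h0) (by
      linear_combination -(d.σ ε * d.τ z ^ 3) * e3 - d.σ ε * α * e4)
  have x1 := mul_mem z1 (d.N_stab d.τ z1)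
  have x0 : z * d.τ z ≠ 0 := by simpa using z0
  obtain ⟨x, hx⟩ := d.mem_Q x1 ((div_eq_one_iff_eq x0).1 (d.cube_N (div_mem (d.N_stab _ x1) x1) (by
      rw [div_pow, ← map_pow, ← e5, map_mul, a2, d.YDev_fix a1 a2, div_self (by simpa using a0)])))
    (by rw [map_mul, d.τ2 (d.N_le_M z1), mul_comm])
  refine ⟨α, d.mem_k a1 a2, z⁻¹, inv_mem z1, x, a0, inv_ne_zero z0, ?_, hx ▸ e5⟩
  rw [← e3, inv_pow, mul_inv_cancel_right₀ (pow_ne_zero _ z0)]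

theorem dev2 (hε : ε ∈ d.K) (h : ε * d.σ ε * d.σ (d.σ ε) = 1) {y : Qb} (hy : y ∈ d.N)
    (h' : d.σ (d.σ ε) = d.σ ε * y ^ 3) : ∃ c : ℚ, ∃ z ∈ d.K, ε = c * z ^ 3 := by
  have h0 : ε ≠ 0 := fun e => by simp [e] at h
  have hN := d.K_le_N hε
  have y1 := d.N_stab d.σ hy
  have y2 := d.N_stab d.σ y1
  have e1 := congrArg d.σ h'
  have e2 := congrArg d.σ e1
  simp only [map_mul, map_pow, d.σ3 (d.N_le_M hN)] at e1 e2
  obtain ⟨γ, g1, g2, g3⟩ := d.h90 y2 (by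
    rw [d.σ3 (d.N_le_M hy)]
    refine d.cube_N (mul_mem (mul_mem y2 hy) y1) (mul_left_cancel₀ h0 ?_)
    linear_combination -(y * d.σ y) ^ 3 * e2 - d.σ y ^ 3 * h' - e1)
  have c1 := mul_mem hN (pow_mem g1 3)
  have c2 : d.σ (ε * γ ^ 3) = ε * γ ^ 3 := by
    rw [map_mul, map_pow, e2, mul_assoc, ← mul_pow, g3]
  obtain ⟨q, hq⟩ := d.mem_Q (mul_mem c1 (d.N_stab d.τ c1)) (by rw [map_mul, c2, d.YDev_fix c1 c2])
    (by rw [map_mul, d.τ2 (d.N_le_M c1), mul_comm])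
  have q0 : (q : Qb) ≠ 0 := by simpa [← hq, h0] using g2
  rw [map_mul, map_pow, d.τ_K hε] at hq
  refine ⟨q⁻¹, ε * (γ * d.τ γ), d.mem_K (mul_mem hN (mul_mem g1 (d.N_stab _ g1))) (by
    rw [map_mul, map_mul, d.τ_K hε, d.τ2 (d.N_le_M g1), mul_comm γ]), ?_⟩
  rw [Rat.cast_inv, eq_inv_mul_iff_mul_eq₀ q0, ← hq]
  ring

theorem unit_norm (hε : ε ∈ d.K) (h0 : ε ≠ 0) (h1 : IsIntegral ℤ ε) (h2 : IsIntegral ℤ ε⁻¹) :
    ε * d.σ ε * d.σ (d.σ ε) = 1 ∨ ε * d.σ ε * d.σ (d.σ ε) = -1 := by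
  have hN := d.K_le_N hε
  obtain ⟨q, hq⟩ := d.mem_Q (mul_mem (mul_mem hN (d.N_stab d.σ hN)) (d.N_stab d.σ (d.N_stab d.σ hN)))
    (by rw [map_mul, map_mul, d.σ3 (d.N_le_M hN)]; ring)
    (by rw [map_mul, map_mul, d.τ_K hε, (d.YDev_tau hε).1, (d.YDev_tau hε).2]; ring)
  have H {x : Qb} (h : IsIntegral ℤ x) : IsIntegral ℤ (x * d.σ x * d.σ (d.σ x)) :=
    (h.mul (h.map d.σ)).mul ((h.map d.σ).map d.σ)
  obtain ⟨a, ha⟩ := YDev_int (hq ▸ H h1)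
  obtain ⟨b, hb⟩ := YDev_int (q := q⁻¹) (by
    have := H h2
    rwa [map_inv₀, map_inv₀, ← mul_inv, ← mul_inv, hq, ← Rat.cast_inv] at this)
  have q0 : q ≠ 0 := fun e => by simp [e, h0] at hq
  rw [hq, ← ha]
  exact (Int.eq_one_or_neg_one_of_mul_eq_one (v := b) (by
    exact_mod_cast (show (a : ℚ) * b = 1 by rw [ha, hb, mul_inv_cancel₀ q0]))).imp
    (fun e => by simp [e]) fun e => by simp [e]

end KD

end Pool.Agent.Work.MP_dd0d16_nt.LC
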