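import Pool.Agent.Work.MP_dd0d16_nt.L.Quad

/-!
The ring of integers of `ℚ⟮s⟯`, `s ^ 2 = -m`, `m` squarefree, `m ≡ 3 mod 4`.

PLAN. `nf_adjoin`: `IntermediateField.adjoin.finiteDimensional`. `int_quad`: `x = p + q s` (`mem_quad`); an automorphism
`g` of `Qb` with `g s = -s` exists (otherwise `s` is rational, `rat_of_fixed`), so `p - q s` is integral, `2 p` and
`p^2 + m q^2` are integers, `m (2 q)^2` is an integer and `m` is squarefree. `exists_basis`: `Basis.mk` with `1` and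
`(1 + s) / 2` (a root of `X^2 - X + (m + 1) / 4`). `absNorm_span`: `Ideal.absNorm_span_singleton`,
`Algebra.norm_eq_matrix_det`, `Algebra.leftMulMatrix_eq_repr_mul`. `ideal_basis`: `Ideal.selfBasis` (or any basis of `I`
indexed by `Fin 2`) and `Ideal.natAbs_det_basis_change`; with `λ_i = x_i + y_i (1 + s) / 2`, `p_i = x_i + y_i / 2`,
`q_i = y_i / 2`. `unit_quad`: `a^2 + m b^2 = 4`. `prime_emb`: `P ∩ ℤ = (l)`; for any `j` the set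
`{x | ‖j x‖ < 1}` is a prime `P_j` containing `l`; for `x ∈ P_j`, `x * g x` is an integer of norm `< 1`, so in `P`; hence
`P_j ≤ P` or `P_(j ∘ g) ≤ P` (if `x0 ∈ P_j` is not in `P`, use `x` or `x + x0`), with equality by maximality.
-/

set_option autoImplicit false

namespace Pool.Agent.Work.MP_dd0d16_nt.LC

open IntermediateField NumberField Module

variable {m : ℕ} {s : Qb}

theorem YEmb_emb (l : ℕ) [Fact l.Prime] : Nonempty (Qb →+* PadicAlgCl l) :=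
  haveI : Algebra.IsAlgebraic ℚ Qb := AlgebraicClosure.isAlgebraic ℚ
  ⟨(IsAlgClosed.lift : Qb →ₐ[ℚ] PadicAlgCl l).toRingHom⟩

theorem YEmb_int (x : 𝓞 ℚ⟮s⟯) : IsIntegral ℤ ((x : ℚ⟮s⟯) : Qb) :=
  x.isIntegral_coe.map (ℚ⟮s⟯.val.restrictScalars ℤ)

theorem YEmb_conj (hs : s ^ 2 = -(m : Qb)) {g : Gal} (hg : g s = -s) (x : 𝓞 ℚ⟮s⟯) :
    ∃ y : 𝓞 ℚ⟮s⟯, ((y : ℚ⟮s⟯) : Qb) = g ((x : ℚ⟮s⟯) : Qb) ∧
      ((x : ℚ⟮s⟯) : Qb) = g ((y : ℚ⟮s⟯) : Qb) := by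
  obtain ⟨p, q, h⟩ := mem_quad (D := -(m : ℚ)) (by rw [hs]; push_cast; rfl) (x : ℚ⟮s⟯).2
  have e : g ((x : ℚ⟮s⟯) : Qb) = p - q * s := by
    rw [h, map_add, map_mul, map_ratCast, map_ratCast, hg]; ring
  have hm : g ((x : ℚ⟮s⟯) : Qb) ∈ ℚ⟮s⟯ := by
    rw [e]
    exact sub_mem (SubfieldClass.ratCast_mem _ _)
      (mul_mem (SubfieldClass.ratCast_mem _ _) (mem_adjoin_simple_self ℚ s))
  have hi : IsIntegral ℤ (⟨_, hm⟩ : ℚ⟮s⟯) :=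
    (isIntegral_algHom_iff (ℚ⟮s⟯.val.restrictScalars ℤ) Subtype.val_injective).1
      ((YEmb_int x).map (g.toAlgHom.restrictScalars ℤ))
  refine ⟨⟨⟨_, hm⟩, hi⟩, rfl, ?_⟩
  change _ = g (g ((x : ℚ⟮s⟯) : Qb))
  rw [e, h, map_sub, map_mul, map_ratCast, map_ratCast, hg]; ring

theorem YEmb_norm (hs : s ^ 2 = -(m : Qb)) {g : Gal} (hg : g s = -s) {x y : 𝓞 ℚ⟮s⟯}
    (h : ((y : ℚ⟮s⟯) : Qb) = g ((x : ℚ⟮s⟯) : Qb)) : ∃ n : ℤ, x * y = n := by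
  obtain ⟨p, q, hx⟩ := mem_quad (D := -(m : ℚ)) (by rw [hs]; push_cast; rfl) (x : ℚ⟮s⟯).2
  have e : (((x * y : 𝓞 ℚ⟮s⟯) : ℚ⟮s⟯) : Qb) = algebraMap ℚ Qb (p ^ 2 + m * q ^ 2) := by
    change ((x : ℚ⟮s⟯) : Qb) * ((y : ℚ⟮s⟯) : Qb) = _
    rw [h, hx, map_add, map_mul, map_ratCast, map_ratCast, hg, eq_ratCast]
    push_cast
    linear_combination (-(q : Qb) ^ 2) * hs
  have hi := YEmb_int (x * y)
  rw [e, isIntegral_algebraMap_iff (algebraMap ℚ Qb).injective] at hi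
  obtain ⟨n, hn⟩ := IsIntegrallyClosed.algebraMap_eq_of_integral hi
  refine ⟨n, RingOfIntegers.ext (Subtype.ext ?_)⟩
  rw [e, ← hn]
  simp

/-- The prime of an embedding. -/
def YEmb_id {l : ℕ} [Fact l.Prime] (s : Qb) (j : Qb →+* PadicAlgCl l) : Ideal (𝓞 ℚ⟮s⟯) where
  carrier := {x | ‖j ((x : ℚ⟮s⟯) : Qb)‖ < 1}
  zero_mem' := by simp
  add_mem' := fun {a b} ha hb => by
    change ‖j (((a : ℚ⟮s⟯) : Qb) + ((b : ℚ⟮s⟯) : Qb))‖ < 1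
    rw [map_add]
    exact (IsUltrametricDist.norm_add_le_max _ _).trans_lt (max_lt ha hb)
  smul_mem' := fun a b hb => by
    change ‖j (((a : ℚ⟮s⟯) : Qb) * ((b : ℚ⟮s⟯) : Qb))‖ < 1
    rw [map_mul, norm_mul]
    exact mul_lt_one_of_nonneg_of_lt_one_right (norm_int j (YEmb_int a)) (norm_nonneg _) hb

theorem YEmb_cast {l : ℕ} [Fact l.Prime] (s : Qb) (j : Qb →+* PadicAlgCl l) (n : ℤ) :
    (n : 𝓞 ℚ⟮s⟯) ∈ YEmb_id s j ↔ (l : ℤ) ∣ n := by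
  change ‖j (((n : 𝓞 ℚ⟮s⟯) : ℚ⟮s⟯) : Qb)‖ < 1 ↔ _
  have e : j (((n : 𝓞 ℚ⟮s⟯) : ℚ⟮s⟯) : Qb) = algebraMap ℚ_[l] (PadicAlgCl l) (n : ℚ_[l]) := by
    simp
  rw [e, ← Padic.norm_intCast_lt_one_iff]
  exact (PadicAlgCl.norm_extends l _).symm ▸ Iff.rfl

theorem YEmb_max {l : ℕ} [Fact l.Prime] (s : Qb) (j : Qb →+* PadicAlgCl l) :
    (YEmb_id s j).IsMaximal := by
  have := nf_adjoin s
  have hp : (YEmb_id s j).IsPrime := by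
    refine ⟨(Ideal.ne_top_iff_one _).2 fun h => ?_, fun {a b} h => ?_⟩
    · have h' : ‖j (((1 : 𝓞 ℚ⟮s⟯) : ℚ⟮s⟯) : Qb)‖ < 1 := h
      simp at h'
    · have h' : ‖j (((a : ℚ⟮s⟯) : Qb) * ((b : ℚ⟮s⟯) : Qb))‖ < 1 := h
      rw [map_mul, norm_mul] at h'
      by_contra hc
      rw [not_or] at hc
      have h1 : 1 ≤ ‖j ((a : ℚ⟮s⟯) : Qb)‖ := not_lt.1 hc.1
      have h2 : 1 ≤ ‖j ((b : ℚ⟮s⟯) : Qb)‖ := not_lt.1 hc.2
      nlinarith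
  refine hp.isMaximal fun h => ?_
  have h1 := (YEmb_cast s j l).2 dvd_rfl
  rw [h, Ideal.mem_bot, Int.cast_eq_zero, Nat.cast_eq_zero] at h1
  exact (Fact.out : l.Prime).ne_zero h1

theorem prime_emb (hm : 0 < m) (hs : s ^ 2 = -(m : Qb)) {P : Ideal (𝓞 ℚ⟮s⟯)} (hP : P.IsPrime)
    (h0 : P ≠ ⊥) : ∃ (l : ℕ) (_ : Fact l.Prime) (j : Qb →+* PadicAlgCl l),
      ∀ x : 𝓞 ℚ⟮s⟯, x ∈ P ↔ ‖j ((x : ℚ⟮s⟯) : Qb)‖ < 1 := by
  have := nf_adjoin s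
  have : NeZero P := ⟨h0⟩
  have hl : Fact (Ideal.absNorm (P.under ℤ)).Prime := ⟨Nat.absNorm_under_prime P⟩
  have lP := Int.absNorm_under_mem P
  generalize Ideal.absNorm (P.under ℤ) = l at hl lP
  obtain ⟨j⟩ := YEmb_emb l
  obtain ⟨g, hg⟩ := exists_conj hm hs
  have key : ∀ x y : 𝓞 ℚ⟮s⟯, ((y : ℚ⟮s⟯) : Qb) = g ((x : ℚ⟮s⟯) : Qb) → x ∈ YEmb_id s j →
      x ∈ P ∨ y ∈ P := by
    intro x y h hx
    obtain ⟨n, hn⟩ := YEmb_norm hs hg h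
    have h1 := Ideal.mul_mem_right y _ hx
    rw [hn, YEmb_cast] at h1
    obtain ⟨k, rfl⟩ := h1
    refine hP.mem_or_mem ?_
    rw [hn]
    push_cast
    exact Ideal.mul_mem_right _ _ lP
  have fin : ∀ j' : Qb →+* PadicAlgCl l, YEmb_id s j' ≤ P → ∀ x : 𝓞 ℚ⟮s⟯,
      x ∈ P ↔ ‖j' ((x : ℚ⟮s⟯) : Qb)‖ < 1 := fun j' h x => by
    rw [← (YEmb_max s j').eq_of_le hP.ne_top h]
    rfl
  by_cases hc : YEmb_id s j ≤ P
  · exact ⟨l, hl, j, fin j hc⟩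
  refine ⟨l, hl, j.comp (g : Qb →+* Qb), fin _ fun y hy => ?_⟩
  obtain ⟨x, hx, hx'⟩ := SetLike.not_le_iff_exists.1 hc
  obtain ⟨x', a1, -⟩ := YEmb_conj hs hg x
  obtain ⟨y', b1, b2⟩ := YEmb_conj hs hg y
  have hy' : y' ∈ YEmb_id s j := by
    change ‖j ((y' : ℚ⟮s⟯) : Qb)‖ < 1
    rw [b1]; exact hy
  by_cases h : y' ∈ P
  · have h1 := (key (x + y') (x' + y) (by
      change ((x' : ℚ⟮s⟯) : Qb) + ((y : ℚ⟮s⟯) : Qb) = g (((x : ℚ⟮s⟯) : Qb) + ((y' : ℚ⟮s⟯) : Qb))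
      rw [map_add, ← a1, ← b2]) (add_mem hx hy')).resolve_left
        fun h2 => hx' ((Submodule.add_mem_iff_left _ h).1 h2)
    exact (Submodule.add_mem_iff_right _ ((key x x' a1 hx).resolve_left hx')).1 h1
  · exact (key y' y b2 hy').resolve_left h

end Pool.Agent.Work.MP_dd0d16_nt.LC
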