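import Pool.Agent.Work.MP_dd0d16_nt.L.Val

/-!
The ring of integers of `ℚ⟮s⟯`, `s ^ 2 = -m`, `m` squarefree, `m ≡ 3 mod 4`.

PLAN. `nf_adjoin`: `IntermediateField.adjoin.finiteDimensional`. `int_quad`: `x = p + q s` (`mem_quad`); an automorphism
`g` of `Qb` with `g s = -s` exists (otherwise `s` is rational, `rat_of_fixed`), so `p - q s` is integral, `2 p` and
`p^2 + m q^2` are integers, `m (2 q)^2` is an integer and `m` is squarefree. `exists_basis`: `Basis.mk` with `1` and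
`(1 + s) / 2` (a root of `X^2 - X + (m + 1) / 4`). `absNorm_span`: `Ideal.absNorm_span_singleton`,
`Algebra.norm_eq_matrix_det`, `Algebra.leftMulMatrix_eq_repr_mul`. `ideal_basis`: `Ideal.selfBasis` (or any basis of `I`
indexed by `Fin 2`) and `Ideal.natAbs_det_basis_change`; with `λ_i = x_i + y_i (1 + s) / 2`, `p_i = x_i + y_i / 2`,
`q_i = y_i / 2`. `unit_quad`: `a^2 + m b^2 = 4`. `prime_emb`: `P ∩ ℤ = (l)`; for any `j` the set
`{x | ‖j x‖ < 1}` is a prime `P_j` containing `l`; for `x ∈ P_j`, `x * g x` is an integer of norm `< 1`, so in `P`; hence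
`P_j ≤ P` or `P_(j ∘ g) ≤ P` (if `x0 ∈ P_j` is not in `P`, use `x` or `x + x0`), with equality by maximality.
-/

set_option autoImplicit false

namespace Pool.Agent.Work.MP_dd0d16_nt.LC

open IntermediateField NumberField Module

theorem nf_adjoin (s : Qb) : NumberField ℚ⟮s⟯ := by
  have : FiniteDimensional ℚ ℚ⟮s⟯ :=
    IntermediateField.adjoin.finiteDimensional
      ((AlgebraicClosure.isAlgebraic ℚ).isAlgebraic s).isIntegral
  exact NumberField.mk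

variable {m : ℕ} {s : Qb}

theorem exists_conj (hm : 0 < m) (hs : s ^ 2 = -(m : Qb)) : ∃ g : Gal, g s = -s := by
  by_contra h
  obtain ⟨q, rfl⟩ := rat_of_fixed (x := s) fun g => by
    have h1 : (g s) ^ 2 = s ^ 2 := by rw [← map_pow, hs, map_neg, map_natCast]
    exact (sq_eq_sq_iff_eq_or_eq_neg.1 h1).resolve_right fun e => h ⟨g, e⟩
  have h1 : q ^ 2 = -(m : ℚ) := by exact_mod_cast hs
  have h2 : (0 : ℚ) < m := by exact_mod_cast hm
  nlinarith [sq_nonneg q]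

theorem YQuad_uniq (hm : 0 < m) (hs : s ^ 2 = -(m : Qb)) {p q p' q' : ℚ}
    (h : (p : Qb) + q * s = p' + q' * s) : p = p' ∧ q = q' := by
  obtain ⟨g, hg⟩ := exists_conj hm hs
  have h1 := congrArg g h
  simp only [map_add, map_mul, map_ratCast, hg] at h1
  have h2 : (p : Qb) = p' := by linear_combination (h + h1) / 2
  have s0 : s ≠ 0 := fun e => by
    rw [e] at hs
    have : (m : Qb) = 0 := by linear_combination hs
    exact hm.ne' (by exact_mod_cast this)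
  have h3 : (q : Qb) = q' := mul_right_cancel₀ s0 (by linear_combination h - h2)
  exact ⟨by exact_mod_cast h2, by exact_mod_cast h3⟩

theorem YQuad_int {q : ℚ} (h : IsIntegral ℤ (q : Qb)) : ∃ a : ℤ, q = a := by
  have h1 : IsIntegral ℤ q :=
    (isIntegral_algebraMap_iff (algebraMap ℚ Qb).injective).1 h
  obtain ⟨a, ha⟩ := IsIntegrallyClosed.isIntegral_iff.1 h1
  exact ⟨a, ha.symm⟩

theorem YQuad_sq (hq : Squarefree m) {r : ℚ} {c : ℤ} (h : m * r ^ 2 = c) : ∃ b : ℤ, r = b := by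
  have h0 : (r.den : ℚ) ≠ 0 := by exact_mod_cast r.den_nz
  have h1 : (m : ℚ) * r.num ^ 2 = r.den ^ 2 * c := by
    rw [← h, ← Rat.mul_den_eq_num]
    ring
  have h2 : (m : ℤ) * r.num ^ 2 = r.den ^ 2 * c := by exact_mod_cast h1
  have h3 : IsCoprime ((r.den : ℤ) ^ 2) (r.num ^ 2) :=
    (Int.isCoprime_iff_gcd_eq_one.2 (show Int.gcd r.num r.den = 1 from r.reduced)).symm.pow
  have h4 : (r.den : ℤ) ^ 2 ∣ m := h3.dvd_of_dvd_mul_right ⟨c, h2⟩
  have h5 : r.den * r.den ∣ m := by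
    rw [← sq]
    exact_mod_cast h4
  exact ⟨r.num, ((Rat.coe_int_num_of_den_eq_one (Nat.isUnit_iff.1 (hq _ h5)))).symm⟩

theorem int_quad (hm : m % 4 = 3) (hq : Squarefree m) (hs : s ^ 2 = -(m : Qb)) {x : Qb}
    (hx : x ∈ ℚ⟮s⟯) (hi : IsIntegral ℤ x) : ∃ a b : ℤ, x = a + b * ((1 + s) / 2) := by
  obtain ⟨p, q, rfl⟩ := mem_quad (D := -m) (by rw [hs]; push_cast; rfl) hx
  obtain ⟨g, hg⟩ := exists_conj (by omega) hs
  have h1 : IsIntegral ℤ ((p : Qb) - q * s) := by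
    have := hi.map (g.toAlgHom.restrictScalars ℤ)
    simp only [AlgHom.coe_restrictScalars', AlgEquiv.coe_toAlgHom, map_add, map_mul, map_ratCast,
      hg] at this
    rwa [mul_neg, ← sub_eq_add_neg] at this
  obtain ⟨A, hA⟩ := YQuad_int (q := 2 * p) (by
    have e : ((2 * p : ℚ) : Qb) = p + q * s + (p - q * s) := by push_cast; ring
    rw [e]
    exact hi.add h1)
  obtain ⟨N, hN⟩ := YQuad_int (q := p ^ 2 + m * q ^ 2) (by
    have e : ((p ^ 2 + m * q ^ 2 : ℚ) : Qb) = (p + q * s) * (p - q * s) := by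
      push_cast
      linear_combination (q : Qb) ^ 2 * hs
    rw [e]
    exact hi.mul h1)
  obtain ⟨B, hB⟩ := YQuad_sq hq (r := 2 * q) (c := 4 * N - A ^ 2) (by
    push_cast
    rw [← hA, ← hN]
    ring)
  have h2 : (A : ℚ) ^ 2 + m * B ^ 2 = 4 * N := by
    rw [← hA, ← hB, ← hN]
    ring
  have h3 : A ^ 2 + m * B ^ 2 = 4 * N := by exact_mod_cast h2
  obtain ⟨k, rfl⟩ : ∃ k, m = 4 * k + 3 := ⟨m / 4, by omega⟩
  have h4 : Even (A - B) := by
    have h5 : Even ((A - B) * (A - B)) :=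
      ⟨2 * N - (2 * k + 1) * B ^ 2 - A * B, by push_cast at h3; linear_combination h3⟩
    exact (or_self_iff.1 (Int.even_mul.1 h5))
  obtain ⟨a, ha⟩ := h4
  refine ⟨a, B, ?_⟩
  have e1 : (2 : Qb) * p = A := by exact_mod_cast congrArg (fun t : ℚ => (t : Qb)) hA
  have e2 : (2 : Qb) * q = B := by exact_mod_cast congrArg (fun t : ℚ => (t : Qb)) hB
  have e3 : (A : Qb) - B = a + a := by exact_mod_cast congrArg (fun t : ℤ => (t : Qb)) ha
  linear_combination e1 / 2 + e2 * s / 2 + e3 / 2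

/-- The inclusion of the ring of integers. -/
noncomputable def YQuad_c (s : Qb) : 𝓞 ℚ⟮s⟯ →+* Qb :=
  (algebraMap ℚ⟮s⟯ Qb).comp (algebraMap (𝓞 ℚ⟮s⟯) ℚ⟮s⟯)

theorem YQuad_inj (s : Qb) : Function.Injective (YQuad_c s) :=
  (algebraMap ℚ⟮s⟯ Qb).injective.comp RingOfIntegers.coe_injective

theorem YQuad_ω {k : ℕ} (hs : s ^ 2 = -((4 * k + 3 : ℕ) : Qb)) :
    ((1 + s) / 2) ^ 2 - (1 + s) / 2 + (k + 1) = 0 := by
  push_cast at hs
  linear_combination hs / 4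

theorem exists_basis (hm : m % 4 = 3) (hq : Squarefree m) (hs : s ^ 2 = -(m : Qb)) :
    ∃ b : Basis (Fin 2) ℤ (𝓞 ℚ⟮s⟯), ((b 0 : ℚ⟮s⟯) : Qb) = 1 ∧ ((b 1 : ℚ⟮s⟯) : Qb) = (1 + s) / 2 := by
  have hm0 : 0 < m := by omega
  have hw : IsIntegral ℤ ((1 + s) / 2) := by
    obtain ⟨k, rfl⟩ : ∃ k, m = 4 * k + 3 := ⟨m / 4, by omega⟩
    refine ⟨Polynomial.X ^ 2 - Polynomial.X + Polynomial.C ((k : ℤ) + 1), by monicity!, ?_⟩
    simpa using YQuad_ω hs
  have hmem : (1 + s) / 2 ∈ ℚ⟮s⟯ :=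
    div_mem (add_mem (one_mem _) (mem_adjoin_simple_self ℚ s)) (ofNat_mem _ 2)
  obtain ⟨w, hw⟩ : ∃ w : 𝓞 ℚ⟮s⟯, YQuad_c s w = (1 + s) / 2 :=
    ⟨⟨⟨_, hmem⟩, (isIntegral_algebraMap_iff (algebraMap ℚ⟮s⟯ Qb).injective).1 hw⟩, rfl⟩
  have h1 : LinearIndependent ℤ ![1, w] := by
    refine LinearIndependent.pair_iff.2 fun a b h => ?_
    have h2 := congrArg (YQuad_c s) h
    rw [map_add, map_zsmul, map_zsmul, map_one, hw, map_zero, zsmul_eq_mul, zsmul_eq_mul] at h2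
    obtain ⟨h3, h4⟩ := YQuad_uniq hm0 hs (p := a + b / 2) (q := b / 2) (p' := 0) (q' := 0) (by
      push_cast
      linear_combination h2)
    have h5 : (b : ℚ) = 0 := by linarith
    have h6 : (a : ℚ) = 0 := by linarith
    exact ⟨by exact_mod_cast h6, by exact_mod_cast h5⟩
  have h2 : ⊤ ≤ Submodule.span ℤ (Set.range ![1, w]) := fun x _ => by
    obtain ⟨a, b, h⟩ := int_quad hm hq hs (x := YQuad_c s x) (x : ℚ⟮s⟯).2
      ((isIntegral_algebraMap_iff (algebraMap ℚ⟮s⟯ Qb).injective).2 x.2)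
    refine (Submodule.mem_span_range_iff_exists_fun ℤ).2 ⟨![a, b], YQuad_inj s ?_⟩
    rw [h, Fin.sum_univ_two, map_add, map_zsmul, map_zsmul]
    simp [hw]
  refine ⟨Basis.mk h1 h2, ?_, ?_⟩
  · rw [Basis.mk_apply]
    exact map_one (YQuad_c s)
  · rw [Basis.mk_apply]
    exact hw

theorem YQuad_repr {b : Basis (Fin 2) ℤ (𝓞 ℚ⟮s⟯)} (h0 : YQuad_c s (b 0) = 1)
    (h1 : YQuad_c s (b 1) = (1 + s) / 2) (x : 𝓞 ℚ⟮s⟯) :
    YQuad_c s x = (b.repr x 0 + b.repr x 1 / 2 : ℚ) + (b.repr x 1 / 2 : ℚ) * s := by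
  conv_lhs => rw [← b.sum_repr x, Fin.sum_univ_two, map_add, map_zsmul, map_zsmul, h0, h1,
    zsmul_eq_mul, zsmul_eq_mul]
  push_cast
  ring

theorem absNorm_span (hm : m % 4 = 3) (hq : Squarefree m) (hs : s ^ 2 = -(m : Qb))
    [NumberField ℚ⟮s⟯] (x : 𝓞 ℚ⟮s⟯) {p q : ℚ} (h : ((x : ℚ⟮s⟯) : Qb) = p + q * s) :
    (Ideal.absNorm (Ideal.span {x}) : ℚ) = p ^ 2 + m * q ^ 2 := by
  have hm0 : 0 < m := by omega
  obtain ⟨b, h0, h1⟩ := exists_basis hm hq hs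
  change YQuad_c s _ = _ at h h0 h1
  have k0 := YQuad_repr h0 h1 (x * b 0)
  have k1 := YQuad_repr h0 h1 (x * b 1)
  rw [map_mul, h, h0, mul_one] at k0
  rw [map_mul, h, h1] at k1
  obtain ⟨a0, a1⟩ := YQuad_uniq hm0 hs k0
  obtain ⟨a2, a3⟩ := YQuad_uniq hm0 hs (p := (p - m * q) / 2) (q := (p + q) / 2)
    (Eq.trans (by push_cast; linear_combination (-(q : Qb) / 2) * hs) k1)
  have e : ((Algebra.norm ℤ x : ℤ) : ℚ) = p ^ 2 + m * q ^ 2 := by
    rw [Algebra.norm_eq_matrix_det b, Matrix.det_fin_two]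
    simp only [Algebra.leftMulMatrix_eq_repr_mul]
    push_cast
    have c1 : (b.repr (x * b 0) 1 : ℚ) = 2 * q := by linarith
    have c0 : (b.repr (x * b 0) 0 : ℚ) = p - q := by linarith
    have c3 : (b.repr (x * b 1) 1 : ℚ) = p + q := by linarith
    have c2 : (b.repr (x * b 1) 0 : ℚ) = -(m + 1) * q / 2 := by linarith
    rw [c0, c1, c2, c3]
    ring
  rw [Ideal.absNorm_span_singleton, Nat.cast_natAbs, Int.cast_abs, e, abs_of_nonneg (by positivity)]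

theorem ideal_basis (hm : m % 4 = 3) (hq : Squarefree m) (hs : s ^ 2 = -(m : Qb))
    [NumberField ℚ⟮s⟯] {I : Ideal (𝓞 ℚ⟮s⟯)} (hI : I ≠ ⊥) :
    ∃ x₁ ∈ I, ∃ x₂ ∈ I, ∃ p₁ q₁ p₂ q₂ : ℚ, ((x₁ : ℚ⟮s⟯) : Qb) = p₁ + q₁ * s ∧
      ((x₂ : ℚ⟮s⟯) : Qb) = p₂ + q₂ * s ∧ 2 * |p₁ * q₂ - p₂ * q₁| = Ideal.absNorm I := by
  obtain ⟨b, h0, h1⟩ := exists_basis hm hq hs
  have h := Ideal.natAbs_det_basis_change b I (Ideal.selfBasis b I hI)
  refine ⟨_, (Ideal.selfBasis b I hI 0).2, _, (Ideal.selfBasis b I hI 1).2, _, _, _, _,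
    YQuad_repr h0 h1 _, YQuad_repr h0 h1 _, ?_⟩
  rw [← h, Nat.cast_natAbs, Int.cast_abs, Basis.det_apply, Matrix.det_fin_two,
    ← abs_of_pos (two_pos : (0 : ℚ) < 2), ← abs_mul, abs_two]
  simp only [Basis.toMatrix_apply, Function.comp_apply]
  push_cast
  congr 1
  ring

theorem unit_quad (hm : m % 4 = 3) (h7 : 7 ≤ m) (hq : Squarefree m) (hs : s ^ 2 = -(m : Qb))
    (u : (𝓞 ℚ⟮s⟯)ˣ) : u = 1 ∨ u = -1 := by
  have := nf_adjoin s
  obtain ⟨b, h0, h1⟩ := exists_basis hm hq hs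
  have k := YQuad_repr h0 h1 u
  have h := absNorm_span hm hq hs u k
  rw [Ideal.span_singleton_eq_top.2 u.isUnit, Ideal.absNorm_top] at h
  generalize b.repr u 0 = a at k h
  generalize b.repr u 1 = c at k h
  have h2 : (2 * a + c : ℚ) ^ 2 + m * c ^ 2 = 4 := by
    push_cast at h
    linear_combination -4 * h
  have h3 : (2 * a + c) ^ 2 + m * c ^ 2 = 4 := by exact_mod_cast h2
  have h7' : (7 : ℤ) ≤ m := by exact_mod_cast h7
  obtain rfl : c = 0 := by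
    by_contra hc
    have : 0 < c ^ 2 := by positivity
    nlinarith [sq_nonneg (2 * a + c)]
  have h4 : a * a = 1 := by nlinarith
  rcases Int.eq_one_or_neg_one_of_mul_eq_one h4 with rfl | rfl
  · exact Or.inl (Units.ext (YQuad_inj s (by simpa using k)))
  · exact Or.inr (Units.ext (YQuad_inj s (by simpa using k)))

end Pool.Agent.Work.MP_dd0d16_nt.LC
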