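import Pool.Agent.Work.MP_dd0d16_nt.L.Dev
import Pool.Agent.Work.MP_dd0d16_nt.L.Quad

/-!
The cubic field of a Kummer datum.

PLAN. `finrank_K`: `t^3 - 3 n t - 2 u = 0`, and the minimal polynomial has the three distinct roots `t, σ t, σ² t`
(`t_ne`); `IntermediateField.adjoin.finrank`. `not_galois`: `σ t` is a root of the minimal polynomial, so it would lie in
`K` (`Normal`), but `τ` fixes `K` and `τ σ t = σ² t ≠ σ t`. `trace_K`: the three maps `σ^i` restricted to `K` are all the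
embeddings (`AlgHom.card`, `trace_eq_sum_embeddings`). `noncube_unit`: the unit rank of a cubic field is positive
(`NumberField.Units.rank`, `InfinitePlace.card_add_two_mul_card_eq_rank`,
`card_eq_nrRealPlaces_add_nrComplexPlaces`); a member of `NumberField.Units.fundSystem` (or a lift of a member of
`basisModTorsion`) is not plus or minus a cube of a unit; change its sign by `unit_norm`; a cube root in `K` of a unit is a
unit. `discr_K`: `b = (1, s₁, s₂)` with `s_i = λ_i θ + λ_i' n / θ ∈ K` (`lin_mem_K`), integral because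
`(λ θ)^3 = λ^3 (u + v s)` and `(λ' n / θ)^3 = λ'^3 (u - v s)` are (`IsIntegral.of_pow`); traces: `Tr 1 = 3`, `Tr s_i = 0`,
`Tr (s_i s_j) = 3 n (λ_i λ_j' + λ_i' λ_j) = 6 n (p_i p_j - D q_i q_j)`; so
`Algebra.discr ℚ b = -108 D n^2 (p₁ q₂ - p₂ q₁)^2`; write `b` in the integral basis with an integer matrix
(`Algebra.discr_of_matrix_mulVec` or `..._vecMul`, `NumberField.coe_discr`). `real_of_discr`: `NumberField.sign_discr`,
`r₁ + 2 r₂ = 3`, `nrComplexPlaces_eq_zero_iff`.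
-/

set_option autoImplicit false

namespace Pool.Agent.Work.MP_dd0d16_nt.LC

open IntermediateField NumberField Module

theorem real_of_discr (K : Type) [Field K] [NumberField K] (h3 : finrank ℚ K = 3)
    (h : 0 < discr K) : IsTotallyReal K := by
  have h1 := sign_discr K
  have h2 := InfinitePlace.card_add_two_mul_card_eq_rank K
  rw [Int.sign_eq_one_of_pos h] at h1
  rw [← nrComplexPlaces_eq_zero_iff]
  by_contra h0
  have h4 : InfinitePlace.nrComplexPlaces K = 1 := by omega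
  rw [h4] at h1
  norm_num at h1

theorem YField_unit (K : Type) [Field K] [NumberField K] (h : finrank ℚ K = 3) :
    ∃ η : (𝓞 K)ˣ, ∀ z : (𝓞 K)ˣ, η ≠ z ^ 3 := by
  have h2 := InfinitePlace.card_add_two_mul_card_eq_rank K
  have h3 := InfinitePlace.card_eq_nrRealPlaces_add_nrComplexPlaces K
  have h4 : 0 < Units.rank K := by
    rw [Units.rank]
    omega
  refine ⟨Units.fundSystem K ⟨0, h4⟩, fun z e => ?_⟩
  obtain ⟨⟨ζ, a⟩, k, -⟩ := Units.exist_unique_eq_mul_prod K z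
  have k2 := (Units.exist_unique_eq_mul_prod K (Units.fundSystem K ⟨0, h4⟩)).unique
    (y₁ := (ζ ^ 3, fun i => a i * 3)) (y₂ := (1, Pi.single ⟨0, h4⟩ 1)) (by
      rw [e, k, mul_pow, ← Finset.prod_pow]
      simp only [zpow_mul]
      rfl) (by
      rw [Finset.prod_eq_single ⟨0, h4⟩ (fun j _ hj => by simp [hj]) (by simp)]
      simp)
  have k3 := congrFun (congrArg Prod.snd k2) ⟨0, h4⟩
  simp only [Pi.single_eq_same] at k3
  omega

namespace KD

variable (d : KD)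

theorem nf : NumberField d.K := nf_adjoin d.t

theorem YField_B : ((d.n : Qb) / d.θ) ^ 3 = d.u - d.v * d.s := by
  have h : ((d.u : Qb)) ^ 2 - d.D * d.v ^ 2 = d.n ^ 3 := by exact_mod_cast congrArg (Rat.cast : ℚ → Qb) d.hn
  rw [div_pow, div_eq_iff (pow_ne_zero 3 d.θ0), d.hθ]
  linear_combination -h + (d.v : Qb) ^ 2 * d.hs

/-- The three embeddings. -/
noncomputable def YField_e : Fin 3 → (d.K →ₐ[ℚ] Qb) :=
  ![d.K.val, (d.σ : Qb →ₐ[ℚ] Qb).comp d.K.val,
    (d.σ : Qb →ₐ[ℚ] Qb).comp ((d.σ : Qb →ₐ[ℚ] Qb).comp d.K.val)]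

theorem YField_inj : Function.Injective d.YField_e := by
  intro i j h
  have k := DFunLike.congr_fun h ⟨d.t, mem_adjoin_simple_self ℚ d.t⟩
  obtain ⟨h1, h2, h3⟩ := d.t_ne
  fin_cases i <;> fin_cases j <;> first
    | rfl
    | exact (h1 k).elim
    | exact (h1 k.symm).elim
    | exact (h2 k).elim
    | exact (h2 k.symm).elim
    | exact (h3 k).elim
    | exact (h3 k.symm).elim

theorem finrank_K : finrank ℚ d.K = 3 := by
  have := d.nf
  refine le_antisymm ?_ ?_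
  · have hi : IsIntegral ℚ d.t := ((AlgebraicClosure.isAlgebraic ℚ).isAlgebraic d.t).isIntegral
    rw [K, adjoin.finrank hi]
    have hm : (Polynomial.X ^ 3 - (Polynomial.C (3 * d.n) * Polynomial.X + Polynomial.C (2 * d.u)) :
        Polynomial ℚ).Monic := by monicity!
    have hd : (Polynomial.X ^ 3 - (Polynomial.C (3 * d.n) * Polynomial.X + Polynomial.C (2 * d.u)) :
        Polynomial ℚ).natDegree ≤ 3 := by compute_degree
    refine (Polynomial.natDegree_le_of_dvd (minpoly.dvd ℚ d.t ?_) hm.ne_zero).trans hd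
    have h1 := d.YField_B
    have h2 := d.hθ
    have h3 : d.θ * (d.n / d.θ) = d.n := mul_div_cancel₀ _ d.θ0
    simp only [map_sub, map_add, map_mul, map_pow, Polynomial.aeval_X, Polynomial.aeval_C, eq_ratCast,
      Rat.cast_ofNat, t]
    linear_combination h1 + h2 + 3 * (d.θ + d.n / d.θ) * h3
  · rw [← AlgHom.card ℚ d.K Qb]
    simpa using Fintype.card_le_of_injective _ d.YField_inj

theorem not_galois : ¬ IsGalois ℚ d.K := by
  intro h
  have : IsAlgClosure ℚ Qb := ⟨inferInstance, AlgebraicClosure.isAlgebraic ℚ⟩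
  have ht : d.t ∈ d.K := mem_adjoin_simple_self ℚ d.t
  have h1 : d.σ d.t ∈ d.K :=
    (normal_iff_forall_map_le'.1 h.to_normal) d.σ ⟨d.t, ht, rfl⟩
  have h2 := d.τσ (d.N_le_M (d.K_le_N ht))
  rw [d.τ_K h1, d.τ_K ht] at h2
  exact d.t_ne.2.2 h2.symm

theorem trace_K (x : d.K) :
    ((Algebra.trace ℚ d.K x : ℚ) : Qb) = x + d.σ x + d.σ (d.σ x) := by
  have := d.nf
  have hb : Function.Bijective d.YField_e := (Fintype.bijective_iff_injective_and_card _).2
    ⟨d.YField_inj, by rw [AlgHom.card, d.finrank_K, Fintype.card_fin]⟩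
  have h := trace_eq_sum_embeddings Qb (K := ℚ) (x := x)
  rw [eq_ratCast] at h
  rw [h, ← hb.sum_comp fun g => g x, Fin.sum_univ_three]
  rfl

theorem noncube_unit : ∃ ε ∈ d.K, IsIntegral ℤ ε ∧ IsIntegral ℤ ε⁻¹ ∧
    ε * d.σ ε * d.σ (d.σ ε) = 1 ∧ ∀ z ∈ d.K, ε ≠ z ^ 3 := by
  have := d.nf
  obtain ⟨η, hη⟩ := YField_unit d.K d.finrank_K
  have val : ∀ y : 𝓞 d.K, IsIntegral ℤ ((y : d.K) : Qb) := fun y =>
    y.isIntegral_coe.map (d.K.val.restrictScalars ℤ)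
  have key : ∀ η : (𝓞 d.K)ˣ, (∀ z : (𝓞 d.K)ˣ, η ≠ z ^ 3) → ∀ ε : Qb, ε = ((η : 𝓞 d.K) : d.K) →
      ε ∈ d.K ∧ ε ≠ 0 ∧ IsIntegral ℤ ε ∧ IsIntegral ℤ ε⁻¹ ∧ ∀ z ∈ d.K, ε ≠ z ^ 3 := by
    rintro η hη _ rfl
    have e1 : (((η : 𝓞 d.K) : d.K) : Qb) * (((η⁻¹ : (𝓞 d.K)ˣ) : 𝓞 d.K) : d.K) = 1 := by
      exact congrArg (fun y : 𝓞 d.K => ((y : d.K) : Qb)) η.mul_inv
    have i2 : IsIntegral ℤ (((η : 𝓞 d.K) : d.K) : Qb)⁻¹ := by
      rw [← eq_inv_of_mul_eq_one_right e1]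
      exact val _
    have e0 := left_ne_zero_of_mul_eq_one e1
    refine ⟨SetLike.coe_mem _, e0, val _, i2, fun z hz e => ?_⟩
    have z0 : z ≠ 0 := fun k => e0 (by rw [e, k]; norm_num)
    have j1 : IsIntegral ℤ (⟨z, hz⟩ : d.K) := (isIntegral_algHom_iff (d.K.val.restrictScalars ℤ)
      Subtype.val_injective).1 (IsIntegral.of_pow (n := 3) (by norm_num) (e ▸ val _))
    have j2 : IsIntegral ℤ (⟨z⁻¹, d.K.inv_mem hz⟩ : d.K) :=
      (isIntegral_algHom_iff (d.K.val.restrictScalars ℤ) Subtype.val_injective).1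
        (IsIntegral.of_pow (n := 3) (by norm_num) (by
          rw [e, ← inv_pow] at i2
          exact i2))
    have m : (⟨_, j1⟩ : 𝓞 d.K) * ⟨_, j2⟩ = 1 := Subtype.ext (Subtype.ext (mul_inv_cancel₀ z0))
    exact hη (Units.mkOfMulEqOne _ _ m) (Units.ext (Subtype.ext (Subtype.ext e)))
  obtain ⟨a1, a2, a3, a4, a5⟩ := key η hη _ rfl
  rcases d.unit_norm a1 a2 a3 a4 with h | h
  · exact ⟨_, a1, a3, a4, h, a5⟩
  · refine ⟨-_, d.K.neg_mem a1, a3.neg, by rw [inv_neg]; exact a4.neg, ?_, fun z hz e => ?_⟩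
    · rw [map_neg, map_neg]
      linear_combination -h
    · exact a5 (-z) (d.K.neg_mem hz) (by linear_combination -e)

theorem YField_σ (p q : ℚ) (a b : Qb) (ha : d.σ a = a) (hb : d.σ b = b) :
    d.σ ((p + q * d.s) * a * d.θ + (p - q * d.s) * b * (d.n / d.θ)) =
      (p + q * d.s) * (a * d.ω) * d.θ + (p - q * d.s) * (b * d.ω ^ 2) * (d.n / d.θ) := by
  have h : d.ω ^ 2 * d.ω = 1 := by linear_combination (d.ω - 1) * d.ω_eq
  have e : d.σ d.θ = d.ω * d.θ := d.σθ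
  simp only [map_add, map_mul, map_sub, map_div₀, map_ratCast, ha, hb, d.σs, e]
  rw [div_mul_eq_div_div_swap, div_eq_mul_inv _ d.ω, ← eq_inv_of_mul_eq_one_left h]
  ring

theorem YField_σσ (p q : ℚ) :
    d.σ ((p + q * d.s) * d.θ + (p - q * d.s) * (d.n / d.θ)) =
      (p + q * d.s) * d.ω * d.θ + (p - q * d.s) * d.ω ^ 2 * (d.n / d.θ) ∧
    d.σ (d.σ ((p + q * d.s) * d.θ + (p - q * d.s) * (d.n / d.θ))) =
      (p + q * d.s) * d.ω ^ 2 * d.θ + (p - q * d.s) * d.ω ^ 4 * (d.n / d.θ) := by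
  have h : d.σ d.ω = d.ω := by simp [ω, d.σr, map_ofNat]
  have h1 := d.YField_σ p q 1 1 (map_one _) (map_one _)
  simp only [mul_one, one_mul] at h1
  refine ⟨h1, ?_⟩
  rw [h1, d.YField_σ p q _ _ h (by rw [map_pow, h])]
  ring

theorem YField_tr1 (p q : ℚ) : Algebra.trace ℚ d.K ⟨_, d.lin_mem_K p q⟩ = 0 := by
  refine Rat.cast_injective (α := Qb) ?_
  rw [d.trace_K, (d.YField_σσ p q).2, (d.YField_σσ p q).1, Rat.cast_zero]
  linear_combination ((p + q * d.s) * d.θ + (p - q * d.s) * (d.ω ^ 2 - d.ω + 1) * (d.n / d.θ)) * d.ω_eq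

theorem YField_tr2 (p q p' q' : ℚ) :
    Algebra.trace ℚ d.K (⟨_, d.lin_mem_K p q⟩ * ⟨_, d.lin_mem_K p' q'⟩) =
      6 * d.n * (p * p' - d.D * q * q') := by
  refine Rat.cast_injective (α := Qb) ?_
  rw [d.trace_K]
  simp only [MulMemClass.coe_mul, map_mul]
  rw [(d.YField_σσ p q).2, (d.YField_σσ p q).1, (d.YField_σσ p' q').2, (d.YField_σσ p' q').1]
  have h3 : d.θ * (d.n / d.θ) = d.n := mul_div_cancel₀ _ d.θ0
  have h := d.ω_eq
  have hs := d.hs
  push_cast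
  generalize d.n / d.θ = B at h3 ⊢
  have w3 : d.ω ^ 3 = 1 := by linear_combination (d.ω - 1) * h
  have k1 : 1 + d.ω ^ 2 + d.ω ^ 4 = 0 := by linear_combination (d.ω ^ 2 - d.ω + 1) * h
  have k2 : 1 + d.ω ^ 4 + d.ω ^ 8 = 0 := by
    linear_combination (d.ω ^ 4 - d.ω ^ 2 + 1) * k1
  have k3 : 1 + d.ω ^ 3 + d.ω ^ 6 = 3 := by linear_combination (d.ω ^ 3 + 2) * w3
  linear_combination (p + q * d.s) * (p' + q' * d.s) * d.θ ^ 2 * k1 +
    (p - q * d.s) * (p' - q' * d.s) * B ^ 2 * k2 +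
    2 * (p * p' - q * q' * d.s ^ 2) * d.θ * B * k3 + 6 * (p * p' - q * q' * d.s ^ 2) * h3 -
    6 * d.n * q * q' * hs

theorem discr_K [NumberField d.K] {p₁ q₁ p₂ q₂ : ℚ}
    (h₁ : IsIntegral ℤ (((p₁ : Qb) + q₁ * d.s) ^ 3 * (d.u + d.v * d.s)))
    (h₁' : IsIntegral ℤ (((p₁ : Qb) - q₁ * d.s) ^ 3 * (d.u - d.v * d.s)))
    (h₂ : IsIntegral ℤ (((p₂ : Qb) + q₂ * d.s) ^ 3 * (d.u + d.v * d.s)))
    (h₂' : IsIntegral ℤ (((p₂ : Qb) - q₂ * d.s) ^ 3 * (d.u - d.v * d.s))) :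
    ∃ k : ℤ, (k : ℚ) ^ 2 * discr d.K = -108 * d.D * (d.n * (p₁ * q₂ - p₂ * q₁)) ^ 2 := by
  classical
  have int : ∀ {p q : ℚ}, IsIntegral ℤ (((p : Qb) + q * d.s) ^ 3 * (d.u + d.v * d.s)) →
      IsIntegral ℤ (((p : Qb) - q * d.s) ^ 3 * (d.u - d.v * d.s)) →
      IsIntegral ℤ (⟨_, d.lin_mem_K p q⟩ : d.K) := fun h h' =>
    (isIntegral_algHom_iff (d.K.val.restrictScalars ℤ) Subtype.val_injective).1
      ((IsIntegral.of_pow (n := 3) (by norm_num) (by rwa [mul_pow, d.hθ])).add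
        (IsIntegral.of_pow (n := 3) (by norm_num) (by rwa [mul_pow, d.YField_B])))
  let x : Fin 3 → 𝓞 d.K := ![1, ⟨_, int h₁ h₁'⟩, ⟨_, int h₂ h₂'⟩]
  have hc : Fintype.card (Free.ChooseBasisIndex ℤ (𝓞 d.K)) = 3 := by
    rw [← finrank_eq_card_basis (integralBasis d.K), d.finrank_K]
  let e := Fintype.equivFinOfCardEq hc
  let P : Matrix (Fin 3) (Fin 3) ℤ := fun i j => (RingOfIntegers.basis d.K).repr (x i) (e.symm j)
  refine ⟨P.det, ?_⟩
  have h1 := Algebra.discr_of_matrix_mulVec (integralBasis d.K ∘ e.symm)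
    ((Int.castRingHom ℚ).mapMatrix P)
  have h2 : (((Int.castRingHom ℚ).mapMatrix P).map (algebraMap ℚ d.K)).mulVec
      (integralBasis d.K ∘ e.symm) = fun i => (x i : d.K) := by
    funext i
    refine Eq.trans ?_ ((integralBasis d.K).sum_repr (x i))
    refine Eq.trans ?_ (e.symm.sum_comp fun j => (integralBasis d.K).repr (x i) j • integralBasis d.K j)
    rw [Matrix.mulVec, dotProduct]
    refine Finset.sum_congr rfl fun j _ => ?_
    rw [Algebra.smul_def, RingOfIntegers.coe_eq_algebraMap, integralBasis_repr_apply]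
    rfl
  rw [h2, Algebra.discr_reindex, ← coe_discr, ← RingHom.map_det, eq_intCast] at h1
  rw [← h1, Algebra.discr_def, Matrix.det_fin_three]
  simp only [Algebra.traceMatrix_apply, Algebra.traceForm_apply]
  have t0 : Algebra.trace ℚ d.K ((x 0 : d.K) * (x 0 : d.K)) = 3 := by
    refine Rat.cast_injective (α := Qb) ?_
    rw [d.trace_K]
    simp [x]
    norm_num
  have x0 : (x 0 : d.K) = 1 := rfl
  have x1 : (x 1 : d.K) = ⟨_, d.lin_mem_K p₁ q₁⟩ := rfl
  have x2 : (x 2 : d.K) = ⟨_, d.lin_mem_K p₂ q₂⟩ := rfl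
  rw [t0, x0, x1, x2]
  simp only [one_mul, mul_one, d.YField_tr1, d.YField_tr2]
  ring

end KD

end Pool.Agent.Work.MP_dd0d16_nt.LC
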