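import Pool.Agent.Work.MP_dd0d16_nt.L.Refl

/-!
Units that are close to 1 at all places above 3 are cubes.
-/

set_option autoImplicit false

namespace Pool.Agent.Work.MP_dd0d16_nt.LC

open IntermediateField

section
variable {E : Type} [NormedField E] [IsUltrametricDist E] {a b : E}

theorem near_norm (ha : ‖a - 1‖ ≤ 1 / 9) : ‖a‖ = 1 := by
  have h := IsUltrametricDist.norm_add_eq_max_of_norm_ne_norm (x := a - 1) (y := 1)
    (by rw [norm_one]; linarith)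
  rw [sub_add_cancel, norm_one] at h
  rw [h]
  exact max_eq_right (by linarith)

theorem near_mul (ha : ‖a - 1‖ ≤ 1 / 9) (hb : ‖b - 1‖ ≤ 1 / 9) : ‖a * b - 1‖ ≤ 1 / 9 := by
  have e : a * b - 1 = a * (b - 1) + (a - 1) := by ring
  rw [e]
  refine (IsUltrametricDist.norm_add_le_max _ _).trans (max_le ?_ ha)
  rwa [norm_mul, near_norm ha, one_mul]

theorem near_div (ha : ‖a - 1‖ ≤ 1 / 9) (hb : ‖b - 1‖ ≤ 1 / 9) : ‖a / b - 1‖ ≤ 1 / 9 := by
  have h := near_norm hb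
  have b0 : b ≠ 0 := by
    rintro rfl
    simp at h
  have e : a / b - 1 = ((a - 1) + -(b - 1)) / b := by
    field_simp
    ring
  rw [e, norm_div, h, div_one]
  exact (IsUltrametricDist.norm_add_le_max _ _).trans (max_le ha (by rwa [norm_neg]))

end

theorem YInj_z2 : ∀ x : ZMod 2, x ^ 2 ≠ 1 * x + 1 := by decide

theorem YInj_two (j : Qb →+* PadicAlgCl 3) : ‖j (-1) - 1‖ = 1 := by
  have h1 := norm_rat j (c := 2) (by norm_num)
  have h2 : padicValRat 3 2 = 0 := by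
    have : padicValNat 3 2 = 0 := padicValNat.eq_zero_of_not_dvd (by norm_num)
    have h3 := padicValRat.of_nat (p := 3) (n := 2)
    rw [this] at h3
    exact_mod_cast h3
  rw [h2] at h1
  have e : j (-1) - 1 = -j ((2 : ℚ) : Qb) := by
    simp [map_ofNat]
    ring
  rw [e, norm_neg, h1]
  simp

theorem YInj_conj {m : ℕ} (hm : m % 24 = 7) (j : Qb →+* PadicAlgCl 2) {δ : Qb}
    (hδ : δ ^ 2 = 3 * m) (u v : ℚ) : ‖j (u + v * δ)‖ = ‖j (u - v * δ)‖ := by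
  obtain ⟨k, rfl⟩ : ∃ k, m = 24 * k + 7 := ⟨m / 24, by omega⟩
  have hirr : ∀ x : ZMod 2, x ^ 2 ≠ ((1 : ℤ) : ZMod 2) * x + ((18 * k + 5 : ℤ) : ZMod 2) := by
    have : ((18 * k + 5 : ℤ) : ZMod 2) = 1 := by
      push_cast
      rw [show (18 : ZMod 2) = 0 by decide, show (5 : ZMod 2) = 1 by decide]
      ring
    rw [this, Int.cast_one]
    exact YInj_z2
  push_cast at hδ
  have h1 := inert j (ϖ := (1 + δ) / 2) (a := 1) (b := 18 * k + 5)
    (by push_cast; linear_combination (1 / 4 : Qb) * hδ) hirr (u - v) (2 * v)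
  have h2 := inert j (ϖ := (1 - δ) / 2) (a := 1) (b := 18 * k + 5)
    (by push_cast; linear_combination (1 / 4 : Qb) * hδ) hirr (u - v) (2 * v)
  have e1 : ((u - v : ℚ) : Qb) + ((2 * v : ℚ) : Qb) * ((1 + δ) / 2) = u + v * δ := by
    push_cast
    ring
  have e2 : ((u - v : ℚ) : Qb) + ((2 * v : ℚ) : Qb) * ((1 - δ) / 2) = u - v * δ := by
    push_cast
    ring
  rw [e1] at h1
  rw [e2] at h2
  rw [h1, h2]

theorem KD.inj (d : KD) {m : ℕ} (hm : m % 24 = 7) (hq : Squarefree m) (hN : NoForm m)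
    (hD : d.D = -(m : ℚ))
    (hβ : ∀ (l : ℕ) [Fact l.Prime] (j : Qb →+* PadicAlgCl l), l ≠ 2 → ‖j (d.u + d.v * d.s)‖ = 1)
    {ε : Qb} (hε : ε ∈ d.K) (h1 : IsIntegral ℤ ε) (h2 : IsIntegral ℤ ε⁻¹)
    (h : ∀ j : Qb →+* PadicAlgCl 3, ‖j ε - 1‖ ≤ 1 / 9) :
    ∃ z ∈ d.K, z ^ 3 = ε ∧ ∀ j : Qb →+* PadicAlgCl 3, ‖j z - 1‖ ≤ 3 * ‖j ε - 1‖ := by
  have hs : d.s ^ 2 = -(m : Qb) := by
    rw [d.hs, hD]
    push_cast
    ring
  have hδ : d.δ ^ 2 = ((3 * m : ℚ) : Qb) := by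
    push_cast
    rw [KD.δ, mul_pow, hs, d.hr]
    ring
  obtain ⟨j0⟩ := exists_emb 3
  have ε0 : ε ≠ 0 := by
    rintro rfl
    have := near_norm (h j0)
    simp at this
  have hc : ∀ (j : Qb →+* PadicAlgCl 3) (g : Gal), ‖j (g ε) - 1‖ ≤ 1 / 9 := fun j g =>
    h (j.comp g.toRingEquiv.toRingHom)
  have hρ : ∀ j : Qb →+* PadicAlgCl 3, ∃ ρ' ∈ Dec j, ∀ x ∈ d.M, ρ' x = d.ρ x := by
    intro j
    obtain ⟨g, hg, g1, g2⟩ := dec_rho j (m := m) (by omega) hs d.hr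
    exact ⟨g * g * g, mul_mem (mul_mem hg hg) hg, fun x hx => d.rho_cube g1 g2 hx⟩
  have e3 : ε * d.σ ε * d.σ (d.σ ε) = 1 := by
    refine (d.unit_norm hε ε0 h1 h2).resolve_right fun h3 => ?_
    have h4 := near_mul (near_mul (h j0) (hc j0 d.σ)) (hc j0 (d.σ * d.σ))
    rw [AlgEquiv.mul_apply, ← map_mul, ← map_mul, h3, YInj_two] at h4
    norm_num at h4
  have hθ : ∀ (l : ℕ) [Fact l.Prime] (j : Qb →+* PadicAlgCl l), l ≠ 2 →
      ∃ z ∈ d.L, ‖j d.θ‖ = ‖j z‖ := fun l _ j hl =>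
    ⟨1, one_mem _, cube_inj (norm_nonneg _) (norm_nonneg _) (by
      rw [← norm_pow, ← map_pow, d.hθ, hβ l j hl, map_one, norm_one, one_pow])⟩
  obtain ⟨α, hα, y, hy, x, a0, y0, h3, h4⟩ := d.dev1 hε e3
  obtain ⟨u, v, rfl⟩ := mem_quad hδ hα
  have hτ : d.τ (u + v * d.δ) = u - v * d.δ := by
    rw [map_add, map_mul, map_ratCast, map_ratCast, d.τδ]
    ring
  have τ0 : (u : Qb) - v * d.δ ≠ 0 := by
    rw [← hτ]
    exact (map_ne_zero _).2 a0
  rw [hτ] at h4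
  have x0 : x ≠ 0 := by
    rintro rfl
    exact mul_ne_zero a0 τ0 (by rw [h4]; simp)
  have hx : u ^ 2 - 3 * m * v ^ 2 = x ^ 3 := by
    refine Rat.cast_injective (α := Qb) ?_
    push_cast at hδ ⊢
    linear_combination h4 + (v : Qb) ^ 2 * hδ
  have σ0 : d.σ ε ≠ 0 := (map_ne_zero _).2 ε0
  have σ0' : d.σ (d.σ ε) ≠ 0 := (map_ne_zero _).2 σ0
  obtain ⟨u1, u2⟩ := unit_div (int_map d.σ (int_map d.σ h1)) (int_map_inv d.σ (int_map_inv d.σ h2))
    (int_map d.σ h1) (int_map_inv d.σ h2)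
  have h5 : (u : Qb) + v * d.δ = d.σ (d.σ ε) / d.σ ε * y⁻¹ ^ 3 := by
    rw [h3]
    field_simp
  obtain ⟨w, hw, hw'⟩ := reflect hm hq hN hs d.hr hx x0 (by
    intro l _ j hl
    by_cases h2 : l = 2
    · subst h2
      have h6 := YInj_conj hm j (δ := d.δ) (by rw [hδ]; push_cast; ring) u v
      have h7 := congrArg (fun z => ‖j z‖) h4
      simp only [map_mul, norm_mul, map_pow, norm_pow, ← h6] at h7
      have h8 : ‖j ((u : Qb) + v * d.δ)‖ ≠ 0 := norm_ne_zero_iff.2 ((map_ne_zero j).2 a0)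
      refine ⟨(u + v * d.δ) / x, div_mem (d.k_le_L hα) (SubfieldClass.ratCast_mem _ _), ?_⟩
      show ‖j ((u : Qb) + v * d.δ)‖ = _
      rw [map_div₀, norm_div, div_pow, ← h7]
      field_simp
    · exact d.unram j (norm_three hl) (hθ l j h2) (d.k_le_L hα) (inv_mem (d.N_le_M hy))
        (div_ne_zero σ0' σ0) u1 u2 h5) (by
    intro j
    obtain ⟨ρ', r1, r2⟩ := hρ j
    obtain ⟨Θ, t1, t2⟩ := d.krasner j r1 r2 (d.k_le_N hα) hy (by
      have : ((u : Qb) + v * d.δ) * y ^ 3 = d.σ (d.σ ε) / d.σ ε := by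
        rw [h3]
        field_simp
      rw [this, map_div₀]
      exact near_div (hc j (d.σ * d.σ)) (hc j d.σ))
    refine ⟨Θ, t1, fun g hg hg' => t2 g hg ?_⟩
    rw [map_add, map_mul, map_ratCast, map_ratCast]
    exact congrArg (fun z => (u : Qb) + v * z) hg')
  obtain ⟨c, z, hz, h6⟩ := d.dev2 hε e3 (y := w * y) (mul_mem (d.k_le_N hw) hy)
    (by rw [h3, mul_pow, ← hw', mul_assoc]; rfl)
  have z0 : z ≠ 0 := fun h => ε0 (by rw [h6, h]; ring)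
  have h7 : (c : Qb) = ε * z⁻¹ ^ 3 := by
    rw [h6]
    field_simp
  obtain ⟨x', hx'⟩ := rat_cube' (c := c) (by
    intro l hl l2 l3
    have := Fact.mk hl
    obtain ⟨j⟩ := exists_emb l
    obtain ⟨z', hz'⟩ := desc2 j (B := -3) (c := c) d.hs (by rw [d.hr]; norm_num)
      (d.unram j (norm_three l3) (hθ l j l2) (SubfieldClass.ratCast_mem _ _)
        (inv_mem (d.N_le_M (d.K_le_N hz))) ε0 h1 h2 h7)
    exact val_of_norm j hz') (by
    obtain ⟨ρ', r1, r2⟩ := hρ j0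
    obtain ⟨Θ, t1, t2⟩ := d.krasner j0 r1 r2 (SubfieldClass.ratCast_mem _ c) (d.K_le_N hz)
      (by rw [← h6]; exact h j0)
    obtain ⟨y0, hy0⟩ := dec_fixed j0 fun g hg => t2 g hg (map_ratCast g c)
    refine ⟨y0, (algebraMap ℚ_[3] (PadicAlgCl 3)).injective ?_⟩
    rw [map_pow, ← hy0, ← map_pow, t1, map_ratCast, map_ratCast])
  have hz' : (x' : Qb) * z ∈ d.K := mul_mem (SubfieldClass.ratCast_mem _ _) hz
  have h8 : ((x' : Qb) * z) ^ 3 = ε := by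
    rw [h6, hx']
    push_cast
    ring
  refine ⟨x' * z, hz', h8, fun j => ?_⟩
  obtain ⟨ρ', r1, r2⟩ := hρ j
  have h9 := near_one j d.hr r1 (by
    rw [r2 _ (d.L_le_M (subset_adjoin ℚ _ (by simp))), d.ρr])
    (by rw [r2 _ (d.N_le_M (d.K_le_N hz')), d.ρ_N (d.K_le_N hz')])
  rwa [h8] at h9

end Pool.Agent.Work.MP_dd0d16_nt.LC
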