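import Pool.Agent.Work.MP_dd0d16_nt.L.Gal

/-!
Nonarchimedean absolute values `‖j ·‖` on `Qb`.

PLAN. `norm_int`: an integral equation and the ultrametric inequality (`IsUltrametricDist.norm_intCast_le_one`).
`lagrange`: the resolvents `y_i = y + ω^(-i) σ y + ω^(-2 i) σ² y` have `‖y_i‖ ≤ ‖y‖`, their sum is `3 y`, so one has
`‖y_i‖ = ‖y‖`; `y_i / θ^i` is in `M` and fixed by `σ` (`mem_L`). `unram`: `c = σ c = σ e (σ y)^3` and `σ e` is again a
unit, so `‖σ y‖ = ‖y‖`. `quad_desc`: `z = p + q b` (`quad_repr`) satisfies `z^2 = T z - N` with `T = 2 p`,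
`N = p^2 - q^2 b^2`; compare `‖T z‖` and `‖N‖`: `‖z‖ = ‖T‖`, `‖z‖^2 = ‖N‖` or `‖z‖ = ‖N / T‖`. `desc1`: from
`‖c‖^2 = ‖w‖^3` get `‖c‖ = ‖c / w‖^3` (`c = 0` is trivial). `inert`: divide by the larger of `p`, `q`; then
`N = p^2 + a p q - b q^2` has `ℓ`-adic norm one (otherwise, with `‖q‖ = 1`, `-p / q` reduces to a root), and
`N = (p + q ϖ) (p + q (a - ϖ))` with both factors of norm at most one. Use `PadicAlgCl.norm_extends`,
`padicNormE.eq_padicNorm`, `map_ratCast`. `rat_cube`, `rat_cube'`: `‖(c : PadicAlgCl ℓ)‖ = ℓ ^ (-padicValRat ℓ c)`; a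
nonzero rational all of whose valuations are divisible by 3 is a cube (numerator and denominator:
`Nat.factorization_prod_pow_eq_self`); an embedding `j` exists by `IsAlgClosed.lift`. In `rat_cube'` divide by `2^i`,
`i ∈ {0, 1, 2}`: `2` and `4` are not cubes in `ℚ_[3]` (reduce mod 9 with `PadicInt.toZModPow 2`).
-/

set_option autoImplicit false

namespace Pool.Agent.Work.MP_dd0d16_nt.LC

open IntermediateField

theorem norm_rat {l : ℕ} [Fact l.Prime] (j : Qb →+* PadicAlgCl l) {c : ℚ} (hc : c ≠ 0) :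
    ‖j c‖ = (l : ℝ) ^ (-padicValRat l c) := by
  have h1 : (c : PadicAlgCl l) = algebraMap ℚ_[l] (PadicAlgCl l) (c : ℚ_[l]) :=
    (map_ratCast _ c).symm
  have h2 : ‖algebraMap ℚ_[l] (PadicAlgCl l) (c : ℚ_[l])‖ = ‖(c : ℚ_[l])‖ :=
    PadicAlgCl.norm_extends l _
  have h3 : (c : ℚ_[l]) ≠ 0 := by exact_mod_cast hc
  rw [map_ratCast, h1, h2, Padic.norm_eq_zpow_neg_valuation h3, Padic.valuation_ratCast]

theorem exists_emb (l : ℕ) [Fact l.Prime] : Nonempty (Qb →+* PadicAlgCl l) := by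
  have : Algebra.IsAlgebraic ℚ Qb := AlgebraicClosure.isAlgebraic ℚ
  exact ⟨(IsAlgClosed.lift : Qb →ₐ[ℚ] PadicAlgCl l).toRingHom⟩

theorem YRat_nat_cube {n : ℕ} (hn : n ≠ 0) (h : ∀ l : ℕ, l.Prime → 3 ∣ padicValNat l n) :
    ∃ a : ℕ, n = a ^ 3 := by
  refine ⟨∏ p ∈ n.primeFactors, p ^ (n.factorization p / 3), ?_⟩
  rw [← Finset.prod_pow]
  conv_lhs => rw [← Nat.prod_factorization_pow_eq_self hn]
  rw [Finsupp.prod, Nat.support_factorization]
  refine Finset.prod_congr rfl (fun p hp => ?_)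
  have hp' : p.Prime := Nat.prime_of_mem_primeFactors hp
  have h1 : 3 ∣ n.factorization p := by
    rw [Nat.factorization_def n hp']; exact h p hp'
  rw [← pow_mul, Nat.div_mul_cancel h1]

theorem rat_cube {c : ℚ} (h : ∀ l : ℕ, l.Prime → (3 : ℤ) ∣ padicValRat l c) :
    ∃ x : ℚ, c = x ^ 3 := by
  rcases eq_or_ne c 0 with rfl | hc
  · exact ⟨0, by norm_num⟩
  have hnum : c.num.natAbs ≠ 0 := Int.natAbs_ne_zero.mpr (Rat.num_ne_zero.mpr hc)
  have key : ∀ l : ℕ, l.Prime → 3 ∣ padicValNat l c.num.natAbs ∧ 3 ∣ padicValNat l c.den := by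
    intro l hl
    have h1 := h l hl
    rw [padicValRat_def, padicValInt] at h1
    by_cases hd : l ∣ c.den
    · have hn : ¬ l ∣ c.num.natAbs := by
        intro hn
        have := Nat.dvd_gcd hn hd
        rw [c.reduced.gcd_eq_one] at this
        exact hl.one_lt.ne' (Nat.dvd_one.mp this)
      have h0 := padicValNat.eq_zero_of_not_dvd hn
      rw [h0] at h1 ⊢
      omega
    · have h0 := padicValNat.eq_zero_of_not_dvd hd
      rw [h0] at h1 ⊢
      omega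
  obtain ⟨a, ha⟩ := YRat_nat_cube hnum (fun l hl => (key l hl).1)
  obtain ⟨b, hb⟩ := YRat_nat_cube c.den_nz (fun l hl => (key l hl).2)
  have hden : (c.den : ℚ) = (b : ℚ) ^ 3 := by exact_mod_cast hb
  have hc' : c = (c.num : ℚ) / (c.den : ℚ) := (Rat.num_div_den c).symm
  rcases Int.natAbs_eq c.num with h1 | h1
  · refine ⟨(a : ℚ) / b, ?_⟩
    have h2 : (c.num : ℚ) = (a : ℚ) ^ 3 := by
      rw [h1, ha]; push_cast; ring
    rw [div_pow, ← h2, ← hden]; exact hc'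
  · refine ⟨-(a : ℚ) / b, ?_⟩
    have h2 : (c.num : ℚ) = (-(a : ℚ)) ^ 3 := by
      rw [h1, ha]; push_cast; ring
    rw [div_pow, ← h2, ← hden]; exact hc'

theorem YRat_not_cube {w : ℚ_[3]} {k : ℕ} (hk : k = 2 ∨ k = 4) : w ^ 3 ≠ (k : ℚ_[3]) := by
  intro h
  have h1 : ‖w‖ ^ 3 ≤ 1 := by
    rw [← norm_pow, h]; exact IsUltrametricDist.norm_natCast_le_one _ k
  have h2 : ‖w‖ ≤ 1 := (pow_le_one_iff_of_nonneg (norm_nonneg w) (by norm_num)).mp h1
  obtain ⟨W, hW⟩ : ∃ W : ℤ_[3], (W : ℚ_[3]) = w := ⟨⟨w, h2⟩, rfl⟩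
  have h3 : W ^ 3 = (k : ℤ_[3]) := by
    apply PadicInt.ext
    rw [PadicInt.coe_pow, PadicInt.coe_natCast, hW]
    exact h
  have h4 := congrArg (PadicInt.toZModPow 2) h3
  rw [map_pow, map_natCast] at h4
  generalize PadicInt.toZModPow 2 W = t at h4
  have h5 : ∀ t : ZMod 9, t ^ 3 ≠ ((2 : ℕ) : ZMod 9) ∧ t ^ 3 ≠ ((4 : ℕ) : ZMod 9) := by decide
  rcases hk with rfl | rfl
  · exact (h5 t).1 h4
  · exact (h5 t).2 h4

theorem rat_cube' {c : ℚ} (h : ∀ l : ℕ, l.Prime → l ≠ 2 → l ≠ 3 → (3 : ℤ) ∣ padicValRat l c)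
    (h3 : ∃ x : ℚ_[3], x ^ 3 = c) : ∃ x : ℚ, c = x ^ 3 := by
  rcases eq_or_ne c 0 with rfl | hc
  · exact ⟨0, by norm_num⟩
  obtain ⟨x, hx⟩ := h3
  have hv3 : (3 : ℤ) ∣ padicValRat 3 c := by
    have h1 := congrArg Padic.valuation hx
    rw [Padic.valuation_pow, Padic.valuation_ratCast] at h1
    exact ⟨x.valuation, by rw [← h1]; norm_num⟩
  have key : ∀ i : ℕ, (3 : ℤ) ∣ padicValRat 2 c - i → ∃ y : ℚ, c = 2 ^ i * y ^ 3 := by
    intro i hi
    have h2 : ((2 : ℚ) ^ i) ≠ 0 := by positivity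
    obtain ⟨y, hy⟩ := rat_cube (c := c / 2 ^ i) (fun l hl => by
      have : Fact l.Prime := ⟨hl⟩
      rw [padicValRat.div hc h2, padicValRat.pow]
      have h4 : padicValRat l (2 : ℚ) = padicValNat l 2 := padicValRat.of_nat (p := l) (n := 2)
      rw [h4]
      by_cases hl2 : l = 2
      · subst hl2
        rw [padicValNat_self]
        simpa using hi
      · rw [padicValNat_primes hl2]
        by_cases hl3 : l = 3
        · subst hl3
          simpa using hv3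
        · simpa using h l hl hl2 hl3)
    refine ⟨y, ?_⟩
    rw [← hy]; field_simp
  have bad : ∀ (k : ℕ) (y : ℚ), (k = 2 ∨ k = 4) → c ≠ (k : ℚ) * y ^ 3 := by
    intro k y hk hy
    have hy0 : y ≠ 0 := by
      rintro rfl
      apply hc; rw [hy]; norm_num
    have hy1 : (y : ℚ_[3]) ≠ 0 := by exact_mod_cast hy0
    refine YRat_not_cube (w := x / (y : ℚ_[3])) hk ?_
    rw [div_pow, hx, hy]
    push_cast
    field_simp
  have h4 : (3 : ℤ) ∣ padicValRat 2 c - (0 : ℕ) ∨ (3 : ℤ) ∣ padicValRat 2 c - (1 : ℕ) ∨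
      (3 : ℤ) ∣ padicValRat 2 c - (2 : ℕ) := by
    push_cast
    omega
  rcases h4 with h4 | h4 | h4
  · obtain ⟨y, hy⟩ := key 0 h4
    exact ⟨y, by rw [hy]; norm_num⟩
  · obtain ⟨y, hy⟩ := key 1 h4
    exact absurd (by rw [hy]; norm_num) (bad 2 y (Or.inl rfl))
  · obtain ⟨y, hy⟩ := key 2 h4
    exact absurd (by rw [hy]; norm_num) (bad 4 y (Or.inr rfl))

theorem val_of_norm {l : ℕ} [Fact l.Prime] (j : Qb →+* PadicAlgCl l) {c z : ℚ}
    (h : ‖j c‖ = ‖j z‖ ^ 3) : (3 : ℤ) ∣ padicValRat l c := by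
  rcases eq_or_ne c 0 with rfl | hc
  · simp
  have hl : (1 : ℝ) < l := by exact_mod_cast (Fact.out : l.Prime).one_lt
  have hl0 : (0 : ℝ) < l := by linarith
  rcases eq_or_ne z 0 with rfl | hz
  · rw [norm_rat j hc] at h
    have h1 : (0 : ℝ) < (l : ℝ) ^ (-padicValRat l c) := zpow_pos hl0 _
    rw [h] at h1
    simp at h1
  rw [norm_rat j hc, norm_rat j hz, ← zpow_natCast, ← zpow_mul] at h
  have h1 := zpow_right_injective₀ hl0 hl.ne' h
  refine ⟨padicValRat l z, ?_⟩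
  push_cast at h1
  linarith

end Pool.Agent.Work.MP_dd0d16_nt.LC
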