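import Pool.Agent.Work.MP_dd0d16_nt.L.Kd
import Pool.Agent.Work.MP_dd0d16_nt.L.Rat

/-!
Nonarchimedean absolute values `‖j ·‖` on `Qb`.

PLAN. `norm_int`: an integral equation and the ultrametric inequality (`IsUltrametricDist.norm_intCast_le_one`).
`lagrange`: the resolvents `y_i = y + ω^(-i) σ y + ω^(-2 i) σ² y` have `‖y_i‖ ≤ ‖y‖`, their sum is `3 y`, so one has
`‖y_i‖ = ‖y‖`; `y_i / θ^i` is in `M` and fixed by `σ` (`mem_L`). `unram`: `c = σ c = σ e (σ y)^3` and `σ e` is again a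
unit, so `‖σ y‖ = ‖y‖`. `quad_desc`: `z = p + q b` (`quad_repr`) satisfies `z^2 = T z - N` with `T = 2 p`,
`N = p^2 - q^2 b^2`; compare `‖T z‖` and `‖N‖`: `‖z‖ = ‖T‖`, `‖z‖^2 = ‖N‖` or `‖z‖ = ‖N / T‖`. `desc1`: from
`‖c‖^2 = ‖w‖^3` get `‖c‖ = ‖c / w‖^3` (`c = 0` is trivial). `inert`: divide by the larger of `p`, `q`; then
`N = p^2 + a p q - b q^2` has `ℓ`-adic norm one (otherwise, with `‖q‖ = 1`, `-p / q` reduces to a root), and
`N = (p + q ϖ) (p + q (a - ϖ))` with both factors of norm at most one. Use `PadicAlgCl.norm_extends`,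
`padicNormE.eq_padicNorm`, `map_ratCast`. `rat_cube`, `rat_cube'`: `‖(c : PadicAlgCl ℓ)‖ = ℓ ^ (-padicValRat ℓ c)`; a
nonzero rational all of whose valuations are divisible by 3 is a cube (numerator and denominator:
`Nat.factorization_prod_pow_eq_self`); an embedding `j` exists by `IsAlgClosed.lift`. In `rat_cube'` divide by `2^i`,
`i ∈ {0, 1, 2}`: `2` and `4` are not cubes in `ℚ_[3]` (reduce mod 9 with `PadicInt.toZModPow 2`).
-/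

set_option autoImplicit false

namespace Pool.Agent.Work.MP_dd0d16_nt.LC

open IntermediateField

section
variable {E : Type} [NormedField E] [IsUltrametricDist E] (j : Qb →+* E)

theorem norm_int {x : Qb} (h : IsIntegral ℤ x) : ‖j x‖ ≤ 1 := by
  have h1 : IsIntegral (NormedField.valuation (K := E)).integer (j x) := by
    obtain ⟨f, hf, h0⟩ := map_isIntegral_int j h
    refine ⟨f.map (Int.castRingHom _), hf.map _, ?_⟩
    rw [Polynomial.eval₂_map, ← h0]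
    exact congrArg (fun g => Polynomial.eval₂ g (j x) f) (RingHom.ext_int _ _)
  have h2 : (NormedField.valuation (K := E)) (j x) ≤ 1 :=
    (Valuation.integer.integers _).mem_of_integral h1
  exact_mod_cast h2

theorem norm_unit {x : Qb} (h0 : x ≠ 0) (h1 : IsIntegral ℤ x) (h2 : IsIntegral ℤ x⁻¹) :
    ‖j x‖ = 1 := by
  have k1 := norm_int j h1
  have k2 := norm_int j h2
  have k3 : 0 < ‖j x‖ := norm_pos_iff.2 ((map_ne_zero j).2 h0)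
  rw [map_inv₀, norm_inv] at k2
  exact le_antisymm k1 ((inv_le_one₀ k3).1 k2)

theorem YVal_res (d : KD) (hθ : ∃ z ∈ d.L, ‖j d.θ‖ = ‖j z‖) {y : Qb}
    (hy : y ∈ d.M) (h1 : ‖j (d.σ y)‖ = ‖j y‖) (h2 : ‖j (d.σ (d.σ y))‖ = ‖j y‖) (i : ℕ) :
    ‖j (y + (d.ω ^ i) ^ 2 * d.σ y + d.ω ^ i * d.σ (d.σ y))‖ ≤ ‖j y‖ ∧
      ∃ z ∈ d.L, ‖j (y + (d.ω ^ i) ^ 2 * d.σ y + d.ω ^ i * d.σ (d.σ y))‖ = ‖j z‖ := by
  have w3 : d.ω ^ 3 = 1 := by linear_combination (d.ω - 1) * d.ω_eq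
  have wi : (d.ω ^ i) ^ 3 = 1 := by rw [← pow_mul, mul_comm, pow_mul, w3, one_pow]
  have wn : ‖j (d.ω ^ i)‖ = 1 := by
    have : ‖j (d.ω ^ i)‖ ^ 3 = 1 := by rw [← norm_pow, ← map_pow, wi, map_one, norm_one]
    exact (pow_eq_one_iff_of_nonneg (norm_nonneg _) (by norm_num)).1 this
  have wσ : d.σ d.ω = d.ω := by simp [KD.ω, d.σr, map_ofNat]
  have hr : d.r ∈ d.M := subset_adjoin _ _ (by simp)
  have hθM : d.θ ∈ d.M := subset_adjoin _ _ (by simp)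
  have wM : d.ω ∈ d.M :=
    div_mem (add_mem (neg_mem (one_mem _)) hr) (ofNat_mem _ 2)
  have θσ : d.σ (d.θ ^ i) = d.ω ^ i * d.θ ^ i := by rw [map_pow, d.σθ, mul_pow, KD.ω]
  have w0 : d.ω ^ i ≠ 0 := fun e => by simp [e] at wi
  generalize hw : d.ω ^ i = w at *
  have wσ' : d.σ w = w := by rw [← hw, map_pow, wσ]
  have wM' : w ∈ d.M := hw ▸ pow_mem wM i
  constructor
  · rw [map_add, map_add]
    refine (IsUltrametricDist.norm_add_le_max _ _).trans (max_le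
      ((IsUltrametricDist.norm_add_le_max _ _).trans (max_le le_rfl ?_)) ?_)
    · rw [map_mul, map_pow, norm_mul, norm_pow, wn, h1, one_pow, one_mul]
    · rw [map_mul, norm_mul, wn, h2, one_mul]
  · obtain ⟨z, hz, hz'⟩ := hθ
    have hY : y + w ^ 2 * d.σ y + w * d.σ (d.σ y) ∈ d.M :=
      add_mem (add_mem hy (mul_mem (pow_mem wM' 2) (d.M_stab _ hy)))
        (mul_mem wM' (d.M_stab _ (d.M_stab _ hy)))
    have hσ : d.σ (y + w ^ 2 * d.σ y + w * d.σ (d.σ y)) =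
        w * (y + w ^ 2 * d.σ y + w * d.σ (d.σ y)) := by
      rw [map_add, map_add, map_mul, map_mul, map_pow, wσ', d.σ3 hy]
      linear_combination (-d.σ y) * wi
    generalize y + w ^ 2 * d.σ y + w * d.σ (d.σ y) = Y at *
    refine ⟨Y / d.θ ^ i * z ^ i, mul_mem (d.mem_L (div_mem hY (pow_mem hθM i)) ?_)
      (pow_mem hz i), ?_⟩
    · rw [map_div₀, hσ, θσ, mul_div_mul_left _ _ w0]
    · have : ‖j d.θ‖ ≠ 0 := norm_ne_zero_iff.2 ((map_ne_zero j).2 d.θ0)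
      rw [map_mul, map_div₀, map_pow, map_pow, norm_mul, norm_div, norm_pow, norm_pow, ← hz',
        div_mul_cancel₀ _ (pow_ne_zero _ this)]

theorem KD.lagrange (d : KD) (h3 : ‖(3 : E)‖ = 1) (hθ : ∃ z ∈ d.L, ‖j d.θ‖ = ‖j z‖) {y : Qb}
    (hy : y ∈ d.M) (h1 : ‖j (d.σ y)‖ = ‖j y‖) (h2 : ‖j (d.σ (d.σ y))‖ = ‖j y‖) :
    ∃ z ∈ d.L, ‖j y‖ = ‖j z‖ := by
  by_contra hc
  have k : ∀ i : ℕ, ‖j (y + (d.ω ^ i) ^ 2 * d.σ y + d.ω ^ i * d.σ (d.σ y))‖ < ‖j y‖ := fun i => by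
    obtain ⟨k1, z, hz, k2⟩ := YVal_res j d hθ hy h1 h2 i
    exact lt_of_le_of_ne k1 fun e => hc ⟨z, hz, e.symm.trans k2⟩
  have e : 3 * y = (y + (d.ω ^ 0) ^ 2 * d.σ y + d.ω ^ 0 * d.σ (d.σ y)) +
      (y + (d.ω ^ 1) ^ 2 * d.σ y + d.ω ^ 1 * d.σ (d.σ y)) +
      (y + (d.ω ^ 2) ^ 2 * d.σ y + d.ω ^ 2 * d.σ (d.σ y)) := by
    linear_combination (-(d.ω ^ 2 - d.ω + 1) * d.σ y - d.σ (d.σ y)) * d.ω_eq
  have e2 : ‖j (3 * y)‖ = ‖j y‖ := by rw [map_mul, norm_mul, map_ofNat, h3, one_mul]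
  rw [e, map_add, map_add] at e2
  refine absurd e2 (ne_of_lt ((IsUltrametricDist.norm_add_le_max _ _).trans_lt
    (max_lt ((IsUltrametricDist.norm_add_le_max _ _).trans_lt (max_lt (k 0) (k 1))) (k 2))))

theorem KD.unram (d : KD) (h3 : ‖(3 : E)‖ = 1) (hθ : ∃ z ∈ d.L, ‖j d.θ‖ = ‖j z‖) {c e y : Qb}
    (hc : c ∈ d.L) (hy : y ∈ d.M) (h0 : e ≠ 0) (h1 : IsIntegral ℤ e) (h2 : IsIntegral ℤ e⁻¹)
    (h : c = e * y ^ 3) : ∃ z ∈ d.L, ‖j c‖ = ‖j z‖ ^ 3 := by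
  have k : ∀ g : Gal, g c = c → ‖j c‖ = ‖j (g y)‖ ^ 3 := fun g hg => by
    have u : ‖j (g e)‖ = 1 := norm_unit j ((map_ne_zero g).2 h0) (map_isIntegral_int g h1)
      (by rw [← map_inv₀]; exact map_isIntegral_int g h2)
    rw [← hg, h, map_mul, map_pow, map_mul, map_pow, norm_mul, norm_pow, u, one_mul]
  have k0 : ‖j c‖ = ‖j y‖ ^ 3 := k 1 rfl
  have k1 := k d.σ (d.σ_L hc)
  have k2 : ‖j c‖ = ‖j (d.σ (d.σ y))‖ ^ 3 :=
    k (d.σ * d.σ) (by rw [AlgEquiv.mul_apply, d.σ_L hc, d.σ_L hc])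
  obtain ⟨z, hz, hz'⟩ := d.lagrange j h3 hθ hy
    ((pow_left_inj₀ (norm_nonneg _) (norm_nonneg _) (by norm_num)).1 (k1.symm.trans k0))
    ((pow_left_inj₀ (norm_nonneg _) (norm_nonneg _) (by norm_num)).1 (k2.symm.trans k0))
  exact ⟨z, hz, by rw [k0, hz']⟩

theorem quad_desc {a b z : Qb} (hb : b ^ 2 ∈ ℚ⟮a⟯) (hz : z ∈ ℚ⟮a, b⟯) :
    ∃ w ∈ ℚ⟮a⟯, ‖j z‖ ^ 2 = ‖j w‖ := by
  obtain ⟨p, hp, q, hq, h⟩ := quad_repr hb hz
  have hT : 2 * p ∈ ℚ⟮a⟯ := mul_mem (ofNat_mem _ 2) hp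
  have hN : q ^ 2 * b ^ 2 - p ^ 2 ∈ ℚ⟮a⟯ := sub_mem (mul_mem (pow_mem hq 2) hb) (pow_mem hp 2)
  have e : z ^ 2 = 2 * p * z + (q ^ 2 * b ^ 2 - p ^ 2) := by rw [h]; ring
  generalize 2 * p = T at *
  generalize q ^ 2 * b ^ 2 - p ^ 2 = N at *
  have e' : ‖j z‖ ^ 2 = ‖j T * j z + j N‖ := by rw [← norm_pow, ← map_pow, e, map_add, map_mul]
  by_cases hT0 : T = 0
  · exact ⟨N, hN, by rw [e', hT0, map_zero, zero_mul, zero_add]⟩
  have hT1 : ‖j T‖ ≠ 0 := norm_ne_zero_iff.2 ((map_ne_zero j).2 hT0)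
  rcases lt_trichotomy ‖j T * j z‖ ‖j N‖ with k | k | k
  · exact ⟨N, hN, by
      rw [e', IsUltrametricDist.norm_add_eq_max_of_norm_ne_norm k.ne, max_eq_right k.le]⟩
  · refine ⟨(N / T) ^ 2, pow_mem (div_mem hN hT) 2, ?_⟩
    rw [map_pow, norm_pow, map_div₀, norm_div, ← k, norm_mul, mul_div_cancel_left₀ _ hT1]
  · refine ⟨T ^ 2, pow_mem hT 2, ?_⟩
    rw [IsUltrametricDist.norm_add_eq_max_of_norm_ne_norm k.ne', max_eq_left k.le, norm_mul] at e'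
    have hz0 : ‖j z‖ ≠ 0 := fun h0 => by
      rw [norm_mul, h0, mul_zero] at k
      exact absurd k (not_lt.2 (norm_nonneg _))
    rw [map_pow, norm_pow, mul_right_cancel₀ hz0 ((sq _).symm.trans e')]

theorem desc1 {a b c : Qb} (hb : b ^ 2 ∈ ℚ⟮a⟯) (hc : c ∈ ℚ⟮a⟯)
    (h : ∃ z ∈ ℚ⟮a, b⟯, ‖j c‖ = ‖j z‖ ^ 3) : ∃ z ∈ ℚ⟮a⟯, ‖j c‖ = ‖j z‖ ^ 3 := by
  obtain ⟨z, hz, h⟩ := h
  obtain ⟨w, hw, h'⟩ := quad_desc j hb hz
  by_cases h0 : ‖j z‖ = 0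
  · exact ⟨0, zero_mem _, by rw [h, h0, map_zero, norm_zero]⟩
  · refine ⟨c / w, div_mem hc hw, ?_⟩
    rw [map_div₀, norm_div, h, ← h']
    field_simp

theorem desc2 {a b : Qb} {A B c : ℚ} (ha : a ^ 2 = A) (hb : b ^ 2 = B)
    (h : ∃ z ∈ ℚ⟮a, b⟯, ‖j c‖ = ‖j z‖ ^ 3) : ∃ z : ℚ, ‖j c‖ = ‖j z‖ ^ 3 := by
  have k : ∀ (S : IntermediateField ℚ Qb) (x : ℚ), (x : Qb) ∈ S := fun S x =>
    SubfieldClass.ratCast_mem S x
  obtain ⟨z, hz, h⟩ := desc1 j (hb ▸ k _ B) (k _ c) h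
  obtain ⟨w, hw, h'⟩ := desc1 j (a := 1) (b := a) (ha ▸ k _ A) (k _ c)
    ⟨z, adjoin.mono _ _ _ (by simp) hz, h⟩
  rw [adjoin_one, mem_bot] at hw
  obtain ⟨x, rfl⟩ := hw
  exact ⟨x, h'⟩

end

theorem YVal_unit {l : ℕ} [Fact l.Prime] {a b : ℤ} (hirr : ∀ x : ZMod l, x ^ 2 ≠ a * x + b)
    (x y : ℤ_[l]) (h : x = 1 ∨ y = 1) : ‖x ^ 2 + a * x * y - b * y ^ 2‖ = 1 := by
  rw [← PadicInt.isUnit_iff, ← IsLocalRing.notMem_maximalIdeal, ← PadicInt.ker_toZMod,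
    RingHom.mem_ker]
  simp only [map_sub, map_add, map_mul, map_pow, map_intCast]
  intro e
  by_cases hy : PadicInt.toZMod y = 0
  · rcases h with rfl | rfl
    · simp [hy] at e
    · simp at hy
  · refine hirr (-(PadicInt.toZMod x / PadicInt.toZMod y)) ?_
    field_simp
    linear_combination e

theorem YVal_norm {l : ℕ} [Fact l.Prime] {a b : ℤ} (hirr : ∀ x : ZMod l, x ^ 2 ≠ a * x + b)
    (x y : ℚ_[l]) : ‖x ^ 2 + a * x * y - b * y ^ 2‖ = max ‖x‖ ‖y‖ ^ 2 := by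
  rcases le_total ‖x‖ ‖y‖ with h | h
  · by_cases h0 : y = 0
    · subst h0
      simp
    · have h1 : ‖x / y‖ ≤ 1 := by
        rw [norm_div]
        exact div_le_one_of_le₀ h (norm_nonneg _)
      have h2 := YVal_unit hirr ⟨x / y, h1⟩ 1 (Or.inr rfl)
      rw [PadicInt.norm_def] at h2
      push_cast at h2
      have e : x ^ 2 + a * x * y - b * y ^ 2 =
          y ^ 2 * ((x / y) ^ 2 + a * (x / y) * 1 - b * 1 ^ 2) := by field_simp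
      rw [e, norm_mul, h2, mul_one, norm_pow, max_eq_right h]
  · by_cases h0 : x = 0
    · subst h0
      have : y = 0 := by simpa using h
      simp [this]
    · have h1 : ‖y / x‖ ≤ 1 := by
        rw [norm_div]
        exact div_le_one_of_le₀ h (norm_nonneg _)
      have h2 := YVal_unit hirr 1 ⟨y / x, h1⟩ (Or.inl rfl)
      rw [PadicInt.norm_def] at h2
      push_cast at h2
      have e : x ^ 2 + a * x * y - b * y ^ 2 =
          x ^ 2 * (1 ^ 2 + a * 1 * (y / x) - b * (y / x) ^ 2) := by field_simp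
      rw [e, norm_mul, h2, mul_one, norm_pow, max_eq_left h]

theorem inert {l : ℕ} [Fact l.Prime] (j : Qb →+* PadicAlgCl l) {ϖ : Qb} {a b : ℤ}
    (hϖ : ϖ ^ 2 = a * ϖ + b) (hirr : ∀ x : ZMod l, x ^ 2 ≠ a * x + b) (p q : ℚ) :
    ‖j (p + q * ϖ)‖ = max ‖j p‖ ‖j q‖ := by
  have nr : ∀ x : ℚ, ‖j x‖ = ‖(x : ℚ_[l])‖ := fun x => by
    rw [map_ratCast, ← PadicAlgCl.norm_extends, map_ratCast]
  have int : ∀ w : Qb, w ^ 2 = a * w + b → ‖j w‖ ≤ 1 := fun w hw => by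
    refine norm_int j ⟨Polynomial.X ^ 2 - (Polynomial.C a * Polynomial.X + Polynomial.C b),
      Polynomial.monic_X_pow_sub (Polynomial.degree_linear_lt.trans_le le_rfl), ?_⟩
    rw [Polynomial.eval₂_sub, Polynomial.eval₂_add, Polynomial.eval₂_mul, Polynomial.eval₂_C,
      Polynomial.eval₂_C, Polynomial.eval₂_X, Polynomial.eval₂_X_pow, hw, eq_intCast, eq_intCast,
      sub_self]
  have le : ∀ w : Qb, w ^ 2 = a * w + b → ‖j (p + q * w)‖ ≤ max ‖j p‖ ‖j q‖ := fun w hw => by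
    rw [map_add, map_mul]
    refine (IsUltrametricDist.norm_add_le_max _ _).trans (max_le_max le_rfl ?_)
    rw [norm_mul]
    exact mul_le_of_le_one_right (norm_nonneg _) (int w hw)
  have k1 := le ϖ hϖ
  have k2 := le (a - ϖ) (by linear_combination hϖ)
  have k3 : ‖j (p + q * ϖ)‖ * ‖j (p + q * (a - ϖ))‖ = max ‖j p‖ ‖j q‖ ^ 2 := by
    have : (p + q * ϖ) * (p + q * (a - ϖ)) = ((p ^ 2 + a * p * q - b * q ^ 2 : ℚ) : Qb) := by
      push_cast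
      linear_combination (-(q : Qb) ^ 2) * hϖ
    rw [← norm_mul, ← map_mul, this, nr, nr, nr, ← YVal_norm hirr]
    push_cast
    rfl
  refine le_antisymm k1 (not_lt.1 fun k => ?_)
  have k4 := mul_lt_mul k k2 (lt_of_le_of_ne (norm_nonneg _) fun e => by
    rw [← e, mul_zero] at k3
    rw [pow_eq_zero_iff (by norm_num) |>.1 k3.symm] at k
    exact absurd k (not_lt.2 (norm_nonneg _))) ((norm_nonneg _).trans k1)
  rw [k3, sq] at k4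
  exact lt_irrefl _ k4

end Pool.Agent.Work.MP_dd0d16_nt.LC
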