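import Pool.Agent.Work.MP_dd0d16_nt.L.Defs
import Pool.Agent.Work.MP_dd0d16_nt.L.Val
import Pool.Agent.Work.MP_dd0d16_nt.PAdic

/-!
If units close to 1 at all places above 3 are cubes of units close to 1, Leopoldt's conjecture holds at 3.

PLAN. Let `P = PadicAlgCl 3`. There are three embeddings `K →+* P` (`NumberField.Embeddings.card`), each the restriction
of some `j : Qb →+* P` (`IsAlgClosed.lift` over `K`). (a) For a unit `w` the product of its three images is the norm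
`± 1` (`Algebra.norm_eq_prod_embeddings`, `NumberField.isUnit_iff_norm`), so the three logarithms add up to zero
(`L (-1) = 0`). (b) There is `N ≥ 1` with `‖σ w ^ N - 1‖ ≤ 1 / 9` for all `σ` and all units `w` (`N` the order of the finite
group of units of `𝓞 K ⧸ span {9}`). On that disc `‖x - 1‖ ≤ ‖L x‖` (`norm_le_norm_log` in PAdic), and the disc is a group.
(c) `L (G x) = G (L x)` for an automorphism `G` of `P` over `ℚ_[3]` and `x = σ w` (series for `x^N`, `G` is an isometry: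
`spectralNorm_eq_of_equiv`, `HasSum.map`). (d) If the determinant vanishes there is `(a, b) ≠ 0` in `P^2` with
`a L (σ u) + b L (σ v) = 0` for two, hence all three embeddings. If all `L (σ u)` vanish use `(1, 0)`; otherwise `b ≠ 0`
and `a / b` is fixed by every `G` (compose `G⁻¹` with an embedding where `L (σ u) ≠ 0`), so it lies in `ℚ_[3]`
(`InfiniteGalois.mem_range_algebraMap_iff_fixed`). By symmetry in `u, v` get `c ∈ ℤ_[3]` with
`c L (σ u) + L (σ v) = 0` for all `σ`. (e) For each `i` take an integer `k` so close to `c` (`PadicInt.denseRange_intCast`)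
that `x = (u^k v)^N` has `‖σ x - 1‖ ≤ 3^(-i) / 9`; by induction on `i`, `x` is the `3^i`-th power of a unit.
(f) Coordinates in `NumberField.Units.basisModTorsion` give a homomorphism `φ` from the units to `ℤ` with `φ u = 0`,
`φ v ≠ 0` (a nonzero two by two minor; if all vanish, `u^a v^b` is torsion for some `(a, b) ≠ 0`). Then `3^i ∣ N φ v` for
all `i`.
-/

set_option autoImplicit false

namespace Pool.Agent.Work.MP_dd0d16_nt.LC

open NumberField Module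

theorem YLeo_krull {M : Type} [CommGroup M] [Module.Finite ℤ (Additive M)] {u v : M}
    (h : ∀ i : ℕ, ∃ (k : ℤ) (z : M), z ^ 3 ^ i = u ^ k * v) :
    ∃ a b : ℤ, u ^ a * v ^ b = 1 ∧ b ≠ 0 := by
  let S : Submodule ℤ (Additive M) := Submodule.span ℤ {Additive.ofMul u}
  obtain ⟨⟨r, hr⟩, e⟩ := ((Ideal.span {(3 : ℤ)}).mem_iInf_smul_pow_eq_bot_iff
    (S.mkQ (Additive.ofMul v))).1 ((Submodule.mem_iInf _).2 fun i => by
      obtain ⟨k, z, e⟩ := h i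
      have e1 : S.mkQ (Additive.ofMul v) = (3 : ℤ) ^ i • S.mkQ (Additive.ofMul z) := by
        rw [← map_smul, eq_comm, Submodule.mkQ_apply, Submodule.mkQ_apply, Submodule.Quotient.eq,
          Submodule.mem_span_singleton]
        refine ⟨k, eq_sub_of_add_eq ?_⟩
        rw [← ofMul_zpow, ← ofMul_mul, ← e, ofMul_pow, ← natCast_zsmul]
        norm_num
      exact e1 ▸ Submodule.smul_mem_smul (Ideal.pow_mem_pow (Ideal.mem_span_singleton_self _) i)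
        trivial)
  rw [← map_smul, Submodule.mkQ_apply, Submodule.mkQ_apply, Submodule.Quotient.eq,
    Submodule.mem_span_singleton] at e
  obtain ⟨a, e⟩ := e
  obtain ⟨c, rfl⟩ := Ideal.mem_span_singleton.1 hr
  refine ⟨a, 1 - 3 * c, Additive.ofMul.injective ?_, by omega⟩
  rw [ofMul_mul, ofMul_zpow, ofMul_zpow, e, sub_smul, one_smul, ofMul_one]
  abel

theorem YLeo_three {α E : Type} [Fintype α] [AddCommGroup E] (h : Fintype.card α = 3) {f : α → E}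
    (hf : ∑ a, f a = 0) {a b : α} (n : a ≠ b) (ha : f a = 0) (hb : f b = 0) (c : α) : f c = 0 := by
  classical
  by_contra k
  have h1 : c ≠ a := fun e => k (e ▸ ha)
  have h2 : c ≠ b := fun e => k (e ▸ hb)
  rw [← Finset.eq_univ_of_card {c, a, b} ((Finset.card_eq_three.2 ⟨c, a, b, h1, h2, n, rfl⟩).trans
    h.symm), Finset.sum_insert (by simp [h1, h2]), Finset.sum_pair n, ha, hb] at hf
  exact k (by simpa using hf)

section
variable {L : PadicAlgCl 3 → PadicAlgCl 3} (hL : IsLog L) {K : IntermediateField ℚ Qb}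

theorem YLeo_ext (ρ : K →+* PadicAlgCl 3) : ∃ j : Qb →+* PadicAlgCl 3, ∀ x : K, j x = ρ x := by
  have : Algebra.IsAlgebraic ℚ Qb := AlgebraicClosure.isAlgebraic ℚ
  let _ := ρ.toAlgebra
  exact ⟨(IsAlgClosed.lift : Qb →ₐ[K] PadicAlgCl 3).toRingHom,
    (IsAlgClosed.lift : Qb →ₐ[K] PadicAlgCl 3).commutes⟩

theorem YLeo_int (y : 𝓞 K) : IsIntegral ℤ ((y : K) : Qb) :=
  map_isIntegral_int (algebraMap K Qb) y.isIntegral_coe

theorem YLeo_ne (ρ : K →+* PadicAlgCl 3) (w : (𝓞 K)ˣ) : ρ (w : 𝓞 K) ≠ 0 :=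
  (map_ne_zero ρ).2 (Units.coe_ne_zero w)

theorem YLeo_pow [NumberField K] : ∃ N : ℕ, N ≠ 0 ∧ ∀ (ρ : K →+* PadicAlgCl 3) (w : (𝓞 K)ˣ),
    ‖ρ ((w ^ N : (𝓞 K)ˣ) : 𝓞 K) - 1‖ ≤ 1 / 9 := by
  have := (Ideal.span {(9 : 𝓞 K)}).finiteQuotientOfFreeOfNeBot
    (mt Ideal.span_singleton_eq_bot.1 (by norm_num))
  refine ⟨Nat.card (𝓞 K ⧸ Ideal.span {(9 : 𝓞 K)})ˣ, Nat.card_pos.ne', fun ρ w => ?_⟩
  have e := congrArg Units.val (pow_card_eq_one' (x := Units.map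
    (Ideal.Quotient.mk (Ideal.span {(9 : 𝓞 K)})).toMonoidHom w))
  rw [← map_pow, Units.coe_map, Units.val_one, ← map_one (Ideal.Quotient.mk _)] at e
  obtain ⟨y, hy⟩ := Ideal.mem_span_singleton.1 (Ideal.Quotient.eq.1 e)
  obtain ⟨j, hj⟩ := YLeo_ext ρ
  have h1 := norm_int j (YLeo_int y)
  have h2 : ‖(3 : PadicAlgCl 3)‖ = 3⁻¹ := by simpa using norm_p_eq (p := 3)
  have h3 := congrArg (ρ.comp (algebraMap (𝓞 K) K)) hy
  rw [map_sub, map_one, map_mul, map_ofNat] at h3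
  rw [hj] at h1
  refine (congrArg norm h3).trans_le ?_
  rw [norm_mul, show (9 : PadicAlgCl 3) = 3 ^ 2 by norm_num, norm_pow, h2]
  exact (mul_le_of_le_one_right (by positivity) h1).trans (by norm_num)

/-- The logarithm of a unit at an embedding. -/
noncomputable def YLeo_l (ρ : K →+* PadicAlgCl 3) : (𝓞 K)ˣ →* Multiplicative (PadicAlgCl 3) :=
  .mk' (fun w => .ofAdd (L (ρ (w : 𝓞 K)))) fun a b => by
    rw [Units.val_mul, RingOfIntegers.coe_eq_algebraMap, map_mul, map_mul]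
    exact congrArg _ (hL.1 _ _ (YLeo_ne ρ a) (YLeo_ne ρ b))

include hL

theorem YLeo_zp (ρ : K →+* PadicAlgCl 3) (u v : (𝓞 K)ˣ) (k : ℤ) (N : ℕ) :
    L (ρ (((u ^ k * v) ^ N : (𝓞 K)ˣ) : 𝓞 K)) = N * (k * L (ρ (u : 𝓞 K)) + L (ρ (v : 𝓞 K))) := by
  have e := congrArg Multiplicative.toAdd (map_pow (YLeo_l hL ρ) (u ^ k * v) N)
  rwa [map_mul, map_zpow, toAdd_pow, toAdd_mul, toAdd_zpow, nsmul_eq_mul, zsmul_eq_mul] at e

theorem YLeo_sum [NumberField K] (w : (𝓞 K)ˣ) :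
    ∑ ρ : K →+* PadicAlgCl 3, L (ρ (w : 𝓞 K)) = 0 := by
  have e := Algebra.norm_eq_prod_embeddings ℚ (PadicAlgCl 3) ((w : 𝓞 K) : K)
  rw [← Fintype.prod_equiv (RingHom.equivRatAlgHom K _) (fun ρ => ρ (w : 𝓞 K)) _
    fun _ => rfl] at e
  have h := hL.isLogF.pow (Finset.prod_ne_zero_iff.2 fun ρ (_ : ρ ∈ Finset.univ) => YLeo_ne ρ w) 2
  rw [hL.isLogF.prod _ fun ρ => YLeo_ne ρ w, ← e, ← map_pow, ← sq_abs,
    show |Algebra.norm ℚ ((w : 𝓞 K) : K)| = 1 from Units.norm K w, one_pow, map_one,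
    hL.isLogF.one] at h
  simpa using h.symm

theorem YLeo_gal [NumberField K] (G : PadicAlgCl 3 ≃ₐ[ℚ_[3]] PadicAlgCl 3)
    (ρ : K →+* PadicAlgCl 3) (w : (𝓞 K)ˣ) : G (L (ρ (w : 𝓞 K))) = L (G (ρ (w : 𝓞 K))) := by
  obtain ⟨N, hN, h⟩ := YLeo_pow (K := K)
  have iso : ∀ x, ‖G x‖ = ‖x‖ := fun x => (spectralNorm_eq_of_equiv G x).symm
  have h1 : ‖ρ (w : 𝓞 K) ^ N - 1‖ < 1 := by
    simpa using (h ρ w).trans_lt (by norm_num : (1 / 9 : ℝ) < 1)
  have h2 := (hL.2.2 _ h1).map G (AddMonoidHomClass.isometry_of_norm G iso).continuous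
  have h3 := hL.2.2 _ ((iso _).trans_lt h1)
  have e := h2.unique (by simpa [Function.comp_def] using h3)
  rw [add_sub_cancel, hL.isLogF.pow (YLeo_ne ρ w), hL.isLogF.pow ((map_ne_zero G).2 (YLeo_ne ρ w)),
    map_mul, map_natCast] at e
  exact mul_left_cancel₀ (Nat.cast_ne_zero.2 hN) e

variable (h : ∀ ε ∈ K, IsIntegral ℤ ε → IsIntegral ℤ ε⁻¹ →
      (∀ j : Qb →+* PadicAlgCl 3, ‖j ε - 1‖ ≤ 1 / 9) →
      ∃ z ∈ K, z ^ 3 = ε ∧ ∀ j : Qb →+* PadicAlgCl 3, ‖j z - 1‖ ≤ 3 * ‖j ε - 1‖)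
include h

omit hL in
theorem YLeo_root (i : ℕ) : ∀ x : (𝓞 K)ˣ, (∀ ρ : K →+* PadicAlgCl 3,
    ‖ρ (x : 𝓞 K) - 1‖ ≤ (1 / 3) ^ i / 9) → ∃ z : (𝓞 K)ˣ, z ^ 3 ^ i = x := by
  induction i with
  | zero => exact fun x _ => ⟨x, by simp⟩
  | succ i ih =>
    intro x hx
    have h1 : ∀ j : Qb →+* PadicAlgCl 3, ‖j ((x : 𝓞 K) : K) - 1‖ ≤ (1 / 3) ^ (i + 1) / 9 :=
      fun j => hx (j.comp (algebraMap K Qb))
    obtain ⟨z, hz, e, k⟩ := h _ ((x : 𝓞 K) : K).2 (YLeo_int _)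
      (by simpa using YLeo_int ((x⁻¹ : (𝓞 K)ˣ) : 𝓞 K))
      fun j => (h1 j).trans (div_le_div_of_nonneg_right (pow_le_one₀ (by norm_num) (by norm_num))
        (by norm_num))
    have e1 : (⟨z, hz⟩ : K) ^ 3 = (x : 𝓞 K) := Subtype.ext e
    let t : 𝓞 K := ⟨⟨z, hz⟩, IsIntegral.of_pow three_pos (e1 ▸ (x : 𝓞 K).isIntegral_coe)⟩
    have e2 : t ^ 3 = x := RingOfIntegers.ext e1
    obtain ⟨y, hy⟩ := (isUnit_pow_iff three_ne_zero).1 (e2 ▸ x.isUnit)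
    obtain ⟨w, hw⟩ := ih y fun ρ => by
      obtain ⟨j, hj⟩ := YLeo_ext ρ
      rw [← hj, hy]
      exact (k j).trans (by linarith [h1 j, pow_succ (1 / 3 : ℝ) i])
    exact ⟨w, Units.ext (by rw [pow_succ, pow_mul, hw, Units.val_pow_eq_pow_val, hy, e2])⟩

theorem YLeo_key [NumberField K] {u v : (𝓞 K)ˣ} {c : ℚ_[3]} (hc : ‖c‖ ≤ 1)
    (e : ∀ ρ : K →+* PadicAlgCl 3, c * L (ρ (u : 𝓞 K)) + L (ρ (v : 𝓞 K)) = 0) :
    ∃ a b : ℤ, u ^ a * v ^ b = 1 ∧ b ≠ 0 := by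
  obtain ⟨N, hN, hp⟩ := YLeo_pow (K := K)
  obtain ⟨a, b, e1, e2⟩ := YLeo_krull (u := u) (v := v ^ N) fun i => by
    obtain ⟨k, hk⟩ := PadicInt.denseRange_intCast.exists_dist_lt (⟨c, hc⟩ : ℤ_[3])
      (show 0 < (1 / 3 : ℝ) ^ i by positivity)
    obtain ⟨z, hz⟩ := YLeo_root h i ((u ^ k * v) ^ N) fun ρ => by
      refine (norm_le_norm_log hL ((hp ρ _).trans (by norm_num))).trans ?_
      have h1 := log_tail norm_int_ge (hp ρ u) (by norm_num)
        (hL.2.2 _ ((hp ρ u).trans_lt (by norm_num))) 0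
      have h2 := YLeo_zp hL ρ 1 u 0 N
      have h3 : ‖((c - k : ℚ_[3]) : PadicAlgCl 3)‖ < (1 / 3) ^ i := by
        rw [PadicAlgCl.norm_extends]
        exact ((dist_eq_norm c _).symm.trans_lt hk).trans_eq' (by rw [PadicInt.coe_intCast])
      simp only [zpow_zero, one_mul, Int.cast_zero, zero_mul, zero_add] at h2
      simp only [add_sub_cancel, h2, Finset.range_zero, Finset.sum_empty, sub_zero] at h1
      rw [YLeo_zp hL, eq_neg_of_add_eq_zero_right (e ρ), ← sub_eq_add_neg, ← sub_mul,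
        mul_left_comm, norm_mul, norm_sub_rev]
      rw [map_sub, map_intCast] at h3
      exact (mul_le_mul h3.le h1 (norm_nonneg _) (by positivity)).trans_eq (by ring)
    exact ⟨k * N, z, by rw [hz, mul_pow, zpow_mul, zpow_natCast]⟩
  exact ⟨a, N * b, by rwa [zpow_mul, zpow_natCast], mul_ne_zero (Nat.cast_ne_zero.2 hN) e2⟩

end

theorem leop_of_inj {L : PadicAlgCl 3 → PadicAlgCl 3} (hL : IsLog L) (K : IntermediateField ℚ Qb)
    [NumberField K] (h3 : finrank ℚ K = 3)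
    (h : ∀ ε ∈ K, IsIntegral ℤ ε → IsIntegral ℤ ε⁻¹ →
      (∀ j : Qb →+* PadicAlgCl 3, ‖j ε - 1‖ ≤ 1 / 9) →
      ∃ z ∈ K, z ^ 3 = ε ∧ ∀ j : Qb →+* PadicAlgCl 3, ‖j z - 1‖ ≤ 3 * ‖j ε - 1‖) :
    Leop L K := by
  intro u v ind σ τ n hd
  have k1 := fun c hc e => (YLeo_key hL h (u := u) (v := v) (c := c) hc e).elim
    fun a ⟨b, e1, e2⟩ => e2 (ind a b e1).2
  have k2 := fun c hc e => (YLeo_key hL h (u := v) (v := u) (c := c) hc e).elim
    fun a ⟨b, e1, e2⟩ => e2 (ind b a (mul_comm (u ^ b) _ ▸ e1)).1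
  have mnr : ∀ {σ τ : K →+* PadicAlgCl 3}, σ ≠ τ →
      L (σ (u : 𝓞 K)) * L (τ (v : 𝓞 K)) - L (σ (v : 𝓞 K)) * L (τ (u : 𝓞 K)) = 0 → ∀ ρ : K →+* _,
      L (σ (u : 𝓞 K)) * L (ρ (v : 𝓞 K)) - L (σ (v : 𝓞 K)) * L (ρ (u : 𝓞 K)) = 0 :=
    fun n e => YLeo_three ((Embeddings.card K _).trans h3) (by
      rw [Finset.sum_sub_distrib, ← Finset.mul_sum, ← Finset.mul_sum, YLeo_sum hL, YLeo_sum hL]
      simp) n (by ring) e
  by_cases h0 : ∀ ρ : K →+* PadicAlgCl 3, L (ρ (u : 𝓞 K)) = 0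
  · exact k2 0 (by simp) fun ρ => by simp [h0]
  obtain ⟨ρ, h0⟩ := not_forall.1 h0
  have m1 := mnr n (by simpa [Matrix.det_fin_two_of] using hd)
  have m2 : ∀ ρ' : K →+* PadicAlgCl 3,
      -L (ρ (v : 𝓞 K)) / L (ρ (u : 𝓞 K)) * L (ρ' (u : 𝓞 K)) + L (ρ' (v : 𝓞 K)) = 0 := fun ρ' => by
    have := (eq_or_ne ρ σ).elim (fun e => e ▸ m1 ρ')
      fun e => mnr e (by linear_combination -m1 ρ) ρ'
    field_simp
    linear_combination this
  obtain ⟨c, hc⟩ := (InfiniteGalois.mem_range_algebraMap_iff_fixed (k := ℚ_[3])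
    (-L (ρ (v : 𝓞 K)) / L (ρ (u : 𝓞 K)))).2 fun G => by
      have e := congrArg G (m2 ((G.symm : PadicAlgCl 3 →+* PadicAlgCl 3).comp ρ))
      rw [map_add, map_mul, YLeo_gal hL, YLeo_gal hL, map_zero] at e
      simp only [RingHom.comp_apply, RingHom.coe_coe, AlgEquiv.apply_symm_apply] at e
      exact eq_div_of_mul_eq h0 (eq_neg_of_add_eq_zero_left e)
  rw [← hc] at m2
  rcases le_total ‖c‖ 1 with l | l
  · exact k1 c l m2
  · have c0 : c ≠ 0 := norm_pos_iff.1 (one_pos.trans_le l)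
    refine k2 c⁻¹ ((norm_inv c).trans_le (inv_le_one_of_one_le₀ l)) fun ρ' => ?_
    rw [map_inv₀, eq_neg_of_add_eq_zero_right (m2 ρ'), mul_neg,
      inv_mul_cancel_left₀ ((map_ne_zero _).2 c0), neg_add_cancel]

end Pool.Agent.Work.MP_dd0d16_nt.LC
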