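import Pool.Agent.Work.MP_dd0d16_nt.L.Count

/-!
Squarefree `m ≡ 7 mod 24` without a reduced form have positive density.
-/

set_option autoImplicit false

namespace Pool.Agent.Work.MP_dd0d16_nt.LC

open Filter

theorem YSieve_fin (Y : ℝ) (p : ℕ → Prop) : {m : ℕ | (m : ℝ) ≤ Y ∧ p m}.Finite :=
  (Set.finite_le_nat ⌊Y⌋₊).subset fun _ k => Nat.le_floor k.1

theorem YSieve_one (k J : ℕ) :
    (((Finset.range J).filter fun j => k ^ 2 ∣ 24 * j + 7).card : ℝ) ≤ J / k ^ 2 + 1 := by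
  have : ((Finset.range J).filter fun j => k ^ 2 ∣ 24 * j + 7).card ≤
      (Finset.range (J / k ^ 2 + 1)).card := by
    refine Finset.card_le_card_of_injOn (fun j => j / k ^ 2) (fun j hj => ?_) fun a ha b hb e => ?_
    · exact Finset.mem_range.2 (Nat.lt_succ_of_le (Nat.div_le_div_right
        (Finset.mem_range.1 (Finset.mem_filter.1 hj).1).le))
    · have h1 := (Finset.mem_filter.1 ha).2
      have h2 := (Finset.mem_filter.1 hb).2
      have c : Nat.Coprime (24 * a + 7) 24 := by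
        rw [Nat.coprime_mul_left_add_left]
        decide
      have h : a ≡ b [MOD k ^ 2] := Nat.ModEq.cancel_left_of_coprime (c.coprime_dvd_left h1)
        (Nat.ModEq.add_right_cancel' 7
          ((Nat.modEq_zero_iff_dvd.2 h1).trans (Nat.modEq_zero_iff_dvd.2 h2).symm))
      rw [← Nat.div_add_mod a (k ^ 2), ← Nat.div_add_mod b (k ^ 2), show a / k ^ 2 = b / k ^ 2 from e,
        show a % k ^ 2 = b % k ^ 2 from h]
  rw [Finset.card_range] at this
  have h := (Nat.cast_le (α := ℝ)).2 this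
  have h' := Nat.cast_div_le (α := ℝ) (m := J) (n := k ^ 2)
  push_cast at h h'
  linarith

theorem YSieve_sum (R : ℕ) :
    ∑ i ∈ Finset.range R, 1 / ((2 * i + 5 : ℕ) : ℝ) ^ 2 ≤ 1 / 8 - 1 / (4 * ((R : ℝ) + 2)) := by
  induction R with
  | zero => norm_num
  | succ R ih =>
    rw [Finset.sum_range_succ]
    have : 1 / ((2 * R + 5 : ℕ) : ℝ) ^ 2 ≤ 1 / (4 * (R + 2)) - 1 / (4 * (((R + 1 : ℕ) : ℝ) + 2)) := by
      push_cast
      rw [div_sub_div _ _ (by positivity) (by positivity), div_le_div_iff₀ (by positivity)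
        (by positivity)]
      nlinarith
    linarith

theorem YSieve_cnt {J N : ℕ} (h : 24 * J ≤ N + 17) : 7 / 8 * (J : ℝ) - N.sqrt ≤
    ((Finset.range J).filter fun j => Squarefree (24 * j + 7)).card := by
  have h1 : ((Finset.range J).filter fun j => ¬ Squarefree (24 * j + 7)) ⊆
      (Finset.range N.sqrt).biUnion fun i =>
        (Finset.range J).filter fun j => (2 * i + 5) ^ 2 ∣ 24 * j + 7 := fun j hj => by
    obtain ⟨k1, k2⟩ := Finset.mem_filter.1 hj
    rw [Nat.squarefree_iff_prime_squarefree] at k2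
    push Not at k2
    obtain ⟨p, hp, hd⟩ := k2
    have k3 := Finset.mem_range.1 k1
    have k4 : p ≤ N.sqrt := Nat.le_sqrt.2 ((Nat.le_of_dvd (by omega) hd).trans (by omega))
    have k5 := (Dvd.intro _ rfl : p ∣ p * p).trans hd
    have k6 := hp.two_le
    have k7 : p % 2 = 1 := hp.eq_two_or_odd.resolve_left (by rintro rfl; omega)
    have k8 : p ≠ 3 := by rintro rfl; omega
    refine Finset.mem_biUnion.2 ⟨(p - 5) / 2, Finset.mem_range.2 (by omega),
      Finset.mem_filter.2 ⟨k1, ?_⟩⟩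
    rwa [show 2 * ((p - 5) / 2) + 5 = p by omega, sq]
  have h2 := (Nat.cast_le (α := ℝ)).2 ((Finset.card_le_card h1).trans Finset.card_biUnion_le)
  have h3 := congrArg (Nat.cast (R := ℝ)) (Finset.card_filter_add_card_filter_not
    (s := Finset.range J) fun j => Squarefree (24 * j + 7))
  rw [Nat.cast_sum] at h2
  have h4 := h2.trans (Finset.sum_le_sum fun i _ => YSieve_one (2 * i + 5) J)
  simp only [div_eq_mul_one_div (J : ℝ)] at h4
  rw [Finset.sum_add_distrib, ← Finset.mul_sum] at h4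
  have h5 := mul_le_mul_of_nonneg_left ((YSieve_sum N.sqrt).trans (sub_le_self _ (by positivity)))
    (Nat.cast_nonneg (α := ℝ) J)
  simp only [Finset.sum_const, Finset.card_range, nsmul_eq_mul, mul_one, Nat.cast_add] at h3 h4 h5
  linarith

theorem sieve : ∀ᶠ Y : ℝ in atTop,
    35 / 1000 * Y ≤ ({m : ℕ | (m : ℝ) ≤ Y ∧ m % 24 = 7 ∧ Squarefree m}.ncard : ℝ) := by
  filter_upwards [eventually_ge_atTop (10 ^ 6 : ℝ)] with Y hY
  have Y0 : 0 ≤ Y := by linarith
  obtain ⟨N, hN⟩ : ∃ N, N = ⌊Y⌋₊ := ⟨_, rfl⟩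
  have n1 : (N : ℝ) ≤ Y := hN ▸ Nat.floor_le Y0
  have n2 : Y < N + 1 := hN ▸ Nat.lt_floor_add_one Y
  obtain ⟨J, hJ⟩ : ∃ J, J = (N + 17) / 24 := ⟨_, rfl⟩
  have j1 : (N : ℝ) ≤ 24 * J + 6 := by exact_mod_cast (show N ≤ 24 * J + 6 by omega)
  have h1 := YSieve_cnt (J := J) (N := N) (by omega)
  have h2 : ((Finset.range J).filter fun j => Squarefree (24 * j + 7)).card ≤
      {m : ℕ | (m : ℝ) ≤ Y ∧ m % 24 = 7 ∧ Squarefree m}.ncard := by
    rw [← Set.ncard_coe_finset]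
    refine Set.ncard_le_ncard_of_injOn (fun j => 24 * j + 7) (fun j hj => ?_)
      (fun a _ b _ e => by simpa using e) (YSieve_fin Y _)
    obtain ⟨k1, k2⟩ := Finset.mem_filter.1 (Finset.mem_coe.1 hj)
    rw [Finset.mem_range] at k1
    exact ⟨(Nat.cast_le.2 (show 24 * j + 7 ≤ N by omega)).trans n1, by omega, k2⟩
  have h3 : ((N.sqrt : ℝ)) ^ 2 ≤ N := by exact_mod_cast Nat.sqrt_le' N
  have h4 : 1000 * (N.sqrt : ℝ) ≤ Y := by
    by_contra k
    nlinarith
  have h5 := (Nat.cast_le (α := ℝ)).2 h2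
  linarith

theorem good_count : ∀ᶠ Y : ℝ in atTop,
    5 / 1000 * Y ≤ ({m : ℕ | (m : ℝ) ≤ Y ∧ m % 24 = 7 ∧ Squarefree m ∧ NoForm m}.ncard : ℝ) := by
  filter_upwards [sieve, count_seven] with Y h1 h2
  have f2 : {f : Fin 4 → ℤ | Red f ∧ ((hM f : ℤ) : ℝ) ≤ Y ∧ hM f % 24 = 7}.Finite :=
    (red_finite Y).subset fun f k => ⟨k.1, k.2.1⟩
  have h3 := (Set.ncard_le_ncard (s := {m : ℕ | (m : ℝ) ≤ Y ∧ m % 24 = 7 ∧ Squarefree m})
    (fun m k => by
      by_cases c : NoForm m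
      · exact Or.inl ⟨k.1, k.2.1, k.2.2, c⟩
      · simp only [NoForm, not_forall, not_not] at c
        obtain ⟨f, a, b⟩ := c
        have := k.2.1
        exact Or.inr ⟨f, ⟨a, by rw [b]; exact_mod_cast k.1, by omega⟩, by simp [b]⟩)
    ((YSieve_fin Y fun m => m % 24 = 7 ∧ Squarefree m ∧ NoForm m).union
      (f2.image fun f => (hM f).toNat))).trans
    ((Set.ncard_union_le _ _).trans (Nat.add_le_add_left (Set.ncard_image_le f2) _))
  have h4 := (Nat.cast_le (α := ℝ)).2 h3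
  push_cast at h4
  linarith

end Pool.Agent.Work.MP_dd0d16_nt.LC
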