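import Pool.Agent.Work.MP_dd0d16_nt.L.All
import Pool.Agent.Work.MP_dd0d16_nt.L.Sieve
import Pool.Agent.Work.MP_dd0d16_nt.L.Inj
import Pool.Agent.Work.MP_dd0d16_nt.L.Leo

/-!
Leopoldt's conjecture at 3 for a positive proportion of totally real cubic fields.
-/

set_option autoImplicit false

namespace Pool.Agent.Work.MP_dd0d16_nt.LC

open IntermediateField NumberField Module Filter

theorem field_of_good {L : PadicAlgCl 3 → PadicAlgCl 3} (hL : IsLog L) {m : ℕ} (hm : m % 24 = 7)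
    (hq : Squarefree m) (hN : NoForm m) : ∃ K : IntermediateField ℚ Qb,
      K ∈ Cubic (108 * m) ∧ Leop L K ∧ ∃ (_ : NumberField K) (k : ℤ), k ^ 2 * discr K = 108 * m := by
  obtain ⟨s, hs⟩ := IsAlgClosed.exists_pow_nat_eq (-(m : Qb)) two_pos
  obtain ⟨r, hr⟩ := IsAlgClosed.exists_pow_nat_eq (-3 : Qb) two_pos
  obtain ⟨u, v, n, p₁, q₁, p₂, q₂, hn, n0, i1, i2, i3, i4, hdet, hβ, j, hj⟩ :=
    exists_beta (by omega) hq hs hN
  obtain ⟨h1, h2⟩ := exists_signs (by omega) hs hr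
  have m0 : (m : Qb) ≠ 0 := Nat.cast_ne_zero.2 (by omega)
  obtain ⟨d, rfl, rfl, dD, rfl, rfl, rfl⟩ := exists_KD (D := -m) (u := u) (v := v) (n := n)
    (by rw [hs]; push_cast; ring) (fun h => m0 (by rw [h] at hs; linear_combination hs)) hr
    (by linear_combination hn) n0 h1 h2 (by
      intro z hz h
      obtain ⟨w, hw, hw'⟩ := desc1 j (b := r) (by rw [hr]; exact neg_mem (ofNat_mem _ 3))
        (add_mem (SubfieldClass.ratCast_mem _ u)
          (mul_mem (SubfieldClass.ratCast_mem _ v) (mem_adjoin_simple_self _ _)))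
        ⟨z, hz, by rw [← h, map_pow, norm_pow]⟩
      exact hj w hw hw')
  have := d.nf
  obtain ⟨k, hk⟩ := d.discr_K i1 i2 i3 i4
  rw [hdet, dD] at hk
  have hk' : k ^ 2 * discr d.K = 108 * m := by
    refine Int.cast_injective (α := ℚ) ?_
    push_cast
    linear_combination hk
  have mp : (0 : ℤ) < m := by omega
  have k0 : k ≠ 0 := by
    rintro rfl
    simp at hk'
    omega
  have k1 : 0 < k ^ 2 := by positivity
  have d0 : 0 < discr d.K := by
    by_contra h
    nlinarith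
  refine ⟨d.K, ⟨this, d.finrank_K, real_of_discr _ d.finrank_K d0, d.not_galois, ?_⟩,
    leop_of_inj hL d.K d.finrank_K fun ε e0 e1 e2 e3 => d.inj hm hq hN dD hβ e0 e1 e2 e3,
    this, k, hk'⟩
  have h3 : discr d.K ≤ 108 * m := by nlinarith
  have h4 : |discr d.K| ≤ 108 * m := by rwa [abs_of_pos d0]
  exact_mod_cast h4

theorem YFinal_sq {m m' : ℕ} (h : Squarefree m) (h' : Squarefree m') {D k k' : ℤ}
    (e : k ^ 2 * D = 108 * m) (e' : k' ^ 2 * D = 108 * m') : m = m' := by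
  have m0 := h.ne_zero
  have m0' := h'.ne_zero
  have k0 : k.natAbs ≠ 0 := by
    rw [Int.natAbs_ne_zero]
    rintro rfl
    simp at e
    omega
  have k0' : k'.natAbs ≠ 0 := by
    rw [Int.natAbs_ne_zero]
    rintro rfl
    simp at e'
    omega
  have h1 : m * k'.natAbs ^ 2 = m' * k.natAbs ^ 2 := by
    have : (m : ℤ) * k' ^ 2 = m' * k ^ 2 := by
      have : 108 * ((m : ℤ) * k' ^ 2) = 108 * (m' * k ^ 2) := by
        linear_combination k ^ 2 * e' - k' ^ 2 * e
      omega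
    have h2 := congrArg Int.natAbs this
    simpa [Int.natAbs_mul, Int.natAbs_pow] using h2
  refine Nat.eq_of_factorization_eq m0 m0' fun p => ?_
  have h2 := congrArg (fun n => n.factorization p) h1
  simp only [Nat.factorization_mul m0 (pow_ne_zero 2 k0'),
    Nat.factorization_mul m0' (pow_ne_zero 2 k0), Nat.factorization_pow, Finsupp.add_apply,
    Finsupp.smul_apply, smul_eq_mul] at h2
  have h3 := h.natFactorization_le_one p
  have h4 := h'.natFactorization_le_one p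
  omega

theorem Cubic_mono {X Y : ℝ} (h : X ≤ Y) : Cubic X ⊆ Cubic Y :=
  fun _ ⟨i, h1, h2, h3, h4⟩ => ⟨i, h1, h2, h3, h4.trans h⟩

theorem final {L : PadicAlgCl 3 → PadicAlgCl 3} (hL : IsLog L) :
    ∃ c : ℝ, 0 < c ∧ ∀ᶠ X : ℝ in atTop, (Cubic X).Finite ∧
      c * (X + (Cubic X).ncard) ≤ ({K | K ∈ Cubic X ∧ Leop L K}.ncard : ℝ) := by
  refine ⟨5 / 1080000, by norm_num, ?_⟩
  have ht : Tendsto (fun X : ℝ => X / 108) atTop atTop := tendsto_id.atTop_div_const (by norm_num)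
  filter_upwards [ht.eventually good_count, all_le] with X h1 h2
  refine ⟨cubic_finite X, ?_⟩
  have key : ∀ m : ℕ, ∃ K : IntermediateField ℚ Qb, m % 24 = 7 ∧ Squarefree m ∧ NoForm m →
      K ∈ Cubic (108 * m) ∧ Leop L K ∧
        ∃ (_ : NumberField K) (k : ℤ), k ^ 2 * discr K = 108 * m := by
    intro m
    by_cases h : m % 24 = 7 ∧ Squarefree m ∧ NoForm m
    · obtain ⟨K, hK⟩ := field_of_good hL h.1 h.2.1 h.2.2
      exact ⟨K, fun _ => hK⟩
    · exact ⟨⊥, fun h' => absurd h' h⟩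
  choose F hF using key
  have h3 := Set.ncard_le_ncard_of_injOn
    (s := {m : ℕ | (m : ℝ) ≤ X / 108 ∧ m % 24 = 7 ∧ Squarefree m ∧ NoForm m})
    (t := {K | K ∈ Cubic X ∧ Leop L K}) F
    (fun m hm => ⟨Cubic_mono (by linarith [hm.1]) (hF m hm.2).1, (hF m hm.2).2.1⟩)
    (fun m hm m' hm' e => by
      obtain ⟨-, -, i, k, hk⟩ := hF m hm.2
      obtain ⟨-, -, i', k', hk'⟩ := hF m' hm'.2
      have : @discr (F m) _ i = @discr (F m') _ i' := by
        revert i i'
        rw [e]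
        intro i _ i' _
        rfl
      rw [this] at hk
      exact YFinal_sq hm.2.2.1 hm'.2.2.1 hk hk')
    ((cubic_finite X).subset fun K hK => hK.1)
  have h4 : (({m : ℕ | (m : ℝ) ≤ X / 108 ∧ m % 24 = 7 ∧ Squarefree m ∧ NoForm m}.ncard : ℕ) : ℝ) ≤
      ({K | K ∈ Cubic X ∧ Leop L K}.ncard : ℝ) := by exact_mod_cast h3
  linarith

end Pool.Agent.Work.MP_dd0d16_nt.LC
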