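import Mathlib

/-!
Binary cubic forms `a x^3 + 3 b x^2 y + 3 c x y^2 + e y^3`, their Hessian `(A, B, C)`, and reduction.

PLAN. Identities (all by `ring`), with `a, b, c, e = f 0, f 1, f 2, f 3` and `H(x, y) = A x^2 + B x y + C y^2`:
`(2 b A - a B)^2 + M a^2 = 4 A^3`, `H(b, -a) = A^2`, `H(c, -b) = A C`, `H(e, -c) = C^2`,
`4 A H(x, y) = (2 A x + B y)^2 + M y^2`, `4 C H(x, y) = (B x + 2 C y)^2 + M x^2`.
`reduce`: strong induction on `(hA f).toNat`. Moves: shift `(a, b + k a, c + 2 k b + k^2 a, e + 3 k c + 3 k^2 b + k^3 a)`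
(`A` fixed, `B` becomes `B + 2 k A`, root `ρ - k`), swap `(e, c, b, a)` (`A` and `C` exchanged, root `1 / ρ`; `ρ ≠ 0`
since `e ≠ 0`), sign `(a, -b, c, -e)` (`B` becomes `-B`, root `-ρ`), negation. `NoRoot` gives `a ≠ 0` and `e ≠ 0`,
and then `0 < A` by the first identity.
-/

set_option autoImplicit false

namespace Pool.Agent.Work.MP_dd0d16_nt.LC

abbrev Qb : Type := AlgebraicClosure ℚ

section
variable {R : Type} [CommRing R]

def hA (f : Fin 4 → R) : R := f 1 ^ 2 - f 0 * f 2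
def hB (f : Fin 4 → R) : R := f 1 * f 2 - f 0 * f 3
def hC (f : Fin 4 → R) : R := f 2 ^ 2 - f 1 * f 3
def hM (f : Fin 4 → R) : R := 4 * hA f * hC f - hB f ^ 2

def ev (f : Fin 4 → ℤ) (x y : R) : R :=
  f 0 * x ^ 3 + 3 * f 1 * x ^ 2 * y + 3 * f 2 * x * y ^ 2 + f 3 * y ^ 3

end

def NoRoot (f : Fin 4 → ℤ) : Prop := ∀ x y : ℤ, ev f x y = 0 → x = 0 ∧ y = 0

def Red (f : Fin 4 → ℤ) : Prop := 1 ≤ f 0 ∧ 0 < hA f ∧ 0 ≤ hB f ∧ hB f ≤ hA f ∧ hA f ≤ hC f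

/-- No reduced form has invariant `m`. -/
def NoForm (m : ℕ) : Prop := ∀ f : Fin 4 → ℤ, Red f → hM f ≠ m

/-- `g` has the invariant of `f`, no rational root, and a root in every field where `f` has one. -/
def YForm_R (f g : Fin 4 → ℤ) : Prop :=
  hM g = hM f ∧ NoRoot g ∧
    ∀ K : IntermediateField ℚ Qb, (∃ ρ ∈ K, ev f ρ 1 = 0) → ∃ ρ ∈ K, ev g ρ 1 = 0

theorem YForm_refl {f : Fin 4 → ℤ} (h : NoRoot f) : YForm_R f f := ⟨rfl, h, fun _ h => h⟩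

theorem YForm_trans {f g k : Fin 4 → ℤ} (h : YForm_R f g) (h' : YForm_R g k) : YForm_R f k :=
  ⟨h'.1.trans h.1, h'.2.1, fun K hK => h'.2.2 K (h.2.2 K hK)⟩

theorem YForm_a {f : Fin 4 → ℤ} (h : NoRoot f) : f 0 ≠ 0 := fun e =>
  one_ne_zero (h 1 0 (by simp [ev, e])).1

theorem YForm_e {f : Fin 4 → ℤ} (h : NoRoot f) : f 3 ≠ 0 := fun e =>
  one_ne_zero (h 0 1 (by simp [ev, e])).2

theorem YForm_i0 (f : Fin 4 → ℤ) :
    (2 * f 1 * hA f - f 0 * hB f) ^ 2 + hM f * f 0 ^ 2 = 4 * hA f ^ 3 := by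
  simp only [hM, hA, hB, hC]; ring

theorem YForm_pos {f : Fin 4 → ℤ} (h : NoRoot f) (hm : 0 < hM f) : 0 < hA f := by
  have h1 := YForm_i0 f
  have h2 : 0 < hM f * f 0 ^ 2 := mul_pos hm (pow_two_pos_of_ne_zero (YForm_a h))
  have h3 : 0 < hA f ^ 3 := by nlinarith [sq_nonneg (2 * f 1 * hA f - f 0 * hB f)]
  exact (Odd.pow_pos_iff (by decide)).1 h3

theorem YForm_shift {f : Fin 4 → ℤ} (h : NoRoot f) (k : ℤ) :
    ∃ g, YForm_R f g ∧ hA g = hA f ∧ hB g = hB f + 2 * k * hA f := by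
  have key : ∀ {R : Type} [CommRing R] (x y : R), ev ![f 0, f 1 + k * f 0,
      f 2 + 2 * k * f 1 + k ^ 2 * f 0, f 3 + 3 * k * f 2 + 3 * k ^ 2 * f 1 + k ^ 3 * f 0] x y =
      ev f (x + k * y) y := by
    intro R _ x y
    simp only [ev, Matrix.cons_val]
    push_cast
    ring
  refine ⟨![f 0, f 1 + k * f 0, f 2 + 2 * k * f 1 + k ^ 2 * f 0,
    f 3 + 3 * k * f 2 + 3 * k ^ 2 * f 1 + k ^ 3 * f 0], ⟨?_, fun x y e => ?_, ?_⟩, ?_, ?_⟩
  · simp only [hM, hA, hB, hC, Matrix.cons_val]; ring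
  · obtain ⟨h1, rfl⟩ := h _ _ ((key x y).symm.trans e)
    exact ⟨by simpa using h1, rfl⟩
  · rintro K ⟨ρ, hρ, e⟩
    refine ⟨ρ - k, sub_mem hρ (intCast_mem K k), ?_⟩
    rwa [key, mul_one, sub_add_cancel]
  · simp only [hA, Matrix.cons_val]; ring
  · simp only [hA, hB, Matrix.cons_val]; ring

theorem YForm_swap {f : Fin 4 → ℤ} (h : NoRoot f) : ∃ g, YForm_R f g ∧ hA g = hC f := by
  refine ⟨![f 3, f 2, f 1, f 0], ⟨?_, fun x y e => ?_, ?_⟩, ?_⟩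
  · simp only [hM, hA, hB, hC, Matrix.cons_val]; ring
  · refine (h y x (Eq.trans ?_ e)).symm
    simp only [ev, Matrix.cons_val]; ring
  · rintro K ⟨ρ, hρ, e⟩
    have h0 : ρ ≠ 0 := by
      rintro rfl
      exact YForm_e h (by simpa [ev] using e)
    refine ⟨ρ⁻¹, inv_mem hρ, mul_left_cancel₀ (pow_ne_zero 3 h0) ?_⟩
    rw [mul_zero, ← e]
    simp only [ev, Matrix.cons_val]
    field_simp
    ring
  · simp only [hA, hC, Matrix.cons_val]; ring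

theorem YForm_sign {f : Fin 4 → ℤ} (h : NoRoot f) :
    ∃ g, YForm_R f g ∧ hA g = hA f ∧ hB g = |hB f| ∧ hC g = hC f := by
  rcases le_total 0 (hB f) with c | c
  · exact ⟨f, YForm_refl h, rfl, (abs_of_nonneg c).symm, rfl⟩
  have key : ∀ {R : Type} [CommRing R] (x y : R),
      ev ![f 0, -f 1, f 2, -f 3] x y = -ev f (-x) y := by
    intro R _ x y
    simp only [ev, Matrix.cons_val]
    push_cast
    ring
  refine ⟨![f 0, -f 1, f 2, -f 3], ⟨?_, fun x y e => ?_, ?_⟩, ?_, ?_, ?_⟩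
  · simp only [hM, hA, hB, hC, Matrix.cons_val]; ring
  · obtain ⟨h1, h2⟩ := h _ _ (neg_eq_zero.1 ((key x y).symm.trans e))
    exact ⟨neg_eq_zero.1 h1, h2⟩
  · rintro K ⟨ρ, hρ, e⟩
    exact ⟨-ρ, neg_mem hρ, by rw [key, neg_neg, e, neg_zero]⟩
  · simp only [hA, Matrix.cons_val]; ring
  · rw [abs_of_nonpos c]; simp only [hB, Matrix.cons_val]; ring
  · simp only [hC, Matrix.cons_val]; ring

theorem YForm_neg {f : Fin 4 → ℤ} (h : NoRoot f) :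
    ∃ g, YForm_R f g ∧ hA g = hA f ∧ hB g = hB f ∧ hC g = hC f ∧ 1 ≤ g 0 := by
  rcases lt_or_gt_of_ne (YForm_a h) with c | c
  swap
  · exact ⟨f, YForm_refl h, rfl, rfl, rfl, c⟩
  have key : ∀ {R : Type} [CommRing R] (x y : R), ev (-f) x y = -ev f x y := by
    intro R _ x y
    simp only [ev, Pi.neg_apply]
    push_cast
    ring
  refine ⟨-f, ⟨?_, fun x y e => ?_, ?_⟩, ?_, ?_, ?_, ?_⟩
  · simp only [hM, hA, hB, hC, Pi.neg_apply]; ring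
  · exact h _ _ (neg_eq_zero.1 ((key x y).symm.trans e))
  · rintro K ⟨ρ, hρ, e⟩
    exact ⟨ρ, hρ, by rw [key, e, neg_zero]⟩
  · simp only [hA, Pi.neg_apply]; ring
  · simp only [hB, Pi.neg_apply]; ring
  · simp only [hC, Pi.neg_apply]; ring
  · rw [Pi.neg_apply]; omega

theorem YForm_main (n : ℕ) : ∀ f : Fin 4 → ℤ, hA f ≤ n → NoRoot f → 0 < hM f →
    ∃ g, Red g ∧ YForm_R f g := by
  induction n with
  | zero => exact fun f hn h0 hm => absurd (YForm_pos h0 hm) (not_lt.2 hn)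
  | succ n ih =>
    intro f hn h0 hm
    have hp := YForm_pos h0 hm
    obtain ⟨f1, r1, a1, b1⟩ := YForm_shift h0 (-((hB f + hA f) / (2 * hA f)))
    rcases lt_or_ge (hC f1) (hA f) with c | c
    · obtain ⟨f2, r2, a2⟩ := YForm_swap r1.2.1
      obtain ⟨g, hg, r3⟩ := ih f2 (by push_cast at hn; omega) r2.2.1 (by rwa [r2.1, r1.1])
      exact ⟨g, hg, YForm_trans r1 (YForm_trans r2 r3)⟩
    · obtain ⟨f2, r2, a2, b2, c2⟩ := YForm_sign r1.2.1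
      obtain ⟨f3, r3, a3, b3, c3, d3⟩ := YForm_neg r2.2.1
      have e1 := Int.emod_add_mul_ediv (hB f + hA f) (2 * hA f)
      have e2 := Int.emod_nonneg (hB f + hA f) (show 2 * hA f ≠ 0 by omega)
      have e3 := Int.emod_lt_of_pos (hB f + hA f) (show 0 < 2 * hA f by omega)
      refine ⟨f3, ⟨d3, by omega, ?_, ?_, by omega⟩, YForm_trans r1 (YForm_trans r2 r3)⟩
      · rw [b3, b2]; exact abs_nonneg _
      · rw [b3, b2, a3, a2, a1, b1, abs_le]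
        constructor <;> linarith

theorem reduce (f : Fin 4 → ℤ) (h0 : NoRoot f) (hm : 0 < hM f) :
    ∃ g : Fin 4 → ℤ, Red g ∧ hM g = hM f ∧ NoRoot g ∧
      ∀ K : IntermediateField ℚ Qb, (∃ ρ ∈ K, ev f ρ 1 = 0) → ∃ ρ ∈ K, ev g ρ 1 = 0 := by
  obtain ⟨g, hg, h⟩ := YForm_main (hA f).toNat f (Int.self_le_toNat _) h0 hm
  exact ⟨g, hg, h⟩

theorem Red.bounds {f : Fin 4 → ℤ} (h : Red f) :
    3 * hA f ^ 2 ≤ hM f ∧ 3 * hA f * hC f ≤ hM f ∧ 3 * f 0 ^ 2 ≤ 4 * hA f ∧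
      3 * f 1 ^ 2 ≤ 4 * hA f ∧ 3 * f 2 ^ 2 ≤ 4 * hC f ∧ hM f * f 3 ^ 2 ≤ 4 * hC f ^ 3 := by
  obtain ⟨-, h1, h2, h3, h4⟩ := h
  have h5 : 0 < hC f := h1.trans_le h4
  have k2 : 3 * hA f * hC f ≤ hM f := by rw [hM]; nlinarith
  have k1 : 3 * hA f ^ 2 ≤ hM f := le_trans (by nlinarith) k2
  have i0 := YForm_i0 f
  have i1 : (hB f * f 1 - 2 * hC f * f 0) ^ 2 + hM f * f 1 ^ 2 = 4 * hC f * hA f ^ 2 := by
    simp only [hM, hA, hB, hC]; ring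
  have i2 : (hB f * f 2 - 2 * hC f * f 1) ^ 2 + hM f * f 2 ^ 2 = 4 * hC f * (hA f * hC f) := by
    simp only [hM, hA, hB, hC]; ring
  have i3 : (hB f * f 3 - 2 * hC f * f 2) ^ 2 + hM f * f 3 ^ 2 = 4 * hC f ^ 3 := by
    simp only [hM, hA, hB, hC]; ring
  refine ⟨k1, k2, le_of_mul_le_mul_left ?_ (pow_pos h1 2),
    le_of_mul_le_mul_left ?_ (mul_pos h1 h5), le_of_mul_le_mul_left ?_ (mul_pos h1 h5), ?_⟩
  · linarith [sq_nonneg (2 * f 1 * hA f - f 0 * hB f),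
      mul_le_mul_of_nonneg_right k1 (sq_nonneg (f 0))]
  · linarith [sq_nonneg (hB f * f 1 - 2 * hC f * f 0),
      mul_le_mul_of_nonneg_right k2 (sq_nonneg (f 1))]
  · linarith [sq_nonneg (hB f * f 2 - 2 * hC f * f 1),
      mul_le_mul_of_nonneg_right k2 (sq_nonneg (f 2))]
  · linarith [sq_nonneg (hB f * f 3 - 2 * hC f * f 2)]

theorem red_finite (Y : ℝ) : {f : Fin 4 → ℤ | Red f ∧ ((hM f : ℤ) : ℝ) ≤ Y}.Finite := by
  refine (Set.finite_Icc (fun _ : Fin 4 => -(2 * ⌈Y⌉)) fun _ => 2 * ⌈Y⌉).subset ?_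
  rintro f ⟨h, hY⟩
  have hN : hM f ≤ ⌈Y⌉ := by exact_mod_cast hY.trans (Int.le_ceil Y)
  obtain ⟨-, k2, k3, k4, k5, k6⟩ := h.bounds
  obtain ⟨-, h1, -, -, h4⟩ := h
  have h5 : 0 < hC f := h1.trans_le h4
  have h6 : 3 * hC f ≤ hM f := le_trans (by nlinarith) k2
  have k7 : 3 * f 3 ^ 2 ≤ 4 * hC f ^ 2 := le_of_mul_le_mul_left
    (by linarith [mul_le_mul_of_nonneg_right h6 (sq_nonneg (f 3))]) h5
  have k8 : hC f ≤ hC f ^ 2 := by nlinarith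
  have key : ∀ i, f i ^ 2 ≤ (2 * hC f) ^ 2 := by
    intro i
    fin_cases i <;> simp only [Fin.zero_eta, Fin.mk_one, Fin.reduceFinMk] <;> linarith
  have key2 : ∀ i, |f i| ≤ 2 * ⌈Y⌉ := fun i =>
    (abs_le.2 (abs_le_of_sq_le_sq' (key i) (by omega))).trans (by omega)
  exact ⟨fun i => (abs_le.1 (key2 i)).1, fun i => (abs_le.1 (key2 i)).2⟩

end Pool.Agent.Work.MP_dd0d16_nt.LC
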