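import Pool.Agent.Work.MP_dd0d16_nt.L.Gal

/-!
The action of the Galois group on the fields of a Kummer datum.

PLAN. Everything by `mem_adjoin_iff`. `agree`: `h⁻¹ * g` fixes the generators of `M`. `classify`: `g s = ± s`,
`g r = ± r`; `(g θ)^3 = u ± v s` is `θ^3` or `(n / θ)^3`; `cube_one`. So on `M` every `g` agrees with one of
`σ^i`, `σ^i τ`, `σ^i ρ`, `σ^i τ ρ`. `σ^i t = ω^i θ + ω^(-i) n / θ`; `t_ne`: `σ t = t` gives `θ = ω^2 n / θ`, so `v s = 0`,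
`θ^3 = (u / n)^3`, `θ ∈ L`, against `σ θ = ω θ`. A `g` fixing `δ` has `(g s, g r) = (s, r)` or `(-s, -r)`.
-/

set_option autoImplicit false

namespace Pool.Agent.Work.MP_dd0d16_nt.LC

open IntermediateField

namespace KD

variable (d : KD) {x : Qb}

theorem YKd_n : (d.n : Qb) ≠ 0 := Rat.cast_ne_zero.2 d.n0

theorem YKd_norm : ((d.u : Qb) + d.v * d.s) * (d.u - d.v * d.s) = (d.n : Qb) ^ 3 := by
  have h : ((d.u ^ 2 - d.D * d.v ^ 2 : ℚ) : Qb) = (d.n ^ 3 : ℚ) := by rw [d.hn]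
  push_cast at h
  linear_combination h - (d.v : Qb) ^ 2 * d.hs

theorem θ0 : d.θ ≠ 0 := by
  intro h
  have h1 := d.YKd_norm
  rw [← d.hθ, h, zero_pow three_ne_zero, zero_mul] at h1
  exact pow_ne_zero 3 d.YKd_n h1.symm

theorem ω_eq : d.ω ^ 2 + d.ω + 1 = 0 := by
  unfold ω
  linear_combination (1 / 4 : Qb) * d.hr

theorem YKd_ω3 : d.ω ^ 3 = 1 := by linear_combination (d.ω - 1) * d.ω_eq

theorem YKd_ω0 : d.ω ≠ 0 := fun h => by simpa [h] using d.ω_eq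

theorem YKd_ω1 : d.ω ≠ 1 := fun h => by
  have := d.ω_eq
  rw [h] at this
  norm_num at this

theorem YKd_ω2 : d.ω ^ 2 ≠ 1 := fun h => d.YKd_ω1 (by linear_combination d.YKd_ω3 - d.ω * h)

theorem YKd_r0 : d.r ≠ 0 := fun h => by
  have := d.hr
  rw [h] at this
  norm_num at this

theorem YKd_inv : (d.n : Qb) / (d.n / d.θ) = d.θ := by
  have := d.θ0
  have := d.YKd_n
  field_simp

theorem YKd_ωp {g : Gal} (h : g d.r = d.r) : g d.ω = d.ω := by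
  simp only [ω, map_div₀, map_add, map_neg, map_one, map_ofNat, h]

theorem YKd_ωn {g : Gal} (h : g d.r = -d.r) : g d.ω = d.ω ^ 2 := by
  have : g d.ω = (-1 + -d.r) / 2 := by
    simp only [ω, map_div₀, map_add, map_neg, map_one, map_ofNat, h]
  rw [this, ω]
  linear_combination (-1 / 4 : Qb) * d.hr

theorem YKd_div (g : Gal) : g (d.n / d.θ) = d.n / g d.θ := by rw [map_div₀, map_ratCast]

theorem YKd_σθ : d.σ d.θ = d.ω * d.θ := d.σθ

theorem YKd_σω : d.σ d.ω = d.ω := d.YKd_ωp d.σr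

theorem YKd_dv {c : Qb} (hc : c ^ 3 = 1) (y : Qb) : (d.n : Qb) / (c * y) = c ^ 2 * (d.n / y) := by
  have h0 : c ≠ 0 := fun h => by simp [h] at hc
  have h1 : c⁻¹ = c ^ 2 := inv_eq_of_mul_eq_one_right (by linear_combination hc)
  rw [← h1, mul_comm c, ← div_div, div_eq_mul_inv, mul_comm]

theorem YKd_σθ' : d.σ (d.n / d.θ) = d.ω ^ 2 * (d.n / d.θ) := by
  rw [YKd_div, YKd_σθ, d.YKd_dv d.YKd_ω3]

theorem YKd_s (g : Gal) : g d.s = d.s ∨ g d.s = -d.s :=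
  sq_eq_sq_iff_eq_or_eq_neg.1 (by rw [← map_pow, d.hs, map_ratCast])

theorem YKd_r (g : Gal) : g d.r = d.r ∨ g d.r = -d.r :=
  sq_eq_sq_iff_eq_or_eq_neg.1 (by rw [← map_pow, d.hr, map_neg, map_ofNat])

theorem YKd_root {y z : Qb} (hz : z ≠ 0) (h : y ^ 3 = z ^ 3) :
    y = z ∨ y = d.ω * z ∨ y = d.ω ^ 2 * z := by
  have h1 : (y / z) ^ 3 = 1 := by rw [div_pow, h, div_self (pow_ne_zero 3 hz)]
  rcases cube_one d.hr h1 with k | k | k
  · exact Or.inl ((div_eq_one_iff_eq hz).1 k)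
  · exact Or.inr (Or.inl ((div_eq_iff hz).1 k))
  · exact Or.inr (Or.inr ((div_eq_iff hz).1 k))

theorem YKd_θp {g : Gal} (h : g d.s = d.s) :
    g d.θ = d.θ ∨ g d.θ = d.ω * d.θ ∨ g d.θ = d.ω ^ 2 * d.θ :=
  d.YKd_root d.θ0 (by rw [← map_pow, d.hθ, map_add, map_mul, map_ratCast, map_ratCast, h])

theorem YKd_θn {g : Gal} (h : g d.s = -d.s) : g d.θ = d.n / d.θ ∨
    g d.θ = d.ω * (d.n / d.θ) ∨ g d.θ = d.ω ^ 2 * (d.n / d.θ) := by
  refine d.YKd_root (div_ne_zero d.YKd_n d.θ0) ?_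
  rw [← map_pow, d.hθ, map_add, map_mul, map_ratCast, map_ratCast, h, div_pow, ← d.YKd_norm,
    ← d.hθ, mul_div_cancel_left₀ _ (pow_ne_zero 3 d.θ0), mul_neg, sub_eq_add_neg]

theorem YKd_δ (g : Gal) : g d.δ = d.δ ∨ g d.δ = -d.δ := by
  rcases d.YKd_s g with h | h <;> rcases d.YKd_r g with h' | h' <;> simp [δ, h, h']

theorem YKd_δp {g : Gal} (h : g d.δ = d.δ) :
    (g d.s = d.s ∧ g d.r = d.r) ∨ (g d.s = -d.s ∧ g d.r = -d.r) := by
  have h0 : d.s * d.r ≠ 0 := mul_ne_zero d.s0 d.YKd_r0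
  rw [δ, map_mul] at h
  rcases d.YKd_s g with h1 | h1 <;> rcases d.YKd_r g with h2 | h2
  · exact Or.inl ⟨h1, h2⟩
  · rw [h1, h2] at h
    exact absurd (by linear_combination (-1 / 2 : Qb) * h) h0
  · rw [h1, h2] at h
    exact absurd (by linear_combination (-1 / 2 : Qb) * h) h0
  · exact Or.inr ⟨h1, h2⟩

theorem YKd_stab {S : Set Qb} {E : IntermediateField ℚ Qb} (g : Gal) (h : ∀ y ∈ S, g y ∈ E)
    (hx : x ∈ adjoin ℚ S) : g x ∈ E :=
  (adjoin_le_iff (T := E.comap (g : Qb →ₐ[ℚ] Qb))).2 h hx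

theorem YKd_sM : d.s ∈ d.M := subset_adjoin ℚ _ (by simp)

theorem YKd_rM : d.r ∈ d.M := subset_adjoin ℚ _ (by simp)

theorem YKd_θM : d.θ ∈ d.M := subset_adjoin ℚ _ (by simp)

theorem YKd_q (E : IntermediateField ℚ Qb) (q : ℚ) : (q : Qb) ∈ E := SubfieldClass.ratCast_mem E q

theorem YKd_θM' : d.n / d.θ ∈ d.M := div_mem (YKd_q _ _) d.YKd_θM

theorem YKd_ωM : d.ω ∈ d.M :=
  div_mem (add_mem (neg_mem (one_mem _)) d.YKd_rM) (ofNat_mem _ 2)

theorem YKd_tM : d.t ∈ d.M := add_mem d.YKd_θM d.YKd_θM'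

theorem YKd_tN : d.t ∈ d.N := subset_adjoin ℚ _ (by simp)

theorem YKd_δN : d.δ ∈ d.N := subset_adjoin ℚ _ (by simp)

theorem YKd_fixN {g : Gal} (h1 : g d.t = d.t) (h2 : g d.δ = d.δ) (hx : x ∈ d.N) : g x = x :=
  mem_adjoin_iff.1 hx g (by rintro _ (rfl | rfl) <;> assumption)

theorem YKd_σt : d.σ d.t = d.ω * d.θ + d.ω ^ 2 * (d.n / d.θ) := by
  rw [t, map_add, YKd_σθ, YKd_σθ']

theorem YKd_σσt : d.σ (d.σ d.t) = d.ω ^ 2 * d.θ + d.ω * (d.n / d.θ) := by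
  rw [YKd_σt, map_add, map_mul, map_mul, map_pow, YKd_σθ, YKd_σθ', YKd_σω]
  linear_combination d.ω * (d.n / d.θ) * d.YKd_ω3

theorem YKd_tne : d.σ d.t ≠ d.t := by
  intro h
  rw [YKd_σt, t] at h
  have h0 := d.θ0
  have h1 : d.θ = d.ω ^ 2 * (d.n / d.θ) := mul_left_cancel₀ (sub_ne_zero.2 d.YKd_ω1)
    (by linear_combination h - (d.n / d.θ) * (d.ω - 1) * d.ω_eq)
  have h2 := congrArg d.σ h1
  rw [map_mul, map_pow, YKd_σθ, YKd_σθ', YKd_σω, ← h1] at h2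
  exact d.YKd_ω1 (mul_left_cancel₀ d.YKd_ω0 (mul_right_cancel₀ h0 (by linear_combination -h2)))

theorem YKd_t (g : Gal) : (g d.t = d.t ∧ (g d.s = d.s → g d.θ = d.θ) ∧
    (g d.s = -d.s → g d.θ = d.n / d.θ)) ∨ g d.t = d.σ d.t ∨ g d.t = d.σ (d.σ d.t) := by
  have h3 := d.YKd_ω3
  have h6 : (d.ω ^ 2) ^ 3 = 1 := by linear_combination (d.ω ^ 3 + 1) * h3
  have hs : d.s ≠ -d.s := fun h => d.s0 (by linear_combination (1 / 2 : Qb) * h)
  rw [YKd_σσt, YKd_σt, t, map_add, YKd_div]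
  rcases d.YKd_s g with h | h
  · rcases d.YKd_θp h with k | k | k
    · exact Or.inl ⟨by rw [k], fun _ => k, fun e => absurd (h.symm.trans e) hs⟩
    · exact Or.inr (Or.inl (by rw [k, d.YKd_dv h3]))
    · refine Or.inr (Or.inr ?_)
      rw [k, d.YKd_dv h6]
      linear_combination d.ω * (d.n / d.θ) * h3
  · rcases d.YKd_θn h with k | k | k
    · exact Or.inl ⟨by rw [k, YKd_inv, add_comm], fun e => absurd (e.symm.trans h) hs, fun _ => k⟩
    · exact Or.inr (Or.inr (by rw [k, d.YKd_dv h3, YKd_inv, add_comm]))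
    · refine Or.inr (Or.inl ?_)
      rw [k, d.YKd_dv h6, YKd_inv]
      linear_combination d.ω * d.θ * h3

theorem agree {g h : Gal} (h1 : g d.s = h d.s) (h2 : g d.r = h d.r) (h3 : g d.θ = h d.θ)
    (hx : x ∈ d.M) : g x = h x := by
  have := mem_adjoin_iff.1 hx (h⁻¹ * g) (by
    rintro _ (rfl | rfl | rfl) <;> exact h.symm_apply_eq.2 (by assumption))
  exact h.symm_apply_eq.1 this

theorem K_le_N : d.K ≤ d.N := by
  exact adjoin_simple_le_iff.2 d.YKd_tN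

theorem k_le_N : d.k ≤ d.N := by
  exact adjoin_simple_le_iff.2 d.YKd_δN

theorem k_le_L : d.k ≤ d.L := by
  exact adjoin_simple_le_iff.2
    (mul_mem (subset_adjoin ℚ _ (by simp)) (subset_adjoin ℚ _ (by simp)))

theorem N_le_M : d.N ≤ d.M := by
  refine adjoin_le_iff.2 ?_
  rintro _ (rfl | rfl)
  exacts [d.YKd_tM, mul_mem d.YKd_sM d.YKd_rM]

theorem L_le_M : d.L ≤ d.M := by
  refine adjoin_le_iff.2 ?_
  rintro _ (rfl | rfl)
  exacts [d.YKd_sM, d.YKd_rM]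

theorem M_stab (g : Gal) (hx : x ∈ d.M) : g x ∈ d.M := by
  refine YKd_stab g ?_ hx
  rintro _ (rfl | rfl | rfl)
  · rcases d.YKd_s g with h | h <;> rw [h]
    exacts [d.YKd_sM, neg_mem d.YKd_sM]
  · rcases d.YKd_r g with h | h <;> rw [h]
    exacts [d.YKd_rM, neg_mem d.YKd_rM]
  · have h1 := d.YKd_ωM
    rcases d.YKd_s g with h | h
    · rcases d.YKd_θp h with k | k | k <;> rw [k]
      exacts [d.YKd_θM, mul_mem h1 d.YKd_θM, mul_mem (pow_mem h1 2) d.YKd_θM]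
    · rcases d.YKd_θn h with k | k | k <;> rw [k]
      exacts [d.YKd_θM', mul_mem h1 d.YKd_θM', mul_mem (pow_mem h1 2) d.YKd_θM']

theorem YKd_σ3 (hx : x ∈ d.M) : d.σ (d.σ (d.σ x)) = x := by
  refine d.agree (g := d.σ * d.σ * d.σ) (h := 1) ?_ ?_ ?_ hx
  · simp [d.σs]
  · simp [d.σr]
  · simp only [AlgEquiv.mul_apply, AlgEquiv.one_apply, YKd_σθ, map_mul, YKd_σω]
    linear_combination d.θ * d.YKd_ω3

theorem YKd_ne : d.σ d.t ≠ d.t ∧ d.σ (d.σ d.t) ≠ d.t ∧ d.σ (d.σ d.t) ≠ d.σ d.t :=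
  ⟨d.YKd_tne, fun h => d.YKd_tne ((congrArg d.σ h).symm.trans (d.YKd_σ3 d.YKd_tM)),
    fun h => d.YKd_tne (d.σ.injective h)⟩

theorem YKd_memN (hx : x ∈ d.M) (h : d.ρ x = x) : x ∈ d.N := by
  refine mem_adjoin_iff.2 fun g hg => ?_
  have h1 : g d.t = d.t := hg _ (by simp)
  rcases d.YKd_t g with k | k | k
  · rcases d.YKd_δp (hg d.δ (by simp)) with j | j
    · exact d.agree (h := 1) j.1 j.2 (k.2.1 j.1) hx
    · exact (d.agree (j.1.trans d.ρs.symm) (j.2.trans d.ρr.symm)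
        ((k.2.2 j.1).trans d.ρθ.symm) hx).trans h
  · exact absurd (k.symm.trans h1) d.YKd_ne.1
  · exact absurd (k.symm.trans h1) d.YKd_ne.2.1

theorem YKd_ρθ' : d.ρ (d.n / d.θ) = d.θ := by rw [YKd_div, d.ρθ, YKd_inv]

theorem YKd_τθ' : d.τ (d.n / d.θ) = d.θ := by rw [YKd_div, d.τθ, YKd_inv]

theorem YKd_τt : d.τ d.t = d.t := by rw [t, map_add, d.τθ, YKd_τθ', add_comm]

theorem N_stab (g : Gal) (hx : x ∈ d.N) : g x ∈ d.N := by
  refine YKd_stab g ?_ hx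
  rintro _ (rfl | rfl)
  · rcases d.YKd_t g with k | k | k
    · rw [k.1]
      exact d.YKd_tN
    · rw [k]
      refine d.YKd_memN (d.M_stab _ d.YKd_tM) ?_
      rw [YKd_σt, map_add, map_mul, map_mul, map_pow, d.ρθ, YKd_ρθ', d.YKd_ωn d.ρr]
      linear_combination d.ω * d.θ * d.YKd_ω3
    · rw [k]
      refine d.YKd_memN (d.M_stab _ (d.M_stab _ d.YKd_tM)) ?_
      rw [YKd_σσt, map_add, map_mul, map_mul, map_pow, d.ρθ, YKd_ρθ', d.YKd_ωn d.ρr]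
      linear_combination d.ω * (d.n / d.θ) * d.YKd_ω3
  · rcases d.YKd_δ g with h | h <;> rw [h]
    exacts [d.YKd_δN, neg_mem d.YKd_δN]

theorem σ3 (hx : x ∈ d.M) : d.σ (d.σ (d.σ x)) = x := by
  exact d.YKd_σ3 hx

theorem τ2 (hx : x ∈ d.M) : d.τ (d.τ x) = x := by
  refine d.agree (g := d.τ * d.τ) (h := 1) ?_ ?_ ?_ hx
  · simp [d.τs]
  · simp [d.τr]
  · simp only [AlgEquiv.mul_apply, AlgEquiv.one_apply, d.τθ, YKd_τθ']

theorem τσ (hx : x ∈ d.M) : d.τ (d.σ x) = d.σ (d.σ (d.τ x)) := by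
  refine d.agree (g := d.τ * d.σ) (h := d.σ * d.σ * d.τ) ?_ ?_ ?_ hx
  · simp [d.τs, d.σs]
  · simp [d.τr, d.σr]
  · simp only [AlgEquiv.mul_apply, d.τθ, YKd_σθ, YKd_σθ', map_mul, map_pow, YKd_σω, d.YKd_ωp d.τr]
    linear_combination -d.ω * (d.n / d.θ) * d.YKd_ω3

theorem σ_L (hx : x ∈ d.L) : d.σ x = x := by
  refine mem_adjoin_iff.1 hx _ ?_
  rintro _ (rfl | rfl)
  exacts [d.σs, d.σr]

theorem τ_K (hx : x ∈ d.K) : d.τ x = x := by
  refine mem_adjoin_iff.1 hx _ ?_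
  rintro _ rfl
  exact d.YKd_τt

theorem ρ_N (hx : x ∈ d.N) : d.ρ x = x := by
  refine d.YKd_fixN ?_ ?_ hx
  · rw [t, map_add, d.ρθ, YKd_ρθ', add_comm]
  · rw [δ, map_mul, d.ρs, d.ρr, neg_mul_neg]

theorem τδ : d.τ d.δ = -d.δ := by
  rw [δ, map_mul, d.τs, d.τr, neg_mul]

theorem YKd_fixL {g : Gal} (h1 : g d.s = d.s) (h2 : g d.r = d.r) (hx : x ∈ d.M) (h : d.σ x = x) :
    g x = x := by
  rcases d.YKd_θp h1 with k | k | k
  · exact d.agree (h := 1) h1 h2 k hx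
  · exact (d.agree (h1.trans d.σs.symm) (h2.trans d.σr.symm) (k.trans d.σθ.symm) hx).trans h
  · refine (d.agree (h := d.σ * d.σ) ?_ ?_ ?_ hx).trans ?_
    · simp [h1, d.σs]
    · simp [h2, d.σr]
    · simp only [AlgEquiv.mul_apply, k, YKd_σθ, map_mul, YKd_σω]
      ring
    · rw [AlgEquiv.mul_apply, h, h]

theorem mem_L (hx : x ∈ d.M) (h : d.σ x = x) : x ∈ d.L := by
  exact mem_adjoin_iff.2 fun g hg => d.YKd_fixL (hg _ (by simp)) (hg _ (by simp)) hx h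

theorem mem_k (hx : x ∈ d.N) (h : d.σ x = x) : x ∈ d.k := by
  refine mem_adjoin_iff.2 fun g hg => ?_
  rcases d.YKd_δp (hg d.δ rfl) with j | j
  · exact d.YKd_fixL j.1 j.2 (d.N_le_M hx) h
  · have := d.YKd_fixL (g := g * d.ρ) (by simp [d.ρs, j.1]) (by simp [d.ρr, j.2]) (d.N_le_M hx) h
    rwa [AlgEquiv.mul_apply, d.ρ_N hx] at this

theorem mem_K (hx : x ∈ d.N) (h : d.τ x = x) : x ∈ d.K := by
  refine mem_adjoin_iff.2 fun g hg => ?_
  have h1 : g d.t = d.t := hg _ rfl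
  rcases d.YKd_δ g with j | j
  · exact d.YKd_fixN h1 j hx
  · have := d.YKd_fixN (g := g * d.τ) (by simp [d.YKd_τt, h1]) (by simp [d.τδ, j]) hx
    rwa [AlgEquiv.mul_apply, h] at this

theorem mem_Q (hx : x ∈ d.N) (h : d.σ x = x) (h' : d.τ x = x) : ∃ q : ℚ, x = q := by
  have h1 := mem_adjoin_iff.1 (d.mem_k hx h)
  refine rat_of_fixed fun g => ?_
  rcases d.YKd_δ g with j | j
  · exact h1 g (by rintro _ rfl; exact j)
  · have := h1 (g * d.τ) (by rintro _ rfl; simp [d.τδ, j])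
    rwa [AlgEquiv.mul_apply, h'] at this

theorem cube_N (hx : x ∈ d.N) (h : x ^ 3 = 1) : x = 1 := by
  have h1 := d.ρ_N hx
  have h2 := d.YKd_ωn d.ρr
  rcases d.YKd_root one_ne_zero (h.trans (one_pow 3).symm) with k | k | k
  · exact k
  · rw [k, mul_one, h2] at h1
    exact absurd (mul_left_cancel₀ d.YKd_ω0 (by linear_combination h1)) d.YKd_ω1
  · rw [k, mul_one, map_pow, h2] at h1
    exact absurd (mul_left_cancel₀ (pow_ne_zero 2 d.YKd_ω0) (by linear_combination h1)) d.YKd_ω2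

theorem t_ne : d.σ d.t ≠ d.t ∧ d.σ (d.σ d.t) ≠ d.t ∧ d.σ (d.σ d.t) ≠ d.σ d.t := by
  exact d.YKd_ne

theorem lin_mem_K (p q : ℚ) : (p + q * d.s) * d.θ + (p - q * d.s) * (d.n / d.θ) ∈ d.K := by
  have h1 := mul_mem (YKd_q d.M q) d.YKd_sM
  refine d.mem_K (d.YKd_memN (add_mem (mul_mem (add_mem (YKd_q _ p) h1) d.YKd_θM)
    (mul_mem (sub_mem (YKd_q _ p) h1) d.YKd_θM')) ?_) ?_
  · simp only [map_add, map_mul, map_sub, map_ratCast, d.ρs, d.ρθ, YKd_ρθ']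
    ring
  · simp only [map_add, map_mul, map_sub, map_ratCast, d.τs, d.τθ, YKd_τθ']
    ring

theorem rho_cube {g : Gal} (h1 : g d.δ = d.δ) (h2 : g d.r = -d.r) (hx : x ∈ d.M) :
    g (g (g x)) = d.ρ x := by
  have h3 : g d.s = -d.s := by
    rcases d.YKd_δp h1 with j | j
    · exact absurd (by linear_combination (1 / 2 : Qb) * (j.2.symm.trans h2)) d.YKd_r0
    · exact j.1
  have h4 := d.YKd_ωn h2
  have h5 := d.YKd_ω3
  have key : ∀ c : Qb, c ^ 3 = 1 → g c = c ^ 2 → g d.θ = c * (d.n / d.θ) →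
      g (g (g d.θ)) = d.n / d.θ := fun c k1 k2 k3 => by
    have k4 : g (g d.θ) = c * d.θ := by
      rw [k3, map_mul, k2, YKd_div, k3, d.YKd_dv k1, YKd_inv]
      linear_combination c * d.θ * k1
    rw [k4, map_mul, k2, k3]
    linear_combination (d.n / d.θ) * k1
  refine d.agree (g := g * g * g) ?_ ?_ ?_ hx
  · simp [h3, d.ρs]
  · simp [h2, d.ρr]
  · rw [d.ρθ]
    rcases d.YKd_θn h3 with k | k | k
    · exact key 1 (one_pow 3) (by simp) (by rw [k, one_mul])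
    · exact key _ h5 h4 k
    · exact key _ (by linear_combination (d.ω ^ 3 + 1) * h5) (by rw [map_pow, h4]) k

end KD

end Pool.Agent.Work.MP_dd0d16_nt.LC
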