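import Pool.Agent.Work.MP_dd0d16_nt.L.Val

/-!
The decomposition group of an embedding in the algebraic closure of the 3-adic numbers.

PLAN. `dec_fixed`: an automorphism `G` of `PadicAlgCl 3` over `ℚ_[3]` is an isometry (`spectralNorm_eq_of_equiv`) and
maps the image of `j` to itself (`Qb` is normal over `ℚ`: make `PadicAlgCl 3` a `Qb`-algebra through `j` and use
`AlgEquiv.restrictNormal`, or `AlgHom.normal_bijective`), which gives `g ∈ Dec j` with `j (g x) = G (j x)`; then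
`InfiniteGalois.mem_range_algebraMap_iff_fixed`. `dec_rho`: if every `g ∈ Dec j` fixing `δ = s r` fixes `r`, then one of
`δ`, `r`, `s` is fixed by all of `Dec j`; but `3 m`, `-3` (norm `1 / 3`, while norms of squares in `ℚ_[3]` are even powers
of 3) and `-m ≡ 2 mod 3` are not squares in `ℚ_[3]`. `near_one`: `‖j z - ω‖ = ‖j z - ω^2‖ ≥ ‖ω - ω^2‖ = 3^(-1/2)` because
`g` fixes `z`, exchanges `ω` and `ω^2` and is an isometry. `krasner`: among the three cube roots of `a` take `Θ` with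
`‖j (Θ y) - 1‖^3 ≤ 1 / 9 < 3^(-3/2)`; an `h ∈ Dec j` fixing `N` pointwise fixes `Θ` (`h Θ = ω^c Θ` is as close); for `g`
fixing `a`, `g⁻¹ ρ' g` is such an `h` (`N_stab`), so `ρ'` fixes `Θ` and `g Θ = ω^c Θ`, whence `c = 0`.
`norm_four`: if `y` is fixed by the elements of a subgroup `H` that fix `b` (`b^2` rational) then `y * g y` (for `g ∈ H`
moving `b`) or `y^2` is fixed by `H` and has norm `‖y‖^2`; apply twice and use `dec_fixed`, `Padic.norm_eq_zpow_neg_valuation`.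
-/

set_option autoImplicit false

namespace Pool.Agent.Work.MP_dd0d16_nt.LC

variable (j : Qb →+* PadicAlgCl 3)

/-- The decomposition group. -/
def Dec : Subgroup Gal where
  carrier := {g | ∀ x, ‖j (g x)‖ = ‖j x‖}
  one_mem' := fun _ => rfl
  mul_mem' := fun {g h} hg hh x => (hg (h x)).trans (hh x)
  inv_mem' := fun {g} hg x => by
    have := hg (g⁻¹ x)
    rw [← AlgEquiv.mul_apply, mul_inv_cancel, AlgEquiv.one_apply] at this
    exact this.symm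

theorem dec_fixed {x : Qb} (h : ∀ g ∈ Dec j, g x = x) :
    ∃ y : ℚ_[3], j x = algebraMap ℚ_[3] (PadicAlgCl 3) y := by
  let : Algebra Qb (PadicAlgCl 3) := j.toAlgebra
  have : IsAlgClosure ℚ Qb := ⟨inferInstance, AlgebraicClosure.isAlgebraic ℚ⟩
  have : Normal ℚ Qb := IsAlgClosure.normal ℚ Qb
  have : IsScalarTower ℚ Qb (PadicAlgCl 3) :=
    IsScalarTower.of_algebraMap_eq' (Subsingleton.elim _ _)
  obtain ⟨y, hy⟩ := (InfiniteGalois.mem_range_algebraMap_iff_fixed (k := ℚ_[3]) (j x)).2 fun G => by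
    have e : ∀ z, j ((G.restrictScalars ℚ).restrictNormal Qb z) = G (j z) :=
      (G.restrictScalars ℚ).restrictNormal_commutes Qb
    rw [← e, h _ fun z => by rw [e]; exact (spectralNorm_eq_of_equiv G _).symm]
  exact ⟨y, hy.symm⟩

theorem YLoc_three : ‖j 3‖ = 1 / 3 := by
  have := PadicAlgCl.norm_extends 3 ((3 : ℕ) : ℚ_[3])
  rw [Padic.norm_p] at this
  rw [map_ofNat, one_div]
  exact this

theorem YLoc_r {r : Qb} (hr : r ^ 2 = -3) : ‖j r‖ ^ 2 = 1 / 3 := by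
  rw [← norm_pow, ← map_pow, hr, map_neg, norm_neg, YLoc_three]

theorem YLoc_zpow {x : Qb} (h0 : x ≠ 0) (h : ∀ g ∈ Dec j, g x = x) :
    ∃ k : ℤ, ‖j x‖ = (3 : ℝ) ^ k := by
  obtain ⟨y, hy⟩ := dec_fixed j h
  have h1 : y ≠ 0 := by
    rintro rfl
    exact h0 (j.injective (by rw [hy, map_zero, map_zero]))
  exact ⟨_, hy ▸ (PadicAlgCl.norm_extends 3 y).trans (Padic.norm_eq_zpow_neg_valuation h1)⟩

theorem YLoc_pm {b : Qb} {B : ℚ} (hb : b ^ 2 = B) (g : Gal) : g b = b ∨ g b = -b :=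
  sq_eq_sq_iff_eq_or_eq_neg.1 (by rw [← map_pow, hb, map_ratCast])



theorem dec_rho {m : ℕ} (hm : m % 3 = 1) {s r : Qb} (hs : s ^ 2 = -(m : Qb)) (hr : r ^ 2 = -3) :
    ∃ g ∈ Dec j, g (s * r) = s * r ∧ g r = -r := by
  have pr := YLoc_pm (B := -3) (hr.trans (by norm_num))
  have ps := YLoc_pm (B := -m) (hs.trans (by norm_num))
  by_contra hc
  have hn : ∀ g ∈ Dec j, g s = -s → g r = -r → False := fun g hg a b =>
    hc ⟨g, hg, by rw [map_mul, a, b, neg_mul_neg], b⟩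
  by_cases c : ∀ g ∈ Dec j, g r = r
  · obtain ⟨k, hk⟩ := YLoc_zpow j (by rintro rfl; norm_num at hr) c
    have := YLoc_r j hr
    rw [hk, ← zpow_natCast, ← zpow_mul, one_div, ← zpow_neg_one] at this
    have := zpow_right_injective₀ (by norm_num) (by norm_num) this
    omega
  · push Not at c
    obtain ⟨g, hg, c⟩ := c
    have c1 := (pr g).resolve_left c
    have c2 := (ps g).resolve_right fun a => hn g hg a c1
    obtain ⟨y, hy⟩ := dec_fixed j (x := s) fun g' hg' => (ps g').resolve_right fun a =>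
      hn (g * g') ((Dec j).mul_mem hg hg') (by rw [AlgEquiv.mul_apply, a, map_neg, c2])
        (by rw [AlgEquiv.mul_apply, (pr g').resolve_right (hn g' hg' a), c1])
    have h1 : y ^ 2 = -(m : ℚ_[3]) := (algebraMap ℚ_[3] (PadicAlgCl 3)).injective (by
      rw [map_pow, ← hy, ← map_pow, hs, map_neg, map_neg, map_natCast, map_natCast])
    have h2 : ‖y‖ ≤ 1 := by
      rw [← sq_le_one_iff₀ (norm_nonneg _), ← norm_pow, h1, norm_neg]
      exact IsUltrametricDist.norm_natCast_le_one _ _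
    obtain ⟨z, rfl⟩ : ∃ z : ℤ_[3], (z : ℚ_[3]) = y := ⟨⟨y, h2⟩, rfl⟩
    have h3 : z ^ 2 = -(m : ℤ_[3]) := Subtype.ext (by push_cast; exact h1)
    have h4 := congrArg PadicInt.toZMod h3
    rw [map_pow, map_neg, map_natCast, ← ZMod.natCast_mod, hm] at h4
    exact (by decide : ∀ x : ZMod 3, x ^ 2 ≠ -((1 : ℕ) : ZMod 3)) _ h4

theorem near_one {r z : Qb} (hr : r ^ 2 = -3) {g : Gal} (hg : g ∈ Dec j) (h1 : g r = -r)
    (h2 : g z = z) : ‖j z - 1‖ ≤ 3 * ‖j (z ^ 3) - 1‖ := by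
  have e1 : g (z - (-1 + r) / 2) = z - (-1 - r) / 2 := by
    rw [map_sub, map_div₀, map_add, map_neg, map_one, map_ofNat, h1, h2, sub_eq_add_neg (-1)]
  have e2 := hg (z - (-1 + r) / 2)
  have e3 : z ^ 3 - 1 = (z - 1) * ((z - (-1 + r) / 2) * (z - (-1 - r) / 2)) := by
    linear_combination (z - 1) / 4 * hr
  have e4 := IsUltrametricDist.norm_add_le_max (j (z - (-1 - r) / 2)) (-j (z - (-1 + r) / 2))
  rw [e1] at e2
  rw [norm_neg, e2, max_self, ← map_neg, ← map_add,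
    show z - (-1 - r) / 2 + -(z - (-1 + r) / 2) = r by ring] at e4
  have e5 := pow_le_pow_left₀ (norm_nonneg _) e4 2
  rw [YLoc_r j hr] at e5
  rw [← map_one j, ← map_sub, ← map_sub, e3, map_mul, map_mul, norm_mul, norm_mul, e2]
  nlinarith [norm_nonneg (j (z - 1))]

theorem YLoc_root {Θ : Qb} (h0 : Θ ≠ 0) {g : Gal} (h : g (Θ ^ 3) = Θ ^ 3) (hne : g Θ ≠ Θ) :
    ∃ ζ : Qb, g Θ = ζ * Θ ∧ ζ ^ 2 + ζ + 1 = 0 := by
  refine ⟨g Θ / Θ, (div_mul_cancel₀ _ h0).symm, ?_⟩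
  rw [map_pow] at h
  have : (g Θ - Θ) * (g Θ ^ 2 + g Θ * Θ + Θ ^ 2) = 0 := by linear_combination h
  field_simp
  linear_combination (mul_eq_zero.1 this).resolve_left (sub_ne_zero.2 hne)

theorem YLoc_close {Θ y : Qb} (h : ‖j (Θ * y - 1)‖ ^ 3 ≤ 1 / 9) :
    Θ ≠ 0 ∧ ∀ g ∈ Dec j, g (Θ ^ 3) = Θ ^ 3 → g y = y → g Θ = Θ := by
  have h0 := norm_nonneg (j (Θ * y - 1))
  have h1 : ‖j (Θ * y - 1)‖ ^ 2 < 1 / 3 := by
    by_contra c
    have := pow_le_pow_left₀ (by norm_num) (not_lt.1 c) 3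
    have := pow_le_pow_left₀ (by positivity) h 2
    nlinarith
  have h2 : ‖j (Θ * y)‖ = 1 := by
    have := IsUltrametricDist.norm_add_eq_max_of_norm_ne_norm (x := j (Θ * y - 1)) (y := 1)
      (by rw [norm_one]; nlinarith)
    rwa [norm_one, max_eq_right (by nlinarith), map_sub, map_one, sub_add_cancel] at this
  have h3 : Θ ≠ 0 := by
    rintro rfl
    simp at h2
  refine ⟨h3, fun g hg a b => by_contra fun c => ?_⟩
  obtain ⟨ζ, z1, z2⟩ := YLoc_root h3 a c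
  have z3 : ‖j ζ‖ = 1 := by
    have : ζ ^ 3 = 1 := by linear_combination (ζ - 1) * z2
    rw [← pow_eq_one_iff_of_nonneg (norm_nonneg _) three_ne_zero, ← norm_pow, ← map_pow, this,
      map_one, norm_one]
  have z4 : ‖j (ζ - 1)‖ ^ 2 = 1 / 3 := by
    rw [← norm_pow, ← map_pow, show (ζ - 1) ^ 2 = -(3 * ζ) by linear_combination z2, map_neg,
      norm_neg, map_mul, norm_mul, z3, mul_one, YLoc_three]
  have e4 := IsUltrametricDist.norm_add_le_max (j (g (Θ * y - 1))) (-j (Θ * y - 1))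
  rw [norm_neg, hg, max_self, ← map_neg, ← map_add, map_sub g, map_mul g, map_one, z1, b,
    show ζ * Θ * y - 1 + -(Θ * y - 1) = (ζ - 1) * (Θ * y) by ring, map_mul, norm_mul, h2,
    mul_one] at e4
  linarith [pow_le_pow_left₀ (norm_nonneg _) e4 2]



theorem KD.krasner (d : KD) {ρ' : Gal} (hρ : ρ' ∈ Dec j) (h1 : ∀ x ∈ d.M, ρ' x = d.ρ x)
    {a y : Qb} (ha : a ∈ d.N) (hy : y ∈ d.N) (h : ‖j (a * y ^ 3) - 1‖ ≤ 1 / 9) :
    ∃ Θ : Qb, Θ ^ 3 = a ∧ ∀ g ∈ Dec j, g a = a → g Θ = Θ := by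
  obtain ⟨Θ, h2, h3⟩ : ∃ Θ : Qb, Θ ^ 3 = a ∧ ‖j (Θ * y - 1)‖ ^ 3 ≤ 1 / 9 := by
    obtain ⟨t, rfl⟩ := IsAlgClosed.exists_pow_nat_eq a three_pos
    have w := d.ω_eq
    have e : t ^ 3 * y ^ 3 - 1 = (t * y - 1) * (d.ω * t * y - 1) * (d.ω ^ 2 * t * y - 1) := by
      linear_combination (-(t * y) + (t * y) ^ 2 * d.ω - (t * y) ^ 3 * (d.ω - 1)) * w
    rw [← map_one j, ← map_sub, e, map_mul, map_mul, norm_mul, norm_mul] at h
    by_contra c
    push Not at c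
    have c1 := c t rfl
    have c2 := c (d.ω * t) (by linear_combination t ^ 3 * (d.ω - 1) * w)
    have c3 := c (d.ω ^ 2 * t) (by linear_combination t ^ 3 * (d.ω ^ 3 + 1) * (d.ω - 1) * w)
    have c4 := mul_lt_mul'' (mul_lt_mul'' c1 c2 (by norm_num) (by norm_num)) c3 (by norm_num)
      (by norm_num)
    have c5 := pow_le_pow_left₀ (by positivity) h 3
    rw [mul_pow, mul_pow] at c5
    linarith
  obtain ⟨h4, h5⟩ := YLoc_close j h3
  have hN : ∀ x ∈ d.N, ρ' x = x := fun x hx => (h1 x (d.N_le_M hx)).trans (d.ρ_N hx)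
  have hr : ρ' d.r = -d.r := (h1 _ (IntermediateField.subset_adjoin _ _ (by simp))).trans d.ρr
  subst h2
  refine ⟨Θ, rfl, fun g hg hga => by_contra fun c => ?_⟩
  obtain ⟨ζ, z1, z2⟩ := YLoc_root h4 hga c
  have k1 : ∀ x ∈ d.N, (g⁻¹ * ρ' * g) x = x := fun x hx => by
    rw [AlgEquiv.mul_apply, AlgEquiv.mul_apply, hN _ (d.N_stab g hx), ← AlgEquiv.mul_apply,
      inv_mul_cancel, AlgEquiv.one_apply]
  have k2 := congrArg g (h5 _ ((Dec j).mul_mem ((Dec j).mul_mem ((Dec j).inv_mem hg) hρ) hg)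
    (k1 _ ha) (k1 _ hy))
  rw [← AlgEquiv.mul_apply, ← mul_assoc, ← mul_assoc, mul_inv_cancel, one_mul, AlgEquiv.mul_apply,
    z1, map_mul, h5 _ hρ (hN _ ha) (hN _ hy)] at k2
  have k3 : ρ' (2 * ζ + 1) = 2 * ζ + 1 := by
    rw [map_add, map_mul, map_ofNat, map_one, mul_right_cancel₀ h4 k2]
  have k4 : (2 * ζ + 1) ^ 2 = d.r ^ 2 := by linear_combination 4 * z2 - d.hr
  have k5 : d.r = 0 := by
    rcases sq_eq_sq_iff_eq_or_eq_neg.1 k4 with e | e
    · rw [e, hr] at k3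
      linear_combination (-1 / 2) * k3
    · rw [e, map_neg, hr] at k3
      linear_combination (1 / 2) * k3
  have := d.hr
  rw [k5] at this
  norm_num at this

theorem YLoc_step {H : Subgroup Gal} (hH : H ≤ Dec j) {b y : Qb} {B : ℚ} (hb : b ^ 2 = B)
    (h0 : y ≠ 0) (h : ∀ g ∈ H, g b = b → g y = y) :
    ∃ z : Qb, z ≠ 0 ∧ ‖j z‖ = ‖j y‖ ^ 2 ∧ ∀ g ∈ H, g z = z := by
  by_cases c : ∀ g ∈ H, g b = b
  · exact ⟨y ^ 2, pow_ne_zero 2 h0, by rw [map_pow, norm_pow], fun g hg => by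
      rw [map_pow, h g hg (c g hg)]⟩
  push Not at c
  obtain ⟨t, ht, c⟩ := c
  have c1 := (YLoc_pm hb t).resolve_left c
  have c2 : ∀ g ∈ H, g b = -b → g y = t y := fun g hg e => by
    have := congrArg t (h (t⁻¹ * g) (H.mul_mem (H.inv_mem ht) hg) (by
      rw [AlgEquiv.mul_apply, e, ← c1, ← AlgEquiv.mul_apply, inv_mul_cancel, AlgEquiv.one_apply]))
    rwa [← AlgEquiv.mul_apply, mul_inv_cancel_left] at this
  refine ⟨y * t y, mul_ne_zero h0 ((map_ne_zero t).2 h0), by rw [map_mul, norm_mul, hH ht, sq],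
    fun g hg => ?_⟩
  rcases YLoc_pm hb g with e | e
  · rw [map_mul, h g hg e, ← AlgEquiv.mul_apply,
      c2 _ (H.mul_mem hg ht) (by rw [AlgEquiv.mul_apply, c1, map_neg, e])]
  · rw [map_mul, c2 g hg e, ← AlgEquiv.mul_apply,
      h _ (H.mul_mem hg ht) (by rw [AlgEquiv.mul_apply, c1, map_neg, e, neg_neg]), mul_comm]



theorem norm_four {a b y : Qb} {A B : ℚ} (ha : a ^ 2 = A) (hb : b ^ 2 = B) (h0 : y ≠ 0)
    (h : ∀ g ∈ Dec j, g a = a → g b = b → g y = y) : ∃ k : ℤ, ‖j y‖ ^ 4 = (3 : ℝ) ^ k := by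
  obtain ⟨z, z0, z1, z2⟩ := YLoc_step j (H := Dec j ⊓ MulAction.stabilizer Gal a) inf_le_left hb h0
    fun g hg => h g hg.1 hg.2
  obtain ⟨w, w0, w1, w2⟩ := YLoc_step j le_rfl ha z0 fun g hg e => z2 g ⟨hg, e⟩
  obtain ⟨k, hk⟩ := YLoc_zpow j w0 w2
  exact ⟨k, by rw [← hk, w1, z1, ← pow_mul]⟩

end Pool.Agent.Work.MP_dd0d16_nt.LC
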