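import Pool.Agent.Work.MP_dd0d16_nt.L.Tors
import Pool.Agent.Work.MP_dd0d16_nt.L.Emb

/-!
No reduced form of invariant `m` means no 3-torsion in the class group of `ℚ⟮s⟯`; two consequences.

PLAN. `no_torsion`: let `I^3 = span {δ}`, `n0 = absNorm I`, `x₁, x₂` from `ideal_basis`; `N δ = n0^3`
(`absNorm_span`). For `μ ∈ I^3`, `μ / δ` is an integer of the field, `μ / δ = a + b (1 + s) / 2`; put `φ μ = b`. The form
`f = (φ (x₁^3), φ (x₁^2 x₂), φ (x₁ x₂^2), φ (x₂^3))` has `hA = N x₁ / n0`, `hB = Tr (x₁ x₂') / n0`, `hC = N x₂ / n0`, so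
`hM f = m` (write `δ = d₁ + d₂ s` and compute in rationals). If `ev f x y = 0` with `(x, y) ≠ 0` then
`λ = x x₁ + y x₂ ≠ 0` has `λ^3 = a δ` with an integer `a`; write `span {λ} = I J`; then `J^3 = span {a}`,
`absNorm J ^ 3 = a^2`, so `|a| = w^3` and `J^3 = span {w}^3`, `J = span {w}` (unique factorisation of ideals), and `I`
is principal (`λ / w`). Otherwise `reduce` contradicts `NoForm`.
`cube_of_val`: multiply `α` by the cube of an integer to make it integral. For a nonzero prime `P` take `l, j` from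
`prime_emb` and `ϖ ∈ P` not in `P^2`; every nonzero integral `x` satisfies `a x = b ϖ^k` with `a, b ∉ P`, `k` the
multiplicity of `P` in `span {x}` (localisation at `P` is a discrete valuation ring, or use
`IsDedekindDomain.HeightOneSpectrum.intValuation`), so `‖j x‖ = ‖j ϖ‖^k` with `0 < ‖j ϖ‖ < 1`; hence `3 ∣ k`. So
`span {α} = I^3`, `I = span {y}`, `α = ± y^3` (`unit_quad`).
`exists_beta`: `ϖ = (1 + s) / 2`, `ϖ (1 - ϖ) = (m + 1) / 4` is even. `P = span {2, ϖ}`, `P' = span {2, 1 - ϖ}`,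
`P P' = span {2}`, `P + P' = ⊤`, both proper, so both have absolute norm 2 (product 4, neither is 1). The order `h` of the
class of `P` is prime to 3 by `no_torsion`, so `P^(3 k + 1) = span {π}` for some `k` (use `h` or `2 h`). With
`π = p + q s`, `π' = p - q s`, `N π = 2^(3 k + 1) = n`, `β = π^2 π' = n π`. `π' ∈ P'^(3 k + 1)` (from
`P^h span {π'} = span {2^h} = P^h P'^h`). Take `x₁, x₂` from `ideal_basis` for `P'^k` and `λ_i = x_i / 4^k`; then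
`λ^3 β = (x^3 π) 2 / 2^(3 k)` with `x^3 π ∈ P'^(3k) P^(3k+1) ≤ span {2^(3k)}`; the conjugate is integral too.
At `l ≠ 2`: `π π' = 2^h`. At 2: `j` from `prime_emb` for `P`; if `‖j β‖ = ‖j z‖^3` use the multiplicity lemma above
(`β` has multiplicity `2 (3 k + 1)` at `P`), or apply it directly with `ϖ = 2`: all norms of nonzero elements of the field
are integral powers of `‖2‖`.
-/

set_option autoImplicit false

namespace Pool.Agent.Work.MP_dd0d16_nt.LC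

open IntermediateField NumberField

variable {m : ℕ} {s : Qb}

section
variable {R : Type} [CommRing R] [IsDedekindDomain R] {P : Ideal R}

theorem YMult_ab {x y : R} {k : ℕ} (hx : x ∈ P ^ k) (hy : y ∈ P ^ k) (hy' : y ∉ P ^ (k + 1)) :
    ∃ a b : R, a ∉ P ∧ b * y = x * a := by
  obtain ⟨J, hJ⟩ := Ideal.dvd_span_singleton.2 hy
  obtain ⟨a, ha, ha'⟩ := SetLike.not_le_iff_exists.1 (show ¬ J ≤ P from fun h => hy' (by
    rw [← Ideal.span_singleton_le_iff_mem, hJ, pow_succ]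
    exact Ideal.mul_mono_right h))
  obtain ⟨b, hb⟩ := Ideal.mem_span_singleton'.1 (hJ ▸ Ideal.mul_mem_mul hx ha)
  exact ⟨a, b, ha', hb⟩

theorem YMult_pi (hP : P.IsPrime) (h0 : P ≠ ⊥) :
    ∃ π : R, ∀ k n : ℕ, π ^ k ∈ P ^ n ↔ n ≤ k := by
  let v : IsDedekindDomain.HeightOneSpectrum R := ⟨P, hP, h0⟩
  obtain ⟨π, hπ⟩ := v.intValuation_exists_uniformizer
  refine ⟨π, fun k n => (v.intValuation_le_pow_iff_mem _ n).symm.trans ?_⟩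
  rw [map_pow, hπ, ← WithZero.exp_nsmul, WithZero.exp_le_exp]
  simp

theorem YMult_ex (hP : P.IsPrime) (h0 : P ≠ ⊥) {x : R} (hx : x ≠ 0) :
    ∃ k : ℕ, x ∈ P ^ k ∧ x ∉ P ^ (k + 1) := by
  have h := FiniteMultiplicity.of_prime_left (Ideal.prime_of_isPrime h0 hP)
    (Ideal.span_singleton_eq_bot.not.2 hx : Ideal.span {x} ≠ 0)
  exact ⟨_, Ideal.dvd_span_singleton.1 (pow_multiplicity_dvd _ _), fun k =>
    h.not_pow_dvd_of_multiplicity_lt (Nat.lt_succ_self _) (Ideal.dvd_span_singleton.2 k)⟩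

theorem YMult_cube {x : R} (hx : x ≠ 0) (h : ∀ P : Ideal R, P.IsPrime → P ≠ ⊥ → ∀ k : ℕ,
    x ∈ P ^ k → x ∉ P ^ (k + 1) → 3 ∣ k) : ∃ I : Ideal R, Ideal.span {x} = I ^ 3 := by
  classical
  have h0 : Ideal.span {x} ≠ ⊥ := Ideal.span_singleton_eq_bot.not.2 hx
  obtain ⟨u, hu⟩ := Multiset.exists_smul_of_dvd_count
    (UniqueFactorizationMonoid.normalizedFactors (Ideal.span {x})) (k := 3) fun P hP => by
      have hp := UniqueFactorizationMonoid.prime_of_normalized_factor P hP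
      have := Ideal.isPrime_of_prime hp
      obtain ⟨k, k1, k2⟩ := YMult_ex this hp.ne_zero hx
      rw [Ideal.count_normalizedFactors_eq ((Ideal.span_singleton_le_iff_mem _).2 k1)
        (mt (Ideal.span_singleton_le_iff_mem _).1 k2)]
      exact h P this hp.ne_zero k k1 k2
  exact ⟨u.prod, by rw [← Ideal.prod_normalizedFactors_eq_self h0, hu, Multiset.prod_nsmul]⟩

end

theorem YMult_le {l : ℕ} [Fact l.Prime] (j : Qb →+* PadicAlgCl l) (x : 𝓞 ℚ⟮s⟯) :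
    ‖j ((x : ℚ⟮s⟯) : Qb)‖ ≤ 1 :=
  norm_int j (x.isIntegral_coe.map (IsScalarTower.toAlgHom ℤ ℚ⟮s⟯ Qb))

theorem norm_mult (hm : 0 < m) (hs : s ^ 2 = -(m : Qb)) {P : Ideal (𝓞 ℚ⟮s⟯)} (hP : P.IsPrime)
    (h0 : P ≠ ⊥) {l : ℕ} [Fact l.Prime] {j : Qb →+* PadicAlgCl l}
    (hj : ∀ x : 𝓞 ℚ⟮s⟯, x ∈ P ↔ ‖j ((x : ℚ⟮s⟯) : Qb)‖ < 1) :
    ∃ c : ℝ, 0 < c ∧ c < 1 ∧ ∀ (x : 𝓞 ℚ⟮s⟯) (k : ℕ), x ∈ P ^ k → x ∉ P ^ (k + 1) →
      ‖j ((x : ℚ⟮s⟯) : Qb)‖ = c ^ k := by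
  have := nf_adjoin s
  have key (x y : 𝓞 ℚ⟮s⟯) (k : ℕ) (hx : x ∈ P ^ k) (hy : y ∈ P ^ k) (hy' : y ∉ P ^ (k + 1)) :
      ‖j ((x : ℚ⟮s⟯) : Qb)‖ ≤ ‖j ((y : ℚ⟮s⟯) : Qb)‖ := by
    obtain ⟨a, b, ha, e⟩ := YMult_ab hx hy hy'
    have e' := congrArg (fun t : 𝓞 ℚ⟮s⟯ => ‖j ((t : ℚ⟮s⟯) : Qb)‖) e
    simp only [map_mul, MulMemClass.coe_mul, norm_mul] at e'
    rw [(YMult_le j a).antisymm (not_lt.1 (mt (hj a).2 ha)), mul_one] at e'
    exact e' ▸ mul_le_of_le_one_left (norm_nonneg _) (YMult_le j b)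
  obtain ⟨π, hπ⟩ := YMult_pi hP h0
  have π0 : π ≠ 0 := fun e => by simpa [e] using hπ 1 2
  refine ⟨‖j ((π : ℚ⟮s⟯) : Qb)‖, by simpa using π0, (hj π).1 (by simpa using hπ 1 1),
    fun x k h1 h2 => ?_⟩
  have e : ‖j ((π : ℚ⟮s⟯) : Qb)‖ ^ k = ‖j (((π ^ k : 𝓞 ℚ⟮s⟯) : ℚ⟮s⟯) : Qb)‖ := by simp
  exact e ▸ (key _ _ k h1 ((hπ k k).2 le_rfl) (by simp [hπ])).antisymm
    (key _ _ k ((hπ k k).2 le_rfl) h1 h2)

theorem cube_of_val (hm : m % 4 = 3) (h7 : 7 ≤ m) (hq : Squarefree m) (hs : s ^ 2 = -(m : Qb))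
    (hN : NoForm m) {α : Qb} (hα : α ∈ ℚ⟮s⟯)
    (h : ∀ (l : ℕ) [Fact l.Prime] (j : Qb →+* PadicAlgCl l), ∃ z ∈ ℚ⟮s⟯, ‖j α‖ = ‖j z‖ ^ 3) :
    ∃ y ∈ ℚ⟮s⟯, α = y ^ 3 := by
  have := nf_adjoin s
  rcases eq_or_ne α 0 with rfl | α0
  · exact ⟨0, zero_mem _, by simp⟩
  have fr {z : Qb} (hz : z ∈ ℚ⟮s⟯) : ∃ x d : 𝓞 ℚ⟮s⟯, d ≠ 0 ∧
      z * ((d : ℚ⟮s⟯) : Qb) = ((x : ℚ⟮s⟯) : Qb) := by
    obtain ⟨x, d, hd, e⟩ := IsFractionRing.div_surjective (𝓞 ℚ⟮s⟯) (⟨z, hz⟩ : ℚ⟮s⟯)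
    have d0 := nonZeroDivisors.ne_zero hd
    exact ⟨x, d, d0, congrArg Subtype.val ((div_eq_iff (by simpa using d0)).1 e).symm⟩
  obtain ⟨x, d, d0, e⟩ := fr hα
  have d1 : ((d : ℚ⟮s⟯) : Qb) ≠ 0 := by simpa using d0
  have x0 : x ≠ 0 := fun k => mul_ne_zero α0 d1 (by simpa [k] using e)
  have w0 : x * d ^ 2 ≠ 0 := mul_ne_zero x0 (pow_ne_zero _ d0)
  have ew : (((x * d ^ 2 : 𝓞 ℚ⟮s⟯) : ℚ⟮s⟯) : Qb) = α * ((d : ℚ⟮s⟯) : Qb) ^ 3 := by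
    simp only [map_mul, map_pow, MulMemClass.coe_mul, SubmonoidClass.coe_pow, ← e]
    ring
  obtain ⟨I, hI⟩ := YMult_cube w0 fun P hP h0 k k1 k2 => by
    obtain ⟨l, _, j, hj⟩ := prime_emb (by omega) hs hP h0
    obtain ⟨c, c0, c1, hc⟩ := norm_mult (by omega) hs hP h0 hj
    obtain ⟨z, hz, ez⟩ := h l j
    obtain ⟨x', d', d0', e'⟩ := fr hz
    have z0 : z ≠ 0 := fun t => α0 (by simpa [t] using ez)
    have x0' : x' ≠ 0 := fun t => by simp [t, z0, d0'] at e'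
    obtain ⟨a1, a1m, a1n⟩ := YMult_ex hP h0 d0
    obtain ⟨a2, a2m, a2n⟩ := YMult_ex hP h0 d0'
    obtain ⟨a3, a3m, a3n⟩ := YMult_ex hP h0 x0'
    have t1 := hc _ _ k1 k2
    have t2 := hc _ _ a3m a3n
    rw [ew, map_mul, map_pow, norm_mul, norm_pow, ez, hc _ _ a1m a1n] at t1
    rw [← e', map_mul, norm_mul, hc _ _ a2m a2n] at t2
    have t3 : c ^ (k + a2 * 3) = c ^ (a3 * 3 + a1 * 3) := by
      rw [pow_add, pow_add, pow_mul, pow_mul, pow_mul, ← t1, ← t2]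
      ring
    have := pow_right_injective₀ c0 c1.ne t3
    omega
  have I0 : I ≠ ⊥ := fun t => w0 (by simpa [t] using hI)
  obtain ⟨y, rfl⟩ := no_torsion hm hq hs hN I0 (hI ▸ ⟨⟨_, rfl⟩⟩)
  rw [Ideal.submodule_span_eq, Ideal.span_singleton_pow, Ideal.span_singleton_eq_span_singleton]
    at hI
  obtain ⟨u, hu⟩ := hI.symm
  obtain ⟨y', hy⟩ : ∃ y' : 𝓞 ℚ⟮s⟯, y' ^ 3 = x * d ^ 2 := by
    rcases unit_quad hm h7 hq hs u with rfl | rfl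
    · exact ⟨y, by simpa using hu⟩
    · exact ⟨-y, by rw [← hu]; simp; ring⟩
  refine ⟨((y' : ℚ⟮s⟯) : Qb) / ((d : ℚ⟮s⟯) : Qb), div_mem (Subtype.prop _) (Subtype.prop _), ?_⟩
  rw [div_pow, eq_div_iff (pow_ne_zero _ d1), ← ew, ← hy]
  simp

end Pool.Agent.Work.MP_dd0d16_nt.LC
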