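import Pool.Agent.Work.MP_dd0d16_nt.L.Field
import Pool.Agent.Work.MP_dd0d16_nt.L.Cls
import Pool.Agent.Work.MP_dd0d16_nt.L.Loc

/-!
Reflection: an element of the real quadratic field `ℚ⟮s r⟯` whose ideal is a cube, whose norm is a cube and which is a
cube at 3 is a cube, when the class number of `ℚ⟮s⟯` is prime to 3.
-/

set_option autoImplicit false

namespace Pool.Agent.Work.MP_dd0d16_nt.LC

open IntermediateField

theorem YRefl_adj1 {s r : Qb} (hr : r ^ 2 = -3) : ℚ⟮s * r, r⟯ = ℚ⟮s, r⟯ := by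
  have r0 : r ≠ 0 := by
    rintro rfl
    norm_num at hr
  ext x
  rw [mem_adjoin_iff, mem_adjoin_iff]
  refine forall_congr' fun g => imp_congr_left ?_
  simp only [Set.mem_insert_iff, Set.mem_singleton_iff, forall_eq_or_imp, forall_eq, map_mul]
  constructor
  · rintro ⟨h1, h2⟩
    rw [h2] at h1
    exact ⟨mul_right_cancel₀ r0 h1, h2⟩
  · rintro ⟨h1, h2⟩
    exact ⟨by rw [h1, h2], h2⟩

theorem YRefl_adj2 {s r : Qb} (hr : r ^ 2 = -3) : ℚ⟮s * r * r⟯ = ℚ⟮s⟯ := by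
  have e : s * r * r = -3 * s := by linear_combination s * hr
  ext x
  rw [mem_adjoin_iff, mem_adjoin_iff, e]
  refine forall_congr' fun g => imp_congr_left ?_
  simp only [Set.mem_singleton_iff, forall_eq, map_mul, map_neg, map_ofNat]
  constructor
  · intro h
    exact mul_left_cancel₀ (by norm_num) h
  · intro h
    rw [h]

theorem norm_three {l : ℕ} [hl : Fact l.Prime] (h : l ≠ 3) : ‖(3 : PadicAlgCl l)‖ = 1 := by
  obtain ⟨j⟩ := exists_emb l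
  have h1 := norm_rat j (c := 3) (by norm_num)
  have h2 : padicValRat l 3 = 0 := by
    have : padicValNat l 3 = 0 := padicValNat.eq_zero_of_not_dvd fun hd =>
      h ((Nat.prime_dvd_prime_iff_eq hl.out Nat.prime_three).1 hd)
    have h3 := padicValRat.of_nat (p := l) (n := 3)
    rw [this] at h3
    exact_mod_cast h3
  rw [h2] at h1
  simpa [map_ofNat] using h1

theorem YRefl_four (j : Qb →+* PadicAlgCl 3) {w : ℚ} (hw : w ≠ 0) {k : ℤ} {a : ℝ}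
    (h1 : a ^ 4 = (3 : ℝ) ^ k) (h2 : ‖j w‖ = a ^ 3) : (3 : ℤ) ∣ padicValRat 3 w := by
  have h3 := norm_rat j hw
  have h4 : ((3 : ℝ) ^ (-padicValRat 3 w)) ^ 4 = ((3 : ℝ) ^ k) ^ 3 := by
    rw [← h1, ← pow_mul, mul_comm, pow_mul, ← h2, h3]
    norm_num
  rw [← zpow_natCast, ← zpow_natCast, ← zpow_mul, ← zpow_mul] at h4
  have h5 := zpow_right_injective₀ (by norm_num) (by norm_num) h4
  push_cast at h5
  omega

theorem norm_cube {l : ℕ} [hl : Fact l.Prime] (j : Qb →+* PadicAlgCl l) {w : ℚ} (hw : w ≠ 0)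
    (h : (3 : ℤ) ∣ padicValRat l w) : ∃ z : ℚ, ‖j w‖ = ‖j z‖ ^ 3 := by
  obtain ⟨v, hv⟩ := h
  have l0 : (l : ℚ) ≠ 0 := Nat.cast_ne_zero.2 hl.out.ne_zero
  refine ⟨(l : ℚ) ^ v, ?_⟩
  rw [norm_rat j hw, norm_rat j (zpow_ne_zero _ l0), padicValRat.zpow, padicValRat.self hl.out.one_lt,
    hv, ← zpow_natCast, ← zpow_mul]
  congr 1
  push_cast
  ring

theorem YRefl_z3 : ∀ x : ZMod 3, x ^ 2 ≠ 0 * x + -1 := by decide

theorem unit_div {a b : Qb} (ha : IsIntegral ℤ a) (ha' : IsIntegral ℤ a⁻¹) (hb : IsIntegral ℤ b)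
    (hb' : IsIntegral ℤ b⁻¹) : IsIntegral ℤ (a / b) ∧ IsIntegral ℤ (a / b)⁻¹ := by
  rw [inv_div, div_eq_mul_inv, div_eq_mul_inv]
  exact ⟨ha.mul hb', hb.mul ha'⟩

theorem int_map (g : Gal) {a : Qb} (ha : IsIntegral ℤ a) : IsIntegral ℤ (g a) :=
  ha.map (g.toAlgHom.restrictScalars ℤ)

theorem int_map_inv (g : Gal) {a : Qb} (ha : IsIntegral ℤ a⁻¹) : IsIntegral ℤ (g a)⁻¹ := by
  rw [← map_inv₀]
  exact int_map g ha

theorem cube_inj {a b : ℝ} (ha : 0 ≤ a) (hb : 0 ≤ b) (h : a ^ 3 = b ^ 3) : a = b :=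
  (pow_left_inj₀ ha hb (by norm_num)).1 h

theorem reflect {m : ℕ} (hm : m % 24 = 7) (hq : Squarefree m) (hN : NoForm m) {s r : Qb}
    (hs : s ^ 2 = -(m : Qb)) (hr : r ^ 2 = -3) {u v x : ℚ} (hx : u ^ 2 - 3 * m * v ^ 2 = x ^ 3)
    (x0 : x ≠ 0)
    (h1 : ∀ (l : ℕ) [Fact l.Prime] (j : Qb →+* PadicAlgCl l), l ≠ 3 →
      ∃ z ∈ ℚ⟮s, r⟯, ‖j (u + v * (s * r))‖ = ‖j z‖ ^ 3)
    (h2 : ∀ j : Qb →+* PadicAlgCl 3, ∃ Θ : Qb, Θ ^ 3 = u + v * (s * r) ∧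
      ∀ g ∈ Dec j, g (s * r) = s * r → g Θ = Θ) :
    ∃ y ∈ ℚ⟮s * r⟯, (u : Qb) + v * (s * r) = y ^ 3 := by
  by_contra hne
  obtain ⟨⟨g1, g1s, g1r⟩, g2, g2s, g2r⟩ := exists_signs (by omega) hs hr
  have hδ : (s * r) ^ 2 = ((3 * m : ℚ) : Qb) := by
    push_cast
    rw [mul_pow, hs, hr]
    ring
  have m0 : (m : Qb) ≠ 0 := Nat.cast_ne_zero.2 (by omega)
  have δ0 : s * r ≠ 0 := fun h => m0 (by
    rw [h] at hδ
    push_cast at hδ
    linear_combination (-1 / 3 : Qb) * hδ)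
  have G1 : (g1 * g2) (s * r) = s * r := by
    simp [AlgEquiv.mul_apply, g1s, g1r, g2s, g2r]
  have G2 : (g1 * g2) r = -r := by
    simp [AlgEquiv.mul_apply, g1r, g2r]
  have hαn : ((u : Qb) + v * (s * r)) * (u - v * (s * r)) = (x : Qb) ^ 3 := by
    have : ((u ^ 2 - 3 * m * v ^ 2 : ℚ) : Qb) = ((x ^ 3 : ℚ) : Qb) := by rw [hx]
    push_cast at this hδ
    linear_combination this - (v : Qb) ^ 2 * hδ
  have α0 : (u : Qb) + v * (s * r) ≠ 0 := fun h => by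
    rw [h, zero_mul] at hαn
    exact pow_ne_zero 3 (Rat.cast_ne_zero.2 x0) hαn.symm
  have hαk : (u : Qb) + v * (s * r) ∈ ℚ⟮s * r⟯ :=
    add_mem (SubfieldClass.ratCast_mem _ _)
      (mul_mem (SubfieldClass.ratCast_mem _ _) (mem_adjoin_simple_self _ _))
  have r2 : r ^ 2 ∈ ℚ⟮s * r⟯ := by
    rw [hr]
    exact neg_mem (ofNat_mem _ 3)
  obtain ⟨d, ds, dr, dD, du, dv, dn⟩ := exists_KD (u := u) (v := v) hδ δ0 hr hx x0 ⟨_, G1, G2⟩
    ⟨g2, by simp [g2s, g2r], g2r⟩ (by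
      intro z hz hz3
      obtain ⟨p, hp, q, hq, rfl⟩ := quad_repr r2 hz
      have fx : ∀ y ∈ ℚ⟮s * r⟯, (g1 * g2) y = y := fun y hy =>
        mem_adjoin_iff.1 hy _ (by simpa using G1)
      have h3 := congrArg (g1 * g2) hz3
      rw [fx _ hαk, map_pow, map_add, map_mul, fx p hp, fx q hq, G2] at h3
      have hw : (p ^ 2 + 3 * q ^ 2) ^ 3 = ((u : Qb) + v * (s * r)) ^ 2 := by
        have : p ^ 2 + 3 * q ^ 2 = (p + q * r) * (p + q * -r) := by linear_combination q ^ 2 * hr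
        rw [this, mul_pow, hz3, h3]
        ring
      have w0 : p ^ 2 + 3 * q ^ 2 ≠ 0 := fun h => by
        rw [h] at hw
        exact pow_ne_zero 2 α0 (by rw [← hw]; ring)
      refine hne ⟨(u + v * (s * r)) / (p ^ 2 + 3 * q ^ 2), div_mem hαk
        (add_mem (pow_mem hp 2) (mul_mem (ofNat_mem _ 3) (pow_mem hq 2))), ?_⟩
      rw [div_pow, hw]
      field_simp)
  have hL : d.L = ℚ⟮s, r⟯ := by rw [KD.L, ds, dr, YRefl_adj1 hr]
  have hL' : d.L = ℚ⟮s * r, r⟯ := by rw [KD.L, ds, dr]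
  have hk : d.k = ℚ⟮s⟯ := by rw [KD.k, KD.δ, ds, dr, YRefl_adj2 hr]
  have hθ : d.θ ^ 3 = u + v * (s * r) := by rw [d.hθ, ds, du, dv]
  have V1 : ∀ (l : ℕ) [Fact l.Prime] (j : Qb →+* PadicAlgCl l), l ≠ 3 → ∀ c e y : Qb, c ∈ d.L →
      y ∈ d.M → e ≠ 0 → IsIntegral ℤ e → IsIntegral ℤ e⁻¹ → c = e * y ^ 3 →
      ∃ z ∈ d.L, ‖j c‖ = ‖j z‖ ^ 3 := by
    intro l _ j hl c e y hc hy e0 e1 e2 h
    obtain ⟨z, hz, hz'⟩ := h1 l j hl
    refine d.unram j (norm_three hl) ⟨z, hL ▸ hz, cube_inj (norm_nonneg _) (norm_nonneg _) ?_⟩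
      hc hy e0 e1 e2 h
    rw [← hz', ← hθ, map_pow, norm_pow]
  have V2 : ∀ (j : Qb →+* PadicAlgCl 3) (e y : Qb) (w : ℚ), y ∈ d.M → y ≠ 0 → e ≠ 0 →
      IsIntegral ℤ e → IsIntegral ℤ e⁻¹ → ‖j w‖ = ‖j (e * y ^ 3)‖ →
      w ≠ 0 ∧ (3 : ℤ) ∣ padicValRat 3 w := by
    intro j e y w hy y0 e0 e1 e2 h
    obtain ⟨Θ, hΘ, hΘ'⟩ := h2 j
    have Θ0 : Θ ≠ 0 := fun h => α0 (by rw [← hΘ, h]; ring)
    obtain ⟨k, hk⟩ := norm_four j (A := 3 * m) (B := -3) hδ (by rw [hr]; norm_num) y0 (by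
      intro g hg ga gb
      have h3 : (d.θ / Θ) ^ 3 = 1 := by rw [div_pow, hθ, hΘ, div_self α0]
      have h4 : g (d.θ / Θ) = d.θ / Θ := by
        rcases cube_one hr h3 with h | h | h <;> rw [h] <;> simp [gb, map_ofNat]
      rw [map_div₀, hΘ' g hg ga, div_left_inj' Θ0] at h4
      exact d.agree (h := 1) (by rw [ds]; exact ga) (by rw [dr]; exact gb) h4 hy)
    rw [map_mul, norm_mul, norm_unit j e0 e1 e2, one_mul, map_pow, norm_pow] at h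
    have w0 : w ≠ 0 := by
      rintro rfl
      simp only [Rat.cast_zero, map_zero, norm_zero] at h
      exact y0 ((map_eq_zero j).1 (norm_eq_zero.1 (pow_eq_zero_iff (by norm_num) |>.1 h.symm)))
    exact ⟨w0, YRefl_four j w0 hk h⟩
  obtain ⟨ε, hε, e1, e2, e3, e4⟩ := d.noncube_unit
  have ε0 : ε ≠ 0 := fun h => by simp [h] at e3
  obtain ⟨α, hα, y, hy, -, a0, y0, h3, -⟩ := d.dev1 hε e3
  have σ0 : d.σ ε ≠ 0 := (map_ne_zero _).2 ε0
  have σ0' : d.σ (d.σ ε) ≠ 0 := (map_ne_zero _).2 σ0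
  obtain ⟨u1, u2⟩ := unit_div (int_map d.σ (int_map d.σ e1)) (int_map_inv d.σ (int_map_inv d.σ e2))
    (int_map d.σ e1) (int_map_inv d.σ e2)
  have h4 : α = d.σ (d.σ ε) / d.σ ε * y⁻¹ ^ 3 := by
    rw [h3]
    field_simp
  have hyM : y⁻¹ ∈ d.M := inv_mem (d.N_le_M hy)
  obtain ⟨w, hw, rfl⟩ := cube_of_val (by omega) (by omega) hq hs hN (hk ▸ hα) (by
    intro l _ j
    by_cases hl : l = 3
    · subst hl
      obtain ⟨p, q, hpq⟩ := mem_quad (D := -m) (by rw [hs]; push_cast; ring) (hk ▸ hα)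
      have h5 := inert j (ϖ := s) (a := 0) (b := -m) (by rw [hs]; push_cast; ring) (by
        have : ((m : ℕ) : ZMod 3) = 1 := by
          rw [← ZMod.natCast_mod m 3, show m % 3 = 1 by omega, Nat.cast_one]
        push_cast
        rw [this]
        exact YRefl_z3) p q
      rw [← hpq] at h5
      have : ∃ w : ℚ, ‖j α‖ = ‖j w‖ := by
        rcases max_choice ‖j p‖ ‖j q‖ with h | h
        exacts [⟨p, h5.trans h⟩, ⟨q, h5.trans h⟩]
      obtain ⟨w, hw⟩ := this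
      obtain ⟨w0, w3⟩ := V2 j _ _ w hyM (inv_ne_zero y0) (div_ne_zero σ0' σ0) u1 u2
        (by rw [← h4, hw])
      obtain ⟨z, hz⟩ := norm_cube j w0 w3
      exact ⟨z, SubfieldClass.ratCast_mem _ _, hw.trans hz⟩
    · refine desc1 j (b := r) (by rw [hr]; exact neg_mem (ofNat_mem _ 3)) (hk ▸ hα) ?_
      rw [← hL]
      exact V1 l j hl _ _ _ (d.k_le_L hα) hyM (div_ne_zero σ0' σ0) u1 u2 h4)
  obtain ⟨c, z, hz, h5⟩ := d.dev2 hε e3 (y := w * y) (mul_mem (d.k_le_N (hk ▸ hw)) hy)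
    (by rw [h3]; ring)
  have z0 : z ≠ 0 := fun h => ε0 (by rw [h5, h]; ring)
  have h6 : (c : Qb) = ε * z⁻¹ ^ 3 := by
    rw [h5]
    field_simp
  have hzM : z⁻¹ ∈ d.M := inv_mem (d.N_le_M (d.K_le_N hz))
  obtain ⟨x', hx'⟩ := rat_cube (c := c) (by
    intro l hl
    have := Fact.mk hl
    obtain ⟨j⟩ := exists_emb l
    by_cases h3 : l = 3
    · subst h3
      exact (V2 j _ _ c hzM (inv_ne_zero z0) ε0 e1 e2 (by rw [← h6])).2
    · obtain ⟨z', hz'⟩ := desc2 j (A := 3 * m) (B := -3) (c := c) hδ (by rw [hr]; norm_num) (by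
        rw [← hL']
        exact V1 l j h3 _ _ _ (SubfieldClass.ratCast_mem _ _) hzM ε0 e1 e2 h6)
      exact val_of_norm j hz')
  refine e4 (x' * z) (mul_mem (SubfieldClass.ratCast_mem _ _) hz) ?_
  rw [h5, hx']
  push_cast
  ring

end Pool.Agent.Work.MP_dd0d16_nt.LC
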