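import Pool.Agent.Work.MP_dd0d16_nt.L.Quad

/-!
No reduced form of invariant `m` means no 3-torsion in the class group of `ℚ⟮s⟯`; two consequences.

PLAN. `no_torsion`: let `I^3 = span {δ}`, `n0 = absNorm I`, `x₁, x₂` from `ideal_basis`; `N δ = n0^3`
(`absNorm_span`). For `μ ∈ I^3`, `μ / δ` is an integer of the field, `μ / δ = a + b (1 + s) / 2`; put `φ μ = b`. The form
`f = (φ (x₁^3), φ (x₁^2 x₂), φ (x₁ x₂^2), φ (x₂^3))` has `hA = N x₁ / n0`, `hB = Tr (x₁ x₂') / n0`, `hC = N x₂ / n0`, so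
`hM f = m` (write `δ = d₁ + d₂ s` and compute in rationals). If `ev f x y = 0` with `(x, y) ≠ 0` then
`λ = x x₁ + y x₂ ≠ 0` has `λ^3 = a δ` with an integer `a`; write `span {λ} = I J`; then `J^3 = span {a}`,
`absNorm J ^ 3 = a^2`, so `|a| = w^3` and `J^3 = span {w}^3`, `J = span {w}` (unique factorisation of ideals), and `I`
is principal (`λ / w`). Otherwise `reduce` contradicts `NoForm`.
`cube_of_val`: multiply `α` by the cube of an integer to make it integral. For a nonzero prime `P` take `l, j` from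
`prime_emb` and `ϖ ∈ P` not in `P^2`; every nonzero integral `x` satisfies `a x = b ϖ^k` with `a, b ∉ P`, `k` the
multiplicity of `P` in `span {x}` (localisation at `P` is a discrete valuation ring, or use
`IsDedekindDomain.HeightOneSpectrum.intValuation`), so `‖j x‖ = ‖j ϖ‖^k` with `0 < ‖j ϖ‖ < 1`; hence `3 ∣ k`. So
`span {α} = I^3`, `I = span {y}`, `α = ± y^3` (`unit_quad`).
`exists_beta`: `ϖ = (1 + s) / 2`, `ϖ (1 - ϖ) = (m + 1) / 4` is even. `P = span {2, ϖ}`, `P' = span {2, 1 - ϖ}`,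
`P P' = span {2}`, `P + P' = ⊤`, both proper, so both have absolute norm 2 (product 4, neither is 1). The order `h` of the
class of `P` is prime to 3 by `no_torsion`, so `P^(3 k + 1) = span {π}` for some `k` (use `h` or `2 h`). With
`π = p + q s`, `π' = p - q s`, `N π = 2^(3 k + 1) = n`, `β = π^2 π' = n π`. `π' ∈ P'^(3 k + 1)` (from
`P^h span {π'} = span {2^h} = P^h P'^h`). Take `x₁, x₂` from `ideal_basis` for `P'^k` and `λ_i = x_i / 4^k`; then
`λ^3 β = (x^3 π) 2 / 2^(3 k)` with `x^3 π ∈ P'^(3k) P^(3k+1) ≤ span {2^(3k)}`; the conjugate is integral too.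
At `l ≠ 2`: `π π' = 2^h`. At 2: `j` from `prime_emb` for `P`; if `‖j β‖ = ‖j z‖^3` use the multiplicity lemma above
(`β` has multiplicity `2 (3 k + 1)` at `P`), or apply it directly with `ϖ = 2`: all norms of nonzero elements of the field
are integral powers of `‖2‖`.
-/

set_option autoImplicit false

namespace Pool.Agent.Work.MP_dd0d16_nt.LC

open IntermediateField NumberField

variable {m : ℕ} {s : Qb}

theorem YTors_alg {x y x' y' e e' t b0 b1 b2 b3 : Qb} (h0 : b0 * t = x ^ 3 * e - x' ^ 3 * e')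
    (h1 : b1 * t = x ^ 2 * y * e - x' ^ 2 * y' * e')
    (h2 : b2 * t = x * y ^ 2 * e - x' * y' ^ 2 * e') (h3 : b3 * t = y ^ 3 * e - y' ^ 3 * e') :
    (4 * (b1 ^ 2 - b0 * b2) * (b2 ^ 2 - b1 * b3) - (b1 * b2 - b0 * b3) ^ 2) * t ^ 4 =
      -((x * y' - y * x') ^ 2) ^ 3 * (e * e') ^ 2 := by
  have k : (4 * (b1 ^ 2 - b0 * b2) * (b2 ^ 2 - b1 * b3) - (b1 * b2 - b0 * b3) ^ 2) * t ^ 4 =
      4 * ((b1 * t) ^ 2 - b0 * t * (b2 * t)) * ((b2 * t) ^ 2 - b1 * t * (b3 * t)) -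
        (b1 * t * (b2 * t) - b0 * t * (b3 * t)) ^ 2 := by ring
  rw [k, h0, h1, h2, h3]
  ring

theorem YTors_prin {R : Type} [CommRing R] [IsDedekindDomain R] [Module.Free ℤ R] {I : Ideal R}
    {l δ : R} {A : ℤ} (hl : l ∈ I) (l0 : l ≠ 0) (hδ : I ^ 3 = Ideal.span {δ})
    (h : l ^ 3 = A * δ) (hA : Ideal.absNorm (Ideal.span {(A : R)}) = A.natAbs ^ 2) :
    I.IsPrincipal := by
  obtain ⟨J, hJ⟩ := Ideal.dvd_span_singleton.2 hl
  have h0 := h ▸ pow_ne_zero 3 l0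
  have k1 : J ^ 3 = Ideal.span {(A : R)} := by
    refine mul_left_cancel₀ (a := Ideal.span {δ}) ?_ ?_
    · simpa using right_ne_zero_of_mul h0
    · rw [Ideal.span_singleton_mul_span_singleton, mul_comm δ, ← h, ← Ideal.span_singleton_pow, hJ,
        mul_pow, hδ]
  have k2 : Ideal.absNorm J ^ 3 = A.natAbs ^ 2 := by rw [← map_pow, k1, hA]
  have a0 : A.natAbs ≠ 0 := fun e => by simp [Int.natAbs_eq_zero.1 e] at h0
  obtain ⟨w, hw⟩ : Ideal.absNorm J ∣ A.natAbs :=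
    (Nat.pow_dvd_pow_iff two_ne_zero).1 (k2 ▸ pow_dvd_pow _ (by norm_num))
  have n0 : Ideal.absNorm J ≠ 0 := left_ne_zero_of_mul (hw ▸ a0)
  have k3 : Ideal.absNorm J = w ^ 2 := by
    refine mul_left_cancel₀ (pow_ne_zero 2 n0) ?_
    rw [← mul_pow, ← hw, ← k2]
    ring
  have k4 : Ideal.span {(A : R)} = Ideal.span {(w : R)} ^ 3 := by
    have e : A.natAbs = w ^ 3 := by rw [hw, k3]; ring
    rw [Ideal.span_singleton_pow, ← Nat.cast_pow, ← e]
    rcases Int.natAbs_eq A with a | a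
    · rw [← Int.cast_natCast, ← a]
    · rw [← Ideal.span_singleton_neg, ← Int.cast_natCast, ← Int.cast_neg, ← neg_eq_iff_eq_neg.2 a]
  have k5 : J = Ideal.span {(w : R)} := by
    rw [k4] at k1
    have k6 : ∀ {a b : Ideal R}, a ^ 3 = b ^ 3 → a ∣ b := fun e =>
      (UniqueFactorizationMonoid.pow_dvd_pow_iff_dvd three_ne_zero).1 e.dvd
    exact dvd_antisymm (k6 k1) (k6 k1.symm)
  rw [k5] at hJ
  obtain ⟨z, -, hz⟩ := Ideal.mem_mul_span_singleton.1 (hJ ▸ Ideal.mem_span_singleton_self l)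
  refine ⟨z, mul_right_cancel₀ (b := Ideal.span {(w : R)}) ?_ ?_⟩
  · simpa using right_ne_zero_of_mul (hz ▸ l0)
  · rw [← hJ, ← hz]
    exact (Ideal.span_singleton_mul_span_singleton z w).symm

theorem no_torsion (hm : m % 4 = 3) (hq : Squarefree m) (hs : s ^ 2 = -(m : Qb)) (hN : NoForm m)
    {I : Ideal (𝓞 ℚ⟮s⟯)} (hI : I ≠ ⊥) (h : (I ^ 3).IsPrincipal) : I.IsPrincipal := by
  have := nf_adjoin s
  by_contra hn
  obtain ⟨δ, hδ⟩ := h.principal
  replace hδ : I ^ 3 = Ideal.span {δ} := hδ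
  obtain ⟨x₁, m₁, x₂, m₂, p₁, q₁, p₂, q₂, e₁, e₂, hw⟩ := ideal_basis hm hq hs hI
  obtain ⟨g, hg⟩ := exists_conj (by omega) hs
  obtain ⟨φ, hφ⟩ : ∃ φ : 𝓞 ℚ⟮s⟯ →+* Qb, ∀ x : 𝓞 ℚ⟮s⟯, ((x : ℚ⟮s⟯) : Qb) = φ x :=
    ⟨(algebraMap ℚ⟮s⟯ Qb).comp (algebraMap _ _), fun _ => rfl⟩
  have inj : Function.Injective φ := fun x y e =>
    RingOfIntegers.ext (Subtype.ext (by rw [hφ, hφ, e]))
  obtain ⟨d₁, d₂, hd⟩ := mem_quad (D := -m) (by simpa using hs) (δ : ℚ⟮s⟯).2
  have hd' := absNorm_span hm hq hs δ hd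
  rw [← hδ, map_pow, Nat.cast_pow] at hd'
  have n0 : (Ideal.absNorm I : Qb) ≠ 0 := by simpa [Ideal.absNorm_eq_zero_iff] using hI
  have s0 : s ≠ 0 := fun e => by
    have : m = 0 := by simpa [e] using hs
    omega
  rw [hφ] at e₁ e₂ hd
  have hD : φ δ * g (φ δ) = (Ideal.absNorm I : Qb) ^ 3 := by
    have k := congrArg (Rat.cast : ℚ → Qb) hd'
    push_cast at k
    rw [hd, map_add, map_mul, map_ratCast, map_ratCast, hg, k]
    linear_combination -(d₂ : Qb) ^ 2 * hs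
  have hW : (φ x₁ * g (φ x₂) - φ x₂ * g (φ x₁)) ^ 2 = s ^ 2 * (Ideal.absNorm I : Qb) ^ 2 := by
    have k0 : (Ideal.absNorm I : ℚ) ^ 2 = 4 * (p₁ * q₂ - p₂ * q₁) ^ 2 := by
      rw [← hw, mul_pow, sq_abs]
      norm_num
    have k := congrArg (Rat.cast : ℚ → Qb) k0
    push_cast at k
    simp only [e₁, e₂, map_add, map_mul, map_ratCast, hg, k]
    ring
  have D0 := hD ▸ pow_ne_zero 3 n0
  have key : ∀ μ ∈ I ^ 3, ∃ a b : ℤ, φ μ = (a + b * ((1 + s) / 2)) * φ δ ∧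
      b * s = φ μ * (φ δ)⁻¹ - g (φ μ) * (g (φ δ))⁻¹ := fun μ hμ => by
    obtain ⟨c, rfl⟩ := Ideal.mem_span_singleton'.1 (hδ ▸ hμ)
    obtain ⟨a, b, hc⟩ := int_quad hm hq hs (c : ℚ⟮s⟯).2
      (c.isIntegral_coe.map (IsScalarTower.toAlgHom ℤ ℚ⟮s⟯ Qb))
    rw [hφ] at hc
    refine ⟨a, b, by rw [map_mul, hc], ?_⟩
    rw [map_mul, map_mul, mul_inv_cancel_right₀ (left_ne_zero_of_mul D0),
      mul_inv_cancel_right₀ (right_ne_zero_of_mul D0), hc]
    simp only [map_add, map_mul, map_intCast, map_div₀, map_one, map_ofNat, hg]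
    ring
  have mm : ∀ {x y z}, x ∈ I → y ∈ I → z ∈ I → x * y * z ∈ I ^ 3 := fun a b c =>
    pow_three' I ▸ Ideal.mul_mem_mul (Ideal.mul_mem_mul a b) c
  obtain ⟨a0, b0, u0, v0⟩ := key _ (mm m₁ m₁ m₁)
  obtain ⟨a1, b1, u1, v1⟩ := key _ (mm m₁ m₁ m₂)
  obtain ⟨a2, b2, u2, v2⟩ := key _ (mm m₁ m₂ m₂)
  obtain ⟨a3, b3, u3, v3⟩ := key _ (mm m₂ m₂ m₂)
  simp only [map_mul] at u0 u1 u2 u3 v0 v1 v2 v3
  have hM' : hM ![b0, b1, b2, b3] = m := by
    have k := YTors_alg (x := φ x₁) (y := φ x₂) (x' := g (φ x₁)) (y' := g (φ x₂))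
      (e := (φ δ)⁻¹) (e' := (g (φ δ))⁻¹)
      (v0.trans (by ring)) (v1.trans (by ring)) (v2.trans (by ring)) (v3.trans (by ring))
    rw [hW, ← mul_inv, hD] at k
    refine Int.cast_injective (α := Qb) (mul_right_cancel₀ (pow_ne_zero 4 s0) ?_)
    simp only [hM, hA, hB, hC, Matrix.cons_val]
    push_cast
    rw [k, ← neg_eq_iff_eq_neg.2 hs]
    field_simp
  have hR : NoRoot ![b0, b1, b2, b3] := fun x y hxy => by
    by_contra hne
    simp only [ev, Matrix.cons_val, Int.cast_id] at hxy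
    have k := congrArg (Int.cast : ℤ → Qb) hxy
    push_cast at k
    refine hn (YTors_prin (l := x * x₁ + y * x₂) (A := ev ![a0, a1, a2, a3] x y)
      (I.add_mem (I.mul_mem_left _ m₁) (I.mul_mem_left _ m₂)) (fun e => hne ?_) hδ (inj ?_) ?_)
    · have e1 := congrArg φ e
      have e2 := congrArg (fun z => g (φ z)) e
      simp only [map_add, map_mul, map_intCast, map_zero] at e1 e2
      have W0 : φ x₁ * g (φ x₂) - φ x₂ * g (φ x₁) ≠ 0 := fun e =>
        mul_ne_zero (pow_ne_zero 2 s0) (pow_ne_zero 2 n0) (by rw [← hW, e]; ring)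
      constructor <;> refine Int.cast_injective (α := Qb) (mul_right_cancel₀ W0 ?_)
      · push_cast
        linear_combination g (φ x₂) * e1 - φ x₂ * e2
      · push_cast
        linear_combination φ x₁ * e2 - g (φ x₁) * e1
    · simp only [ev, Matrix.cons_val, Int.cast_id, map_add, map_mul, map_pow, map_intCast]
      push_cast
      linear_combination (x : Qb) ^ 3 * u0 + 3 * (x : Qb) ^ 2 * y * u1 + 3 * (x : Qb) * y ^ 2 * u2 +
        (y : Qb) ^ 3 * u3 + (1 + s) / 2 * φ δ * k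
    · generalize ev ![a0, a1, a2, a3] x y = A
      have k1 := absNorm_span hm hq hs (A : 𝓞 ℚ⟮s⟯) (p := A) (q := 0) (by rw [hφ]; simp)
      refine Nat.cast_injective (R := ℚ) (k1.trans ?_)
      simp
  obtain ⟨f, f1, f2, -⟩ := reduce _ hR (by rw [hM']; omega)
  exact hN f f1 (f2.trans hM')

end Pool.Agent.Work.MP_dd0d16_nt.LC
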