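import Pool.Agent.Work.MP_dd0d16_nt.L.Form

/-!
The compact part of the fundamental domain and its volume.

PLAN. `isCompact_Reg`: closed (polynomial inequalities) and bounded: `3 η^2 / 4 ≤ A`, `3 A C ≤ M ≤ 1`, and the
identities in the header of Form give bounds for the four coordinates (`Metric.isCompact_of_isClosed_isBounded`).
`vol_Reg`: `Reg η` lies in the image of
`D = {(q, t, u, v) | 0 < q, 0 ≤ u ≤ 1/2, 3/4 ≤ v^2, 0 < v, 4 q^4 (1 + t^2)^2 v^6 ≤ 1}` under the polynomial map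
`Ψ (q, t, u, v) = (q, q (t v + u), q (2 t u v + u^2 - v^2), q (t (3 u^2 v - v^3) + u^3 - 3 u v^2))`
(take `q = a`, `u = B / (2 A)`, `v = √M / (2 A)`, `t = (b - a u) / (a v)`; then `A = q^2 (1 + t^2) v^2`, `M = 4 A^2 v^2`),
whose Jacobian determinant has absolute value `4 q^3 (1 + t^2) v^4`.
`MeasureTheory.addHaar_image_le_lintegral_abs_det_fderiv` needs no injectivity. Integrating in `q` first gives
`1 / (4 v^2 (1 + t^2))`, and then `(1 / 4) * π * (1 / 2) * (2 / √3) = π / (4 √3) < 0.46`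
(`integral_univ_inv_one_add_sq`, `integral_Ioi_rpow_of_lt`). Transfer to `ℝ × (Fin 3 → ℝ)` or to `ℝ × ℝ × ℝ × ℝ` with
`MeasureTheory.volume_preserving_piFinSuccAbove`, then `lintegral_prod` and `lintegral_prod_mul`.
-/

set_option autoImplicit false

namespace Pool.Agent.Work.MP_dd0d16_nt.LC

open MeasureTheory

def Reg (η : ℝ) : Set (Fin 4 → ℝ) :=
  {x | η ≤ x 0 ∧ 3 * x 0 ^ 2 ≤ 4 * hA x ∧ 0 ≤ hB x ∧ hB x ≤ hA x ∧ hA x ≤ hC x ∧ hM x ≤ 1}

theorem YVol_pos {η : ℝ} (hη : 0 < η) {x : Fin 4 → ℝ} (hx : x ∈ Reg η) :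
    0 < hA x ∧ 3 * (hA x * hC x) ≤ hM x := by
  obtain ⟨h1, h2, h3, h4, h5, -⟩ := hx
  have A0 : 0 < hA x := by nlinarith [pow_pos (hη.trans_le h1) 2]
  refine ⟨A0, ?_⟩
  rw [hM]
  nlinarith [mul_le_mul_of_nonneg_left h5 A0.le, pow_le_pow_left₀ h3 h4 2]

theorem isCompact_Reg {η : ℝ} (hη : 0 < η) : IsCompact (Reg η) := by
  have cA : Continuous (hA : (Fin 4 → ℝ) → ℝ) := by unfold hA; fun_prop
  have cB : Continuous (hB : (Fin 4 → ℝ) → ℝ) := by unfold hB; fun_prop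
  have cC : Continuous (hC : (Fin 4 → ℝ) → ℝ) := by unfold hC; fun_prop
  have cM : Continuous (hM : (Fin 4 → ℝ) → ℝ) := by unfold hM; fun_prop
  refine Metric.isCompact_of_isClosed_isBounded ((isClosed_le continuous_const (by fun_prop)).and
    ((isClosed_le (by fun_prop) (by fun_prop)).and ((isClosed_le continuous_const cB).and
    ((isClosed_le cB cA).and ((isClosed_le cA cC).and (isClosed_le cM continuous_const))))))
    (isBounded_iff_forall_norm_le.2 ⟨1 + 2 * (η ^ 2)⁻¹ + 2 * (η ^ 2)⁻¹ ^ 3, fun x hx => ?_⟩)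
  obtain ⟨A0, hm⟩ := YVol_pos hη hx
  obtain ⟨h1, h2, h3, h4, h5, h6⟩ := hx
  have C0 := A0.trans_le h5
  have AC := mul_pos A0 C0
  have T0 : 0 < (η ^ 2)⁻¹ := by positivity
  have T1 : 1 ≤ 2 * (η ^ 2)⁻¹ * hA x := by
    rw [mul_comm 2, mul_assoc, le_inv_mul_iff₀ (by positivity)]
    nlinarith [pow_le_pow_left₀ hη.le h1 2]
  generalize (η ^ 2)⁻¹ = T at *
  have T2 : hC x ≤ T := by nlinarith
  have e1 : 4 * hC x * hA x ^ 2 = (hB x * x 1 - 2 * hC x * x 0) ^ 2 + hM x * x 1 ^ 2 := by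
    simp only [hM, hA, hB, hC]; ring
  have e2 : 4 * hC x * (hA x * hC x) = (hB x * x 2 - 2 * hC x * x 1) ^ 2 + hM x * x 2 ^ 2 := by
    simp only [hM, hA, hB, hC]; ring
  have e3 : 4 * hC x * hC x ^ 2 = (hB x * x 3 - 2 * hC x * x 2) ^ 2 + hM x * x 3 ^ 2 := by
    simp only [hM, hA, hB, hC]; ring
  have b1 : 3 * x 1 ^ 2 ≤ 4 * hA x := le_of_mul_le_mul_left (by
    nlinarith [mul_le_mul_of_nonneg_right hm (sq_nonneg (x 1)),
      sq_nonneg (hB x * x 1 - 2 * hC x * x 0)]) AC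
  have b2 : 3 * x 2 ^ 2 ≤ 4 * hC x := le_of_mul_le_mul_left (by
    nlinarith [mul_le_mul_of_nonneg_right hm (sq_nonneg (x 2)),
      sq_nonneg (hB x * x 2 - 2 * hC x * x 1)]) AC
  have b3 : 3 * hA x * x 3 ^ 2 ≤ 4 * hC x ^ 2 := le_of_mul_le_mul_left (by
    nlinarith [mul_le_mul_of_nonneg_right hm (sq_nonneg (x 3)),
      sq_nonneg (hB x * x 3 - 2 * hC x * x 2)]) C0
  have b4 : 3 * x 3 ^ 2 ≤ 8 * T ^ 3 := by
    nlinarith [mul_le_mul_of_nonneg_right T1 (sq_nonneg (x 3)), mul_le_mul_of_nonneg_left b3 T0.le,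
      mul_le_mul_of_nonneg_left (pow_le_pow_left₀ C0.le T2 2) T0.le]
  have T3 := pow_pos T0 3
  have k : ∀ y : ℝ, 3 * y ^ 2 ≤ 4 * T + 8 * T ^ 3 → ‖y‖ ≤ 1 + 2 * T + 2 * T ^ 3 := fun y hy =>
    abs_le.2 ⟨by nlinarith [sq_nonneg (y + 1)], by nlinarith [sq_nonneg (y - 1)]⟩
  refine (pi_norm_le_iff_of_nonneg (by positivity)).2 fun i => k _ ?_
  fin_cases i <;> simp only [Fin.zero_eta, Fin.mk_one, Fin.reduceFinMk] <;> linarith

def YVol_D : Set (Fin 4 → ℝ) :=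
  {x | 0 < x 0 ∧ x 2 ∈ Set.Icc (0 : ℝ) (1 / 2) ∧ x 3 ∈ Set.Ioi (5 / 6 : ℝ) ∧
    4 * (1 + x 1 ^ 2) ^ 2 * x 3 ^ 6 * x 0 ^ 4 ≤ 1}

def YVol_Ψ (x : Fin 4 → ℝ) : Fin 4 → ℝ :=
  ![x 0, x 0 * (x 1 * x 3 + x 2), x 0 * (2 * (x 1 * x 2 * x 3) + x 2 ^ 2 - x 3 ^ 2),
    x 0 * (x 1 * (3 * (x 2 ^ 2 * x 3) - x 3 ^ 3) + x 2 ^ 3 - 3 * (x 2 * x 3 ^ 2))]

def YVol_J (x : Fin 4 → ℝ) : Matrix (Fin 4) (Fin 4) ℝ :=
  !![1, 0, 0, 0;
    x 1 * x 3 + x 2, x 0 * x 3, x 0, x 0 * x 1;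
    2 * (x 1 * x 2 * x 3) + x 2 ^ 2 - x 3 ^ 2, 2 * x 0 * x 2 * x 3, 2 * x 0 * (x 1 * x 3 + x 2),
      2 * x 0 * (x 1 * x 2 - x 3);
    x 1 * (3 * (x 2 ^ 2 * x 3) - x 3 ^ 3) + x 2 ^ 3 - 3 * (x 2 * x 3 ^ 2),
      x 0 * (3 * (x 2 ^ 2 * x 3) - x 3 ^ 3), 3 * x 0 * (2 * (x 1 * x 2 * x 3) + x 2 ^ 2 - x 3 ^ 2),
      3 * x 0 * (x 1 * (x 2 ^ 2 - x 3 ^ 2) - 2 * x 2 * x 3)]

theorem YVol_det (x : Fin 4 → ℝ) :
    (YVol_J x).det = -(4 * x 0 ^ 3 * ((1 + x 1 ^ 2) * x 3 ^ 4)) := by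
  simp [YVol_J, Matrix.det_succ_row_zero, Fin.sum_univ_succ, Fin.succAbove]
  ring

theorem YVol_der (x : Fin 4 → ℝ) : HasFDerivAt YVol_Ψ
    (LinearMap.toContinuousLinearMap (Matrix.toLin' (YVol_J x))) x := by
  have h := fun i => hasFDerivAt_apply (𝕜 := ℝ) i x
  refine hasFDerivAt_pi'' fun i => ?_
  fin_cases i
  · refine (h 0).congr_fderiv (ContinuousLinearMap.ext fun y => ?_)
    simp [YVol_J, dotProduct, Fin.sum_univ_four]
  · refine ((h 0).mul (((h 1).mul (h 3)).add (h 2))).congr_fderiv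
      (ContinuousLinearMap.ext fun y => ?_)
    simp [YVol_J, dotProduct, Fin.sum_univ_four]
    ring
  · refine ((h 0).mul ((((((h 1).mul (h 2)).mul (h 3)).const_mul 2).add ((h 2).pow 2)).sub
      ((h 3).pow 2))).congr_fderiv (ContinuousLinearMap.ext fun y => ?_)
    simp [YVol_J, dotProduct, Fin.sum_univ_four]
    ring
  · refine ((h 0).mul ((((h 1).mul (((((h 2).pow 2).mul (h 3)).const_mul 3).sub ((h 3).pow 3))).add
      ((h 2).pow 3)).sub (((h 2).mul ((h 3).pow 2)).const_mul 3))).congr_fderiv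
      (ContinuousLinearMap.ext fun y => ?_)
    simp [YVol_J, dotProduct, Fin.sum_univ_four]
    ring

theorem YVol_sub {η : ℝ} (hη : 0 < η) : Reg η ⊆ YVol_Ψ '' YVol_D := fun x hx => by
  obtain ⟨A0, hm⟩ := YVol_pos hη hx
  obtain ⟨h1, -, h3, h4, h5, h6⟩ := hx
  have a0 := hη.trans_le h1
  have m0 : 3 * hA x ^ 2 ≤ hM x := by nlinarith [mul_le_mul_of_nonneg_left h5 A0.le]
  obtain ⟨u, hu⟩ : ∃ u, 2 * hA x * u = hB x := ⟨_, mul_div_cancel₀ _ (by positivity)⟩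
  obtain ⟨v, v0, hv⟩ : ∃ v, 0 ≤ v ∧ 4 * hA x ^ 2 * v ^ 2 = hM x :=
    ⟨√(hM x) / (2 * hA x), by positivity, by
      rw [div_pow, Real.sq_sqrt ((by positivity : (0 : ℝ) ≤ _).trans m0)]
      field_simp
      ring⟩
  have v1 : 3 ≤ 4 * v ^ 2 := le_of_mul_le_mul_left (by linarith) (pow_pos A0 2)
  have v2 : 5 / 6 < v := lt_of_pow_lt_pow_left₀ 2 v0 (by linarith)
  obtain ⟨t, ht⟩ : ∃ t, x 0 * v * t = x 1 - x 0 * u :=
    ⟨_, mul_div_cancel₀ _ (mul_pos a0 (by linarith)).ne'⟩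
  have c1 : hA x * (u ^ 2 + v ^ 2) = hC x := mul_left_cancel₀ (a := 4 * hA x) (by positivity) (by
    rw [hM] at hv
    linear_combination hv + (2 * hA x * u + hB x) * hu)
  have c2 : x 2 = 2 * u * x 1 - x 0 * (u ^ 2 + v ^ 2) := mul_left_cancel₀ A0.ne' (by
    have : hA x * x 2 - hB x * x 1 + hC x * x 0 = 0 := by simp only [hA, hB, hC]; ring
    linear_combination this - x 1 * hu + x 0 * c1)
  have c3 : x 3 = 2 * u * x 2 - x 1 * (u ^ 2 + v ^ 2) := mul_left_cancel₀ A0.ne' (by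
    have : hA x * x 3 - hB x * x 2 + hC x * x 1 = 0 := by simp only [hA, hB, hC]; ring
    linear_combination this - x 2 * hu + x 1 * c1)
  have c4 : hA x = x 0 ^ 2 * (1 + t ^ 2) * v ^ 2 := by
    rw [hA]
    linear_combination (-x 0) * c2 - (x 0 * v * t + x 1 - x 0 * u) * ht
  refine ⟨![x 0, t, u, v], ⟨a0, ⟨nonneg_of_mul_nonneg_right (hu ▸ h3) (by positivity),
    le_of_mul_le_mul_left (show 2 * hA x * u ≤ 2 * hA x * (1 / 2) by linarith) (by positivity)⟩,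
    v2, ?_⟩, funext fun i => ?_⟩
  · rw [← hv, c4] at h6
    exact le_of_eq_of_le (by simp only [Matrix.cons_val]; ring) h6
  · fin_cases i <;> simp only [YVol_Ψ, Fin.zero_eta, Fin.mk_one, Fin.reduceFinMk, Matrix.cons_val]
    · linear_combination ht
    · linear_combination 2 * u * ht - c2
    · linear_combination (3 * u ^ 2 - v ^ 2) * ht - c3 - 2 * u * c2

theorem YVol_step {n : ℕ} {f : (Fin (n + 1) → ℝ) → ENNReal} (hf : Measurable f) :
    ∫⁻ x, f x = ∫⁻ y : Fin n → ℝ, ∫⁻ q, f (Fin.cons q y) := by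
  rw [((volume_preserving_piFinSuccAbove (fun _ => ℝ) 0).symm _).lintegral_map_equiv f,
    Measure.volume_eq_prod, lintegral_prod_symm' _ (by fun_prop)]
  simp [MeasurableEquiv.piFinSuccAbove_symm_apply, Fin.insertNthEquiv]

theorem YVol_inner {K K' : ℝ} (hK : 0 ≤ K) (hK' : 0 < K') :
    ∫⁻ q in {q : ℝ | 0 < q ∧ K' * q ^ 4 ≤ 1}, ENNReal.ofReal (4 * q ^ 3 * K) ≤
      ENNReal.ofReal (K / K') := by
  obtain ⟨Q, Q0, hQ⟩ : ∃ Q : ℝ, 0 ≤ Q ∧ Q ^ 4 = K'⁻¹ :=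
    ⟨_, by positivity, Real.rpow_inv_natCast_pow (by positivity) (by norm_num)⟩
  refine (lintegral_mono_set (t := Set.Ioc 0 Q) fun q hq => ⟨hq.1, le_of_pow_le_pow_left₀
    (n := 4) (by norm_num) Q0 (by
      rw [hQ, ← mul_one K'⁻¹, le_inv_mul_iff₀ hK']
      exact hq.2)⟩).trans_eq ?_
  rw [← ofReal_integral_eq_lintegral_ofReal (Continuous.integrableOn_Ioc (by fun_prop))
    ((ae_restrict_iff' measurableSet_Ioc).2 (.of_forall fun q hq => by
      have := hq.1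
      positivity)), ← intervalIntegral.integral_of_le Q0, intervalIntegral.integral_mul_const,
    intervalIntegral.integral_const_mul, integral_pow, hQ]
  congr 1
  ring

theorem vol_Reg {η : ℝ} (hη : 0 < η) : volume (Reg η) < ENNReal.ofReal (1 / 2) := by
  have mD : MeasurableSet YVol_D := by
    unfold YVol_D
    measurability
  let g : Fin 3 → ℝ → ℝ := ![fun t => (1 + t ^ 2)⁻¹, (Set.Icc 0 (1 / 2)).indicator 1,
    (Set.Ioi (5 / 6)).indicator fun v => v ^ (-2 : ℝ) / 4]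
  have gi : ∀ i, Integrable (g i) := fun i => by
    fin_cases i
    · exact integrable_inv_one_add_sq
    · exact (integrable_indicator_iff measurableSet_Icc).2 (integrableOn_const (by simp))
    · exact (integrable_indicator_iff measurableSet_Ioi).2
        ((integrableOn_Ioi_rpow_of_lt (by norm_num) (by norm_num)).div_const 4)
  have g0 : ∀ i y, 0 ≤ g i y := fun i y => by
    fin_cases i
    · exact (by positivity : 0 ≤ (1 + y ^ 2)⁻¹)
    · exact Set.indicator_nonneg (fun _ _ => zero_le_one) y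
    · exact Set.indicator_nonneg (s := Set.Ioi _) (fun v hv => div_nonneg
        (Real.rpow_nonneg (le_trans (by norm_num) hv.le) _) (by norm_num)) y
  let J : (Fin 4 → ℝ) → ENNReal := fun x => ENNReal.ofReal (4 * x 0 ^ 3 * ((1 + x 1 ^ 2) * x 3 ^ 4))
  calc volume (Reg η) ≤ volume (YVol_Ψ '' YVol_D) := measure_mono (YVol_sub hη)
    _ ≤ _ := addHaar_image_le_lintegral_abs_det_fderiv volume mD
      fun x _ => (YVol_der x).hasFDerivWithinAt
    _ = ∫⁻ x in YVol_D, J x := setLIntegral_congr_fun mD fun x hx => by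
      have := hx.1
      simp only [J]
      rw [LinearMap.det_toContinuousLinearMap, LinearMap.det_toLin', YVol_det, abs_neg,
        abs_of_nonneg (by positivity)]
    _ = ∫⁻ y : Fin 3 → ℝ, ∫⁻ q, YVol_D.indicator J (Fin.cons q y) := by
      rw [← lintegral_indicator mD, YVol_step (Measurable.indicator (by fun_prop) mD)]
    _ ≤ ∫⁻ y : Fin 3 → ℝ, ENNReal.ofReal (∏ i, g i (y i)) := by
      refine lintegral_mono fun y => ?_
      by_cases hy : y 1 ∈ Set.Icc (0 : ℝ) (1 / 2) ∧ y 2 ∈ Set.Ioi (5 / 6 : ℝ)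
      · have v0 : 0 < y 2 := lt_trans (by norm_num) hy.2
        refine le_trans (lintegral_mono fun q => ?_) ((lintegral_indicator_le _ _).trans
          ((YVol_inner (K := (1 + y 0 ^ 2) * y 2 ^ 4) (K' := 4 * (1 + y 0 ^ 2) ^ 2 * y 2 ^ 6)
            (by positivity) (by positivity)).trans_eq (congrArg _ ?_)))
        · refine Set.indicator_apply_le' (fun k => ?_) fun _ => zero_le
          rw [Set.indicator_of_mem (by exact ⟨k.1, k.2.2.2⟩)]
          exact le_rfl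
        · simp only [Fin.prod_univ_three, g, Matrix.cons_val, Set.indicator_of_mem hy.1,
            Set.indicator_of_mem hy.2, Pi.one_apply]
          rw [Real.rpow_neg v0.le, Real.rpow_two]
          field_simp
      · refine le_trans (lintegral_mono (g := fun _ => 0) fun q => ?_) (by simp)
        exact Set.indicator_apply_le' (fun k => (hy ⟨k.2.1, k.2.2.1⟩).elim) fun _ => le_rfl
    _ = ENNReal.ofReal (∏ i, ∫ y, g i y) := by
      rw [← integral_fintype_prod_volume_eq_prod]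
      exact (ofReal_integral_eq_lintegral_ofReal (Integrable.fintype_prod gi)
        (.of_forall fun y => Finset.prod_nonneg fun i _ => g0 i _)).symm
    _ < _ := by
      refine (ENNReal.ofReal_lt_ofReal_iff (by norm_num)).2 ?_
      simp only [Fin.prod_univ_three, g, Matrix.cons_val]
      rw [integral_univ_inv_one_add_sq, integral_indicator_one measurableSet_Icc,
        integral_indicator measurableSet_Ioi, integral_div,
        integral_Ioi_rpow_of_lt (by norm_num) (by norm_num), Real.volume_real_Icc_of_le (by norm_num),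
        show (-2 : ℝ) + 1 = -1 by norm_num, Real.rpow_neg_one]
      linarith [Real.pi_lt_d2]

end Pool.Agent.Work.MP_dd0d16_nt.LC
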